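import Pool.Agent.NH42.HF.Stm2

/-! # HF-9: one slab, all cells, mollified function -/

set_option autoImplicit false

open MeasureTheory Set Metric
open scoped ENNReal

namespace Pool.Agent.NH42.HF

open Pool.Agent.H803R2.Kak Pool.Agent.H803R2.KakFTO

private lemma bad_trans {d : ℕ} (G : V d → ℝ≥0∞) (c : V d) (r : ℝ) :
    ∫⁻ y in closedBall (0 : V d) r, G (c + y) = ∫⁻ y in closedBall c r, G y := by
  rw [← lintegral_indicator measurableSet_closedBall, ← lintegral_indicator measurableSet_closedBall]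
  have e : ∀ y, (closedBall (0 : V d) r).indicator (fun y => G (c + y)) y =
      (closedBall c r).indicator G (c + y) := by
    intro y
    by_cases hy : y ∈ closedBall (0 : V d) r
    · rw [indicator_of_mem hy, indicator_of_mem]
      rw [mem_closedBall, dist_eq_norm, add_sub_cancel_left]
      simpa [mem_closedBall, dist_eq_norm] using hy
    · rw [indicator_of_notMem hy, indicator_of_notMem]
      intro h
      apply hy
      rw [mem_closedBall, dist_eq_norm, add_sub_cancel_left] at h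
      simpa [mem_closedBall, dist_eq_norm] using h
  simp_rw [e]
  exact lintegral_add_left_eq_self _ c

private lemma bad_pt {d : ℕ} {δ ℓ ρ h : ℝ} (hδ : 0 < δ) (hℓ : 0 < ℓ) (hδℓ : 2 * δ ≤ ℓ * ρ)
    (b : V d → V d) (f : V d × ℝ → ℝ≥0∞) {w w₁ : V d} (hw : ‖w - w₁‖ ≤ ρ) :
    ∫⁻ t in Icc h (h + ℓ), moll (2 * δ) f (b w + t • w, t) ≤
      (volume (closedBall (0 : V d) (2 * δ)))⁻¹ *
        ⨆ u : V d, tint ℓ (ℓ * (2 * ρ)) h u w₁ f := by
  have hV : (volume (closedBall (0 : V d) (2 * δ)))⁻¹ ≠ ⊤ :=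
    ENNReal.inv_ne_top.2 (vol_pos (d := d) (by linarith)).ne'
  calc ∫⁻ t in Icc h (h + ℓ), moll (2 * δ) f (b w + t • w, t)
      ≤ ∫⁻ t in Icc h (h + ℓ), (volume (closedBall (0 : V d) (2 * δ)))⁻¹ *
          ∫⁻ y in closedBall (b w + h • (w - w₁) + t • w₁) (ℓ * (2 * ρ)), f (y, t) := by
        refine setLIntegral_mono' measurableSet_Icc fun t ht => ?_
        unfold moll
        refine mul_le_mul_right ?_ _
        rw [bad_trans (fun y => f (y, t)) (b w + t • w) (2 * δ)]
        apply lintegral_mono_set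
        apply closedBall_subset_closedBall'
        have e : b w + t • w - (b w + h • (w - w₁) + t • w₁) = (t - h) • (w - w₁) := by
          module
        rw [dist_eq_norm, e, norm_smul, Real.norm_eq_abs, abs_of_nonneg (by linarith [ht.1])]
        have h1 : (t - h) * ‖w - w₁‖ ≤ ℓ * ρ := by
          apply mul_le_mul (by linarith [ht.2]) hw (norm_nonneg _) hℓ.le
        linarith
    _ = (volume (closedBall (0 : V d) (2 * δ)))⁻¹ *
          tint ℓ (ℓ * (2 * ρ)) h (b w + h • (w - w₁)) w₁ f := by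
        rw [lintegral_const_mul' _ _ hV]
        rfl
    _ ≤ _ := by
        refine mul_le_mul_right ?_ _
        exact le_iSup (fun u : V d => tint ℓ (ℓ * (2 * ρ)) h u w₁ f) _

theorem bad : S_bad := by
  intro d p θ hp hC
  obtain ⟨C, hC0, hC⟩ := hC
  have hω0 := vol_pos (d := d) one_pos
  have hωt := vol_lt_top (d := d) (r := 1)
  set ω : ℝ := (volume (closedBall (0 : V d) 1)).toReal with hω
  have hωp : 0 < ω := ENNReal.toReal_pos hω0.ne' hωt.ne
  have hp0 : 0 < p := by linarith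
  refine ⟨C * ((2 ^ d * ω) ^ (-p)) * 2 ^ ((d : ℝ) * p - θ), by positivity, ?_⟩
  intro δ ℓ ρ h b f N Q hδ hℓ hρ hρ32 hδℓ hf mQ dQ diam
  classical
  set w : Fin N → V d := fun i =>
    if hne : (Q i ∩ closedBall (0 : V d) 1).Nonempty then hne.some else 0 with hw
  have hw1 : ∀ i, ‖w i‖ ≤ 1 := by
    intro i
    by_cases hne : (Q i ∩ closedBall (0 : V d) 1).Nonempty
    · simp only [hw, hne, dif_pos]
      simpa using hne.some_mem.2
    · simp [hw, hne]
  have hw2 : ∀ i, ∀ x ∈ Q i ∩ closedBall (0 : V d) 1, ‖x - w i‖ ≤ ρ := by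
    intro i x hx
    have hne : (Q i ∩ closedBall (0 : V d) 1).Nonempty := ⟨x, hx⟩
    simp only [hw, hne, dif_pos]
    exact diam i x hx.1 _ hne.some_mem.1
  have key := hC ℓ (2 * ρ) h hℓ (by linarith) (by linarith) (Fin N)
    (fun i => Q i ∩ closedBall (0 : V d) 1) w (fun i => (mQ i).inter measurableSet_closedBall)
    (fun i j hij => (dQ hij).mono inter_subset_left inter_subset_left)
    (fun i x hx => (hw2 i x hx).trans (by linarith)) hw1 f hf
  set Vi := (volume (closedBall (0 : V d) (2 * δ)))⁻¹ with hVi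
  have hVr : Vi ^ p = ENNReal.ofReal (((2 ^ d * ω) ^ (-p)) * δ ^ (-((d : ℝ) * p))) := by
    have e1 : volume (closedBall (0 : V d) (2 * δ)) = ENNReal.ofReal (2 ^ d * ω * δ ^ d) := by
      rw [vol_ball_scale (d := d) (by linarith : (0:ℝ) < 2 * δ), ← ENNReal.ofReal_toReal hωt.ne,
        ← ENNReal.ofReal_pow (by linarith), ← ENNReal.ofReal_mul (by positivity), mul_pow]
      congr 1
      ring
    rw [hVi, e1, ENNReal.inv_rpow, ← ENNReal.rpow_neg,
      ENNReal.ofReal_rpow_of_pos (by positivity), Real.mul_rpow (by positivity) (by positivity)]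
    congr 2
    rw [← Real.rpow_natCast δ d, ← Real.rpow_mul hδ.le]
    congr 1
    ring
  calc ∑ i, ∫⁻ w in Q i ∩ closedBall 0 1,
        (∫⁻ t in Icc h (h + ℓ), moll (2 * δ) f (b w + t • w, t)) ^ p
      ≤ ∑ i, Vi ^ p * (volume (Q i ∩ closedBall (0 : V d) 1) *
          (⨆ u : V d, tint ℓ (ℓ * (2 * ρ)) h u (w i) f) ^ p) := by
        refine Finset.sum_le_sum fun i _ => ?_
        calc ∫⁻ w in Q i ∩ closedBall 0 1,
              (∫⁻ t in Icc h (h + ℓ), moll (2 * δ) f (b w + t • w, t)) ^ p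
            ≤ ∫⁻ _ in Q i ∩ closedBall (0 : V d) 1,
                (Vi * ⨆ u : V d, tint ℓ (ℓ * (2 * ρ)) h u (w i) f) ^ p := by
              refine setLIntegral_mono' ((mQ i).inter measurableSet_closedBall) fun x hx => ?_
              exact ENNReal.rpow_le_rpow (bad_pt hδ hℓ hδℓ b f (hw2 i x hx)) hp0.le
          _ = _ := by
              rw [setLIntegral_const, ENNReal.mul_rpow_of_nonneg _ _ hp0.le]
              ring
    _ = Vi ^ p * ∑ i, (volume (Q i ∩ closedBall (0 : V d) 1) *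
          (⨆ u : V d, tint ℓ (ℓ * (2 * ρ)) h u (w i) f) ^ p) := by
        rw [Finset.mul_sum]
    _ ≤ Vi ^ p * (ENNReal.ofReal (C * (ℓ ^ (((d : ℝ) + 1) * (p - 1)) *
          (2 * ρ) ^ ((d : ℝ) * p - θ))) * sint ℓ h (fun z => f z ^ p)) :=
        mul_le_mul_right key _
    _ = _ := by
        rw [hVr, ← mul_assoc, ← ENNReal.ofReal_mul (by positivity)]
        congr 2
        rw [Real.mul_rpow (by norm_num : (0:ℝ) ≤ 2) hρ.le]
        ring

end Pool.Agent.NH42.HF
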