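import Pool.Agent.NH42.HF.Stm

/-!
# Project HF, piece HF-4: from families to cells
-/

set_option autoImplicit false

open MeasureTheory Set Metric
open scoped ENNReal

namespace Pool.Agent.NH42.HF

namespace CellAux

theorem iSup_rpow' {ι : Sort*} [Nonempty ι] (f : ι → ℝ≥0∞) {p : ℝ} (hp : 0 < p) :
    (⨆ i, f i) ^ p = ⨆ i, f i ^ p := by
  exact (ENNReal.orderIsoRpow p hp).map_iSup f

/-- A finite sum of suprema of independent variables. -/
theorem sum_iSup_le {ι α : Type*} [Nonempty α] (f : ι → α → ℝ≥0∞) (s : Finset ι) :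
    ∑ i ∈ s, ⨆ u, f i u ≤ ⨆ u : ι → α, ∑ i ∈ s, f i (u i) := by
  classical
  induction s using Finset.induction_on with
  | empty => simp
  | insert a s ha ih =>
    rw [Finset.sum_insert ha]
    refine le_trans (add_le_add_right ih _) ?_
    refine ENNReal.iSup_add_iSup_le ?_
    intro x v
    refine le_trans ?_ (le_iSup _ (Function.update v a x))
    rw [Finset.sum_insert ha]
    simp only [Function.update_self]
    refine add_le_add_right (le_of_eq ?_) _
    refine Finset.sum_congr rfl ?_
    intro i hi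
    have : i ≠ a := fun h => ha (h ▸ hi)
    rw [Function.update_of_ne this]

/-- Scaling, without measurability. -/
theorem lintegral_smul_scale {E : Type*} [NormedAddCommGroup E] [NormedSpace ℝ E]
    [MeasurableSpace E] [BorelSpace E] [FiniteDimensional ℝ E] (μ : Measure E)
    [μ.IsAddHaarMeasure] {a : ℝ} (ha : 0 < a) (F : E → ℝ≥0∞) :
    ∫⁻ x, F x ∂μ = ENNReal.ofReal (a ^ Module.finrank ℝ E) * ∫⁻ x, F (a • x) ∂μ := by
  have h1 : ∫⁻ x, F (a • x) ∂μ = ∫⁻ x, F x ∂(Measure.map (fun x : E => a • x) μ) := by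
    have := lintegral_map_equiv (μ := μ) F (Homeomorph.smulOfNeZero a ha.ne').toMeasurableEquiv
    exact this.symm
  have h2 := Measure.map_addHaar_smul μ ha.ne'
  rw [h1]
  have h3 : Measure.map (fun x : E => a • x) μ
      = ENNReal.ofReal |(a ^ Module.finrank ℝ E)⁻¹| • μ := h2
  rw [h3, lintegral_smul_measure, smul_eq_mul, ← mul_assoc, ← ENNReal.ofReal_mul (by positivity),
    abs_of_pos (by positivity), mul_inv_cancel₀ (by positivity)]
  simp

theorem slab_scale {ℓ : ℝ} (hℓ : 0 < ℓ) (h : ℝ) (H : ℝ → ℝ≥0∞) :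
    ∫⁻ t in Icc h (h + ℓ), H t
      = ENNReal.ofReal ℓ * ∫⁻ τ in Icc (0:ℝ) (0 + 1), H (h + ℓ * τ) := by
  rw [← lintegral_indicator measurableSet_Icc, ← lintegral_indicator measurableSet_Icc]
  rw [← lintegral_add_left_eq_self _ h]
  rw [lintegral_smul_scale volume hℓ]
  simp only [Module.finrank_self, pow_one]
  congr 1
  refine lintegral_congr ?_
  intro τ
  simp only [smul_eq_mul, indicator]
  have : (h + ℓ * τ ∈ Icc h (h + ℓ)) ↔ (τ ∈ Icc (0:ℝ) (0 + 1)) := by
    simp only [mem_Icc]
    constructor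
    · rintro ⟨h1, h2⟩
      constructor
      · by_contra hc
        push Not at hc
        nlinarith
      · by_contra hc
        push Not at hc
        nlinarith
    · rintro ⟨h1, h2⟩
      constructor
      · nlinarith
      · nlinarith
  by_cases h1 : τ ∈ Icc (0:ℝ) (0 + 1)
  · rw [if_pos h1, if_pos (this.2 h1)]
  · rw [if_neg h1, if_neg (fun h2 => h1 (this.1 h2))]

theorem ball_scale {d : ℕ} {a : ℝ} (ha : 0 < a) (c : V d) (R : ℝ) (F : V d → ℝ≥0∞) :
    ∫⁻ y in closedBall (a • c) (a * R), F y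
      = ENNReal.ofReal (a ^ d) * ∫⁻ y in closedBall c R, F (a • y) := by
  rw [← lintegral_indicator measurableSet_closedBall,
    ← lintegral_indicator measurableSet_closedBall, lintegral_smul_scale volume ha]
  simp only [finrank_euclideanSpace, Fintype.card_fin]
  congr 1
  refine lintegral_congr ?_
  intro y
  simp only [indicator]
  have : (a • y ∈ closedBall (a • c) (a * R)) ↔ (y ∈ closedBall c R) := by
    rw [mem_closedBall, mem_closedBall, dist_smul₀, Real.norm_of_nonneg ha.le]
    exact mul_le_mul_iff_right₀ ha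
  by_cases h1 : y ∈ closedBall c R
  · rw [if_pos h1, if_pos (this.2 h1)]
  · rw [if_neg h1, if_neg (fun h2 => h1 (this.1 h2))]

end CellAux

open CellAux

theorem cell : S_cell := by
  intro d p θ hp hFam
  obtain ⟨C0, hC0, hF⟩ := hFam
  have hp0 : (0:ℝ) < p := by linarith
  refine ⟨2 ^ d * C0 * ((2 ^ d : ℝ) ^ (p - 1)), by positivity, ?_⟩
  intro ℓ ρ h hℓ hρ hρ1 ι _ Q w hQm hQd hQw hw G hG
  -- the rescaled function
  set G' : V d × ℝ → ℝ≥0∞ := fun z => G ((2 * ℓ) • z.1, h + ℓ * z.2) with hG'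
  have hG'm : Measurable G' := by
    refine hG.comp ?_
    refine Measurable.prodMk ?_ ?_
    · exact (measurable_fst (α := V d) (β := ℝ)).const_smul (2 * ℓ)
    · exact ((measurable_snd (α := V d) (β := ℝ)).const_mul _).const_add _
  set G'' : V d × ℝ → ℝ≥0∞ := fun z => (Icc (0:ℝ) (0 + 1)).indicator (fun t => G' (z.1, t)) z.2
    with hG''
  have hG''eq : G'' = (Prod.snd ⁻¹' (Icc (0:ℝ) (0 + 1))).indicator G' := by
    funext z
    rcases z with ⟨y, t⟩
    simp only [hG'', indicator, mem_preimage]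
  have hG''m : Measurable G'' := by
    rw [hG''eq]
    exact hG'm.indicator (measurable_snd measurableSet_Icc)
  have h2ℓ : (0:ℝ) < 2 * ℓ := by linarith
  set a : ℝ := ℓ * (2 * ℓ) ^ d with ha
  have ha0 : 0 < a := by positivity
  have hA : ENNReal.ofReal a = ENNReal.ofReal ℓ * ENNReal.ofReal ((2 * ℓ) ^ d) := by
    rw [ha, ENNReal.ofReal_mul hℓ.le]
  -- the integral over the slab
  have hsint : sint ℓ h (fun z => G z ^ p) = ENNReal.ofReal a * ∫⁻ z, G'' z ^ p := by
    have h1 : ∫⁻ z, G'' z ^ p = ∫⁻ t in Icc (0:ℝ) (0 + 1), ∫⁻ y, G' (y, t) ^ p := by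
      rw [Measure.volume_eq_prod, lintegral_prod_symm _ (hG''m.pow_const p).aemeasurable,
        ← lintegral_indicator measurableSet_Icc]
      refine lintegral_congr ?_
      intro t
      simp only [hG'', indicator]
      by_cases ht : t ∈ Icc (0:ℝ) (0 + 1)
      · simp only [if_pos ht]
      · simp only [if_neg ht, ENNReal.zero_rpow_of_pos hp0, lintegral_zero]
    rw [h1]
    unfold sint
    rw [slab_scale hℓ h, hA, mul_assoc]
    congr 1
    rw [← lintegral_const_mul' _ _ ENNReal.ofReal_ne_top]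
    refine lintegral_congr ?_
    intro t
    simp only
    rw [lintegral_smul_scale volume h2ℓ]
    simp only [finrank_euclideanSpace, Fintype.card_fin, hG']
  -- one choice of the positions
  have key : ∀ u : ι → V d, ∑ i, volume (Q i) * tint ℓ (ℓ * ρ) h (u i) (w i) G ^ p ≤
      ENNReal.ofReal (2 ^ d * C0 * ((2 ^ d : ℝ) ^ (p - 1)) *
        (ℓ ^ (((d : ℝ) + 1) * (p - 1)) * ρ ^ ((d : ℝ) * p - θ))) *
        sint ℓ h (fun z => G z ^ p) := by
    intro u
    set u' : ι → V d := fun i => (2 * ℓ)⁻¹ • (u i + h • w i) with hu'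
    set T : ι → ℝ≥0∞ := fun i => ∫⁻ τ in Icc (0:ℝ) (0 + 1),
      ∫⁻ y in closedBall (u' i + τ • ((1 / 2 : ℝ) • w i)) (ρ / 2), G' (y, τ) with hT
    have htint : ∀ i, tint ℓ (ℓ * ρ) h (u i) (w i) G = ENNReal.ofReal a * T i := by
      intro i
      unfold tint
      rw [slab_scale hℓ h, hA, mul_assoc]
      congr 1
      simp only [hT]
      rw [← lintegral_const_mul' _ _ ENNReal.ofReal_ne_top]
      refine lintegral_congr ?_
      intro τ
      rw [← ball_scale h2ℓ (u' i + τ • ((1 / 2 : ℝ) • w i)) (ρ / 2)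
        (fun y => G (y, h + ℓ * τ))]
      have e1 : (2 * ℓ) • (u' i + τ • ((1 / 2 : ℝ) • w i)) = u i + (h + ℓ * τ) • w i := by
        simp only [hu']
        rw [smul_add, smul_smul, mul_inv_cancel₀ h2ℓ.ne', one_smul, smul_smul, smul_smul,
          add_smul, add_assoc]
        congr 3
        ring
      have e2 : 2 * ℓ * (ρ / 2) = ℓ * ρ := by ring
      rw [e1, e2]
    set Qh : ι → Set (V d) := fun i => (fun v : V d => (2 : ℝ) • v) ⁻¹' Q i with hQh
    have hQhm : ∀ i, MeasurableSet (Qh i) := fun i =>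
      (measurable_const_smul (2:ℝ)) (hQm i)
    have hQhd : Pairwise (Function.onFun Disjoint Qh) := by
      intro i j hij
      exact (hQd hij).preimage _
    have hvol : ∀ i, volume (Q i) = ENNReal.ofReal (2 ^ d) * volume (Qh i) := by
      intro i
      have := Measure.addHaar_preimage_smul (volume : Measure (V d)) (two_ne_zero (α := ℝ)) (Q i)
      simp only [hQh]
      rw [this, ← mul_assoc, ← ENNReal.ofReal_mul (by positivity)]
      simp only [finrank_euclideanSpace, Fintype.card_fin]
      rw [abs_of_pos (by positivity), mul_inv_cancel₀ (by positivity)]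
      simp
    set b : V d → V d := fun v => ∑ i, (Qh i).indicator (fun _ => u' i) v with hb
    have hbm : Measurable b := by
      refine Finset.measurable_sum _ ?_
      intro i _
      exact measurable_const.indicator (hQhm i)
    have hbv : ∀ i, ∀ v ∈ Qh i, b v = u' i := by
      intro i v hv
      simp only [hb]
      rw [Finset.sum_eq_single i]
      · exact indicator_of_mem hv _
      · intro j _ hj
        refine indicator_of_notMem ?_ _
        intro hvj
        exact (disjoint_left.1 (hQhd hj)) hvj hv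
      · intro hi
        exact absurd (Finset.mem_univ i) hi
    have hTle : ∀ i, ∀ v ∈ Qh i, T i ≤ tint 1 ρ 0 (b v) v G'' := by
      intro i v hv
      rw [hbv i v hv]
      simp only [hT]
      unfold tint
      refine setLIntegral_mono' measurableSet_Icc ?_
      intro τ hτ
      have hτ0 : 0 ≤ τ := hτ.1
      have hτ1 : τ ≤ 1 := by
        have := hτ.2
        linarith
      have hsub : closedBall (u' i + τ • ((1 / 2 : ℝ) • w i)) (ρ / 2)
          ⊆ closedBall (u' i + τ • v) ρ := by
        refine closedBall_subset_closedBall' ?_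
        rw [dist_add_left, dist_smul₀, Real.norm_of_nonneg hτ0]
        have h1 : dist ((1 / 2 : ℝ) • w i) v ≤ ρ / 2 := by
          have h2 := hQw i _ hv
          have h3 : (1 / 2 : ℝ) • w i - v = -((1 / 2 : ℝ) • ((2 : ℝ) • v - w i)) := by
            rw [smul_sub, smul_smul]
            norm_num
          rw [dist_eq_norm, h3, norm_neg, norm_smul, Real.norm_of_nonneg (by norm_num)]
          linarith
        have h4 : τ * dist ((1 / 2 : ℝ) • w i) v ≤ 1 * (ρ / 2) :=
          mul_le_mul hτ1 h1 dist_nonneg (by norm_num)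
        linarith
      refine le_trans (lintegral_mono_set hsub) ?_
      refine le_of_eq ?_
      refine lintegral_congr ?_
      intro y
      simp only [hG'', indicator]
      rw [if_pos hτ]
    have hsub1 : (⋃ i, Qh i) ⊆ closedBall (0 : V d) 1 := by
      refine iUnion_subset ?_
      intro i v hv
      rw [mem_closedBall_zero_iff]
      have h2 := hQw i _ hv
      have h3 := hw i
      have h4 : ‖(2:ℝ) • v‖ ≤ ρ + 1 := by
        calc ‖(2:ℝ) • v‖ = ‖((2:ℝ) • v - w i) + w i‖ := by congr 1; abel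
          _ ≤ ‖(2:ℝ) • v - w i‖ + ‖w i‖ := norm_add_le _ _
          _ ≤ ρ + 1 := add_le_add h2 h3
      rw [norm_smul, Real.norm_of_nonneg (by norm_num)] at h4
      linarith
    have hsum : ∑ i, volume (Qh i) * T i ^ p ≤
        ENNReal.ofReal (C0 * ρ ^ ((d : ℝ) * p - θ)) * ∫⁻ z, G'' z ^ p := by
      calc ∑ i, volume (Qh i) * T i ^ p
          ≤ ∑ i, ∫⁻ v in Qh i, tint 1 ρ 0 (b v) v G'' ^ p := by
            refine Finset.sum_le_sum ?_
            intro i _
            calc volume (Qh i) * T i ^ p = ∫⁻ v in Qh i, T i ^ p := by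
                  rw [setLIntegral_const, mul_comm]
              _ ≤ ∫⁻ v in Qh i, tint 1 ρ 0 (b v) v G'' ^ p := by
                  refine setLIntegral_mono' (hQhm i) ?_
                  intro v hv
                  exact ENNReal.rpow_le_rpow (hTle i v hv) hp0.le
        _ = ∫⁻ v in ⋃ i, Qh i, tint 1 ρ 0 (b v) v G'' ^ p := by
            rw [lintegral_iUnion hQhm hQhd, tsum_fintype]
        _ ≤ ∫⁻ v in closedBall (0 : V d) 1, tint 1 ρ 0 (b v) v G'' ^ p :=
            lintegral_mono_set hsub1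
        _ ≤ _ := hF ρ hρ (by linarith) b hbm G'' hG''m
    have hconst : ENNReal.ofReal (2 ^ d) * ENNReal.ofReal a ^ p *
        ENNReal.ofReal (C0 * ρ ^ ((d : ℝ) * p - θ)) =
        ENNReal.ofReal (2 ^ d * C0 * ((2 ^ d : ℝ) ^ (p - 1)) *
        (ℓ ^ (((d : ℝ) + 1) * (p - 1)) * ρ ^ ((d : ℝ) * p - θ))) * ENNReal.ofReal a := by
      rw [ENNReal.ofReal_rpow_of_pos ha0, ← ENNReal.ofReal_mul (by positivity),
        ← ENNReal.ofReal_mul (by positivity), ← ENNReal.ofReal_mul (by positivity)]
      congr 1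
      have e1 : a ^ p = a ^ (p - 1) * a := by
        rw [← Real.rpow_add_one ha0.ne']
        congr 1
        ring
      have e2 : a ^ (p - 1) = (2 ^ d : ℝ) ^ (p - 1) * ℓ ^ (((d : ℝ) + 1) * (p - 1)) := by
        have h1 : a = 2 ^ d * ℓ ^ ((d : ℝ) + 1) := by
          rw [ha, mul_pow]
          have : ℓ ^ ((d : ℝ) + 1) = ℓ ^ d * ℓ := by
            rw [Real.rpow_add_one hℓ.ne', Real.rpow_natCast]
          rw [this]
          ring
        rw [h1, Real.mul_rpow (by positivity) (by positivity), ← Real.rpow_mul hℓ.le]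
      rw [e1, e2]
      ring
    calc ∑ i, volume (Q i) * tint ℓ (ℓ * ρ) h (u i) (w i) G ^ p
        = ENNReal.ofReal (2 ^ d) * ENNReal.ofReal a ^ p * ∑ i, volume (Qh i) * T i ^ p := by
          rw [Finset.mul_sum]
          refine Finset.sum_congr rfl ?_
          intro i _
          rw [htint i, hvol i, ENNReal.mul_rpow_of_nonneg _ _ hp0.le]
          ring
      _ ≤ ENNReal.ofReal (2 ^ d) * ENNReal.ofReal a ^ p *
          (ENNReal.ofReal (C0 * ρ ^ ((d : ℝ) * p - θ)) * ∫⁻ z, G'' z ^ p) := by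
          gcongr
      _ = _ := by
          rw [hsint, ← mul_assoc, hconst, mul_assoc]
  -- the suprema
  calc ∑ i, volume (Q i) * (⨆ u : V d, tint ℓ (ℓ * ρ) h u (w i) G) ^ p
      = ∑ i, ⨆ u : V d, volume (Q i) * tint ℓ (ℓ * ρ) h u (w i) G ^ p := by
        refine Finset.sum_congr rfl ?_
        intro i _
        rw [iSup_rpow' _ hp0, ENNReal.mul_iSup]
    _ ≤ ⨆ u : ι → V d, ∑ i, volume (Q i) * tint ℓ (ℓ * ρ) h (u i) (w i) G ^ p :=
        sum_iSup_le _ _
    _ ≤ _ := iSup_le key

end Pool.Agent.NH42.HF
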