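import Pool.Agent.NH42.HF.Stm

/-!
# Project HF, piece HF-10 (helper49): slabs cover, number of slabs near degenerate heights
-/

set_option autoImplicit false

open MeasureTheory Set Metric
open scoped ENNReal

namespace Pool.Agent.NH42.HF

theorem cc_len (k : ℕ) : (1 : ℝ) / 2 ^ k / 8 = 1 / (8 * 2 ^ k) := by
  rw [div_div, mul_comm]

theorem cc_slab (k : ℕ) (j : ℤ) (t : ℝ) :
    t ∈ Slab k j ↔ (j : ℝ) ≤ t * (8 * 2 ^ k) ∧ t * (8 * 2 ^ k) ≤ j + 1 := by
  unfold Slab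
  rw [mem_Icc, cc_len]
  have h : (0 : ℝ) < 8 * 2 ^ k := by positivity
  constructor
  · rintro ⟨h1, h2⟩
    constructor
    · have h3 := mul_le_mul_of_nonneg_right h1 h.le
      have h4 : (j : ℝ) * (1 / (8 * 2 ^ k)) * (8 * 2 ^ k) = j := by field_simp
      linarith
    · have h3 := mul_le_mul_of_nonneg_right h2 h.le
      have h4 : ((j : ℝ) * (1 / (8 * 2 ^ k)) + 1 / (8 * 2 ^ k)) * (8 * 2 ^ k) = j + 1 := by
        field_simp
      linarith
  · rintro ⟨h1, h2⟩
    constructor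
    · rw [mul_one_div, div_le_iff₀ h]
      exact h1
    · rw [mul_one_div, ← add_div, le_div_iff₀ h]
      exact h2

theorem cc_exists (a k : ℕ) (t : ℝ) (ht : t ∈ Icc (-(2 : ℝ) ^ a) (2 ^ a)) :
    ∃ j ∈ Zs a k, t ∈ Slab k j := by
  obtain ⟨h1, h2⟩ := ht
  have hpos : (0 : ℝ) < 8 * 2 ^ k := by positivity
  set u : ℝ := t * (8 * 2 ^ k) with hu
  have hu1 : -(8 * 2 ^ (a + k) : ℝ) ≤ u := by
    have := mul_le_mul_of_nonneg_right h1 hpos.le
    calc -(8 * 2 ^ (a + k) : ℝ) = -(2 : ℝ) ^ a * (8 * 2 ^ k) := by rw [pow_add]; ring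
      _ ≤ u := this
  have hu2 : u ≤ (8 * 2 ^ (a + k) : ℝ) := by
    have := mul_le_mul_of_nonneg_right h2 hpos.le
    calc u ≤ (2 : ℝ) ^ a * (8 * 2 ^ k) := this
      _ = 8 * 2 ^ (a + k) := by rw [pow_add]; ring
  have hf1 : -(8 * 2 ^ (a + k) : ℤ) ≤ ⌊u⌋ := by
    rw [Int.le_floor]
    push_cast
    exact hu1
  have hpz : (0 : ℤ) < 2 ^ (a + k) := by positivity
  rcases lt_or_ge ⌊u⌋ (8 * 2 ^ (a + k)) with h | h
  · refine ⟨⌊u⌋, ?_, ?_⟩
    · unfold Zs
      rw [Finset.mem_Ico]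
      exact ⟨hf1, h⟩
    · rw [cc_slab]
      exact ⟨Int.floor_le u, (Int.lt_floor_add_one u).le⟩
  · refine ⟨8 * 2 ^ (a + k) - 1, ?_, ?_⟩
    · unfold Zs
      rw [Finset.mem_Ico]
      constructor <;> omega
    · rw [cc_slab]
      have h3 : ((8 * 2 ^ (a + k) : ℤ) : ℝ) ≤ u := Int.le_floor.1 h
      push_cast at h3 ⊢
      constructor
      · linarith
      · linarith

theorem cc_mono {d : ℕ} {L : V d →L[ℝ] V d} {s s' t : ℝ} (h : s' ≤ s) (hN : Nd s t L) :
    Nd s' t L := fun x => (mul_le_mul_of_nonneg_right h (norm_nonneg x)).trans (hN x)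

theorem cc_biUnion_le {β : Type} (s : Finset β) (T : β → Set ℝ) (f : ℝ → ℝ≥0∞) :
    ∫⁻ t in ⋃ b ∈ s, T b, f t ≤ ∑ b ∈ s, ∫⁻ t in T b, f t := by
  classical
  induction s using Finset.induction_on with
  | empty => simp
  | insert b s hb ih =>
    rw [Finset.set_biUnion_insert, Finset.sum_insert hb]
    exact (lintegral_union_le _ _ _).trans (add_le_add le_rfl ih)

/-- HF-10a: the slabs cover (the statement `S_cover` of `Stm.lean` with the intended parentheses:
there the second sum is inside the integrals of the first one). -/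
def S_cover1 : Prop := ∀ (d a K : ℕ) (L : V d →L[ℝ] V d) (φ : ℝ → ℝ≥0∞),
  ∃ (P : ℕ → Finset ℤ) (P' : Finset ℤ),
    (∀ k ≤ K, ∀ j ∈ P k, j ∈ Zs a k ∧ Gd L k j ∧ (k ≠ 0 → Nr L k j)) ∧
    (∀ j ∈ P', j ∈ Zs a K ∧ Nr L K j) ∧
    ∫⁻ t in Icc (-(2 : ℝ) ^ a) (2 ^ a), φ t ≤
      (∑ k ∈ Finset.range (K + 1), ∑ j ∈ P k, (∫⁻ t in Slab k j, φ t)) +
        (∑ j ∈ P', (∫⁻ t in Slab K j, φ t))

open Classical in
theorem cover1 : S_cover1 := by
  intro d a K L φ
  refine ⟨fun k => (Zs a k).filter (fun j => Gd L k j ∧ (k ≠ 0 → Nr L k j)),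
    (Zs a K).filter (fun j => Nr L K j), ?_, ?_, ?_⟩
  · intro k _ j hj
    obtain ⟨h1, h2, h3⟩ := Finset.mem_filter.1 hj
    exact ⟨h1, h2, h3⟩
  · intro j hj
    exact Finset.mem_filter.1 hj
  · have hcov : Icc (-(2 : ℝ) ^ a) (2 ^ a) ⊆
        (⋃ k ∈ Finset.range (K + 1),
          ⋃ j ∈ (Zs a k).filter (fun j => Gd L k j ∧ (k ≠ 0 → Nr L k j)), Slab k j) ∪
        ⋃ j ∈ (Zs a K).filter (fun j => Nr L K j), Slab K j := by
      intro t ht
      by_cases hex : ∃ k, k ≤ K ∧ Nd (1 / 2 ^ k) t L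
      · left
        have hspec := Nat.find_spec hex
        have hmin := fun m => @Nat.find_min _ _ hex m
        set k := Nat.find hex with hk
        obtain ⟨j, hj, hjt⟩ := cc_exists a k t ht
        simp only [mem_iUnion, Finset.mem_range, Finset.mem_filter, exists_prop]
        refine ⟨k, by omega, j, ⟨hj, ⟨t, hjt, hspec.2⟩, fun hk0 => ⟨t, hjt, ?_⟩⟩, hjt⟩
        intro hN
        refine hmin (k - 1) (by omega) ⟨by omega, ?_⟩
        have e1 : (2 : ℝ) ^ k = 2 ^ (k - 1) * 2 := by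
          rw [← pow_succ]
          congr 1
          omega
        have e2 : (2 : ℝ) / 2 ^ k = 1 / 2 ^ (k - 1) := by
          rw [e1]
          field_simp
        rw [← e2]
        exact hN
      · right
        push Not at hex
        obtain ⟨j, hj, hjt⟩ := cc_exists a K t ht
        simp only [mem_iUnion, Finset.mem_filter, exists_prop]
        refine ⟨j, ⟨hj, t, hjt, fun hN => hex K le_rfl (cc_mono ?_ hN)⟩, hjt⟩
        gcongr
        norm_num
    refine (lintegral_mono_set hcov).trans ((lintegral_union_le _ _ _).trans ?_)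
    refine add_le_add ?_ (cc_biUnion_le _ _ _)
    refine (cc_biUnion_le _ _ _).trans (Finset.sum_le_sum fun k _ => ?_)
    exact cc_biUnion_le _ _ _

theorem cc_card_Zs (a k : ℕ) : ((Zs a k).card : ℝ) = 16 * 2 ^ a * 2 ^ k := by
  unfold Zs
  rw [Int.card_Ico]
  have h : (8 * 2 ^ (a + k) - -(8 * 2 ^ (a + k)) : ℤ) = ((16 * 2 ^ a * 2 ^ k : ℕ) : ℤ) := by
    push_cast
    ring
  rw [h, Int.toNat_natCast]
  push_cast
  ring

theorem count : S_count := by
  intro d m a γ c hγ hc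
  set W : ℝ := (2 / c) ^ (1 / γ) with hW
  have hW0 : 0 < W := by positivity
  refine ⟨m * (16 * W + 3) + 16 * 2 ^ a * (1 + 2 / c), by positivity, ?_⟩
  intro L Λ hΛ hL k P hP
  have hγ0 : 0 < γ := by linarith
  have hex : 0 ≤ 1 - 1 / γ := by
    rw [sub_nonneg, div_le_one hγ0]
    exact hγ
  have h2k : (1 : ℝ) ≤ 2 ^ k := one_le_pow₀ (by norm_num)
  have hq : 1 ≤ ((2 : ℝ) ^ k) ^ (1 - 1 / γ) := Real.one_le_rpow h2k hex
  set q : ℝ := ((2 : ℝ) ^ k) ^ (1 - 1 / γ) with hqd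
  by_cases hcase : k = 0 ∨ (2 : ℝ) ^ k < 2 / c
  · -- few slabs altogether
    have h1 : (P.card : ℝ) ≤ ((Zs a k).card : ℝ) := by
      exact_mod_cast Finset.card_le_card fun j hj => (hP j hj).1
    rw [cc_card_Zs] at h1
    have h2 : (2 : ℝ) ^ k ≤ 1 + 2 / c := by
      rcases hcase with h | h
      · subst h
        have : 0 < 2 / c := by positivity
        simp only [pow_zero]
        linarith
      · linarith
    have h3 : (16 : ℝ) * 2 ^ a * 2 ^ k ≤ 16 * 2 ^ a * (1 + 2 / c) := by gcongr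
    have h4 : 0 ≤ (m : ℝ) * (16 * W + 3) := by positivity
    have h5 : 0 ≤ (16 : ℝ) * 2 ^ a * (1 + 2 / c) := by positivity
    nlinarith
  · push Not at hcase
    obtain ⟨hk0, hkc⟩ := hcase
    set R : ℝ := (2 / (c * 2 ^ k)) ^ (1 / γ) with hR
    have hR0 : 0 < R := by positivity
    have hlen : (0 : ℝ) < 8 * 2 ^ k := by positivity
    -- the position of the slabs
    have hsub : P ⊆ Λ.biUnion fun l =>
        Finset.Icc ⌈(l - R) * (8 * 2 ^ k) - 1⌉ ⌊(l + R) * (8 * 2 ^ k)⌋ := by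
      intro j hj
      obtain ⟨t, htj, hN⟩ := (hP j hj).2 hk0
      unfold Nd at hN
      push Not at hN
      obtain ⟨x, hx⟩ := hN
      obtain ⟨l, hl, hlx⟩ := hL t
      have h1 := (hlx x).trans_lt hx
      have hx0 : 0 < ‖x‖ := by
        rcases (norm_nonneg x).eq_or_lt with h | h
        · rw [← h] at hx
          simp at hx
          exact absurd hx (not_lt.2 (norm_nonneg _))
        · exact h
      have h2 : c * min 1 |t - l| ^ γ < 2 / 2 ^ k := lt_of_mul_lt_mul_right h1 hx0.le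
      have h3 : (2 : ℝ) / 2 ^ k ≤ c := by
        rw [div_le_iff₀ hc] at hkc
        rw [div_le_iff₀ (by positivity)]
        linarith
      have hm0 : 0 ≤ min 1 |t - l| := le_min zero_le_one (abs_nonneg _)
      have h4 : min 1 |t - l| < 1 := by
        by_contra h
        push Not at h
        have h5 : 1 ≤ min 1 |t - l| ^ γ := Real.one_le_rpow h hγ0.le
        nlinarith
      have h5 : min 1 |t - l| = |t - l| := by
        rcases min_choice 1 |t - l| with h | h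
        · rw [h] at h4
          exact absurd h4 (lt_irrefl _)
        · exact h
      rw [h5] at h2
      have h6 : |t - l| ^ γ < 2 / (c * 2 ^ k) := by
        rw [lt_div_iff₀ (by positivity)]
        rw [lt_div_iff₀ (by positivity)] at h2
        linarith
      have h7 : |t - l| < R := by
        have h8 := Real.rpow_lt_rpow (Real.rpow_nonneg (abs_nonneg _) _) h6
          (by positivity : 0 < 1 / γ)
        rwa [← Real.rpow_mul (abs_nonneg _), mul_one_div_cancel hγ0.ne', Real.rpow_one] at h8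
      obtain ⟨h8, h9⟩ := abs_lt.1 h7
      obtain ⟨h10, h11⟩ := (cc_slab k j t).1 htj
      rw [Finset.mem_biUnion]
      refine ⟨l, hl, ?_⟩
      rw [Finset.mem_Icc]
      constructor
      · rw [Int.ceil_le]
        have : (l - R) * (8 * 2 ^ k) ≤ t * (8 * 2 ^ k) :=
          mul_le_mul_of_nonneg_right (by linarith) hlen.le
        linarith
      · rw [Int.le_floor]
        have : t * (8 * 2 ^ k) ≤ (l + R) * (8 * 2 ^ k) :=
          mul_le_mul_of_nonneg_right (by linarith) hlen.le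
        linarith
    have hcard : ∀ l ∈ Λ, (((Finset.Icc ⌈(l - R) * (8 * 2 ^ k) - 1⌉
        ⌊(l + R) * (8 * 2 ^ k)⌋).card : ℕ) : ℝ) ≤ 2 * R * (8 * 2 ^ k) + 3 := by
      intro l _
      rw [Int.card_Icc]
      have h1 : (((⌊(l + R) * (8 * 2 ^ k)⌋ + 1 - ⌈(l - R) * (8 * 2 ^ k) - 1⌉).toNat : ℕ) : ℝ) =
          max ((⌊(l + R) * (8 * 2 ^ k)⌋ : ℝ) + 1 - ⌈(l - R) * (8 * 2 ^ k) - 1⌉) 0 := by
        have h2 := Int.toNat_eq_max (⌊(l + R) * (8 * 2 ^ k)⌋ + 1 - ⌈(l - R) * (8 * 2 ^ k) - 1⌉)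
        have h3 : ((((⌊(l + R) * (8 * 2 ^ k)⌋ + 1 -
            ⌈(l - R) * (8 * 2 ^ k) - 1⌉).toNat : ℕ) : ℤ) : ℝ) =
            ((max (⌊(l + R) * (8 * 2 ^ k)⌋ + 1 - ⌈(l - R) * (8 * 2 ^ k) - 1⌉) 0 : ℤ) : ℝ) := by
          rw [h2]
        push_cast at h3
        exact h3
      rw [h1]
      apply max_le
      · have h2 := Int.floor_le ((l + R) * (8 * 2 ^ k))
        have h3 := Int.le_ceil ((l - R) * (8 * 2 ^ k) - 1)
        nlinarith
      · positivity
    have h1 : (P.card : ℝ) ≤ m * (2 * R * (8 * 2 ^ k) + 3) := by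
      have e1 : P.card ≤ ∑ l ∈ Λ, (Finset.Icc ⌈(l - R) * (8 * 2 ^ k) - 1⌉
          ⌊(l + R) * (8 * 2 ^ k)⌋).card :=
        (Finset.card_le_card hsub).trans Finset.card_biUnion_le
      have e2 : (P.card : ℝ) ≤ ∑ l ∈ Λ, (((Finset.Icc ⌈(l - R) * (8 * 2 ^ k) - 1⌉
          ⌊(l + R) * (8 * 2 ^ k)⌋).card : ℕ) : ℝ) := by exact_mod_cast e1
      refine e2.trans ((Finset.sum_le_sum hcard).trans ?_)
      rw [Finset.sum_const, nsmul_eq_mul]
      have e3 : (Λ.card : ℝ) ≤ m := by exact_mod_cast hΛ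
      exact mul_le_mul_of_nonneg_right e3 (by positivity)
    have h2 : R * 2 ^ k = W * q := by
      rw [hR, hW, hqd]
      have e1 : (2 : ℝ) / (c * 2 ^ k) = 2 / c * (2 ^ k)⁻¹ := by
        field_simp
      rw [e1, Real.mul_rpow (by positivity) (by positivity), Real.inv_rpow (by positivity),
        Real.rpow_sub (by positivity), Real.rpow_one]
      field_simp
    have h3 : 2 * R * (8 * 2 ^ k) + 3 ≤ (16 * W + 3) * q := by
      have : 2 * R * (8 * 2 ^ k) = 16 * (R * 2 ^ k) := by ring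
      rw [this, h2]
      nlinarith
    have h4 : (m : ℝ) * (2 * R * (8 * 2 ^ k) + 3) ≤ m * ((16 * W + 3) * q) := by gcongr
    have h5 : 0 ≤ (16 : ℝ) * 2 ^ a * (1 + 2 / c) * q := by positivity
    calc (P.card : ℝ) ≤ m * ((16 * W + 3) * q) := h1.trans h4
      _ ≤ m * ((16 * W + 3) * q) + 16 * 2 ^ a * (1 + 2 / c) * q := by linarith
      _ = (m * (16 * W + 3) + 16 * 2 ^ a * (1 + 2 / c)) * q := by ring

end Pool.Agent.NH42.HF
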