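import Pool.Agent.NH42.HF.Stm2
import Pool.Agent.H742R2.Kk.Sphere
import Pool.Agent.H742R2.Kk.Coord

/-!
# HF-1: from the Kakeya maximal estimate on the sphere to families of tubes
-/

set_option autoImplicit false

open MeasureTheory Set Metric
open scoped ENNReal

namespace Pool.Agent.NH42.HF

open Pool.Agent.H742R2.Kk (ins tl ins_apply_zero ins_apply_succ ins_eta tl_ins inner_ins
  measurable_ins measurable_apply measurable_tl ins_add ins_smul measurePreserving_ins
  lintegral_ins)

/-- Upper bound for the volume of a cylinder. -/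
theorem fk_vol68 (d : ℕ) (δ : ℝ) (e a : V (d + 1)) (hδ : 0 < δ) (he : ‖e‖ = 1) :
    volume (cyl δ a e) ≤ ENNReal.ofReal ((2 * δ) ^ d) := by
  have hon : Orthonormal ℝ (({0} : Set (Fin (d + 1))).domRestrict (fun _ => e)) := by
    rw [orthonormal_iff_ite]
    rintro ⟨i, hi⟩ ⟨j, hj⟩
    simp only [mem_singleton_iff] at hi hj
    subst hi; subst hj
    change (inner ℝ e e : ℝ) = _
    rw [real_inner_self_eq_norm_sq, he]
    simp
  obtain ⟨b, hb⟩ := hon.exists_orthonormalBasis_extension_of_card_eq (by simp)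
  have hb0 : b 0 = e := hb 0 rfl
  set r : Fin (d + 1) → ℝ := Fin.cons (1 / 2) (fun _ => δ) with hr
  set B : Set (Fin (d + 1) → ℝ) := Set.pi univ (fun i => Icc (-(r i)) (r i)) with hB
  have hBm : MeasurableSet B := MeasurableSet.univ_pi (fun i => measurableSet_Icc)
  have hvolB : volume B = ENNReal.ofReal ((2 * δ) ^ d) := by
    rw [hB, volume_pi_pi]
    simp only [Real.volume_Icc]
    rw [Fin.prod_univ_succ]
    simp only [hr, Fin.cons_zero, Fin.cons_succ, Finset.prod_const, Finset.card_univ,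
      Fintype.card_fin]
    rw [← ENNReal.ofReal_pow (by linarith), ← ENNReal.ofReal_mul (by norm_num)]
    congr 1
    norm_num
    ring
  have hmp : MeasurePreserving (fun y : V (d + 1) => (b.repr (y - a)).ofLp) volume volume := by
    have h1 : MeasurePreserving (fun y : V (d + 1) => y - a) volume volume :=
      measurePreserving_sub_right volume a
    have h2 := b.measurePreserving_repr
    have h3 := PiLp.volume_preserving_ofLp (Fin (d + 1))
    exact h3.comp (h2.comp h1)
  rw [← hvolB, ← hmp.measure_preimage hBm.nullMeasurableSet]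
  apply measure_mono
  intro y hy
  obtain ⟨hy1, hy2⟩ := hy
  simp only [mem_preimage, hB, mem_univ_pi, mem_Icc]
  intro i
  refine Fin.cases ?_ (fun j => ?_) i
  · have hv0 : (inner ℝ (y - a) e : ℝ) = (b.repr (y - a)).ofLp 0 := by
      change _ = b.repr (y - a) 0
      rw [b.repr_apply_apply, hb0, real_inner_comm]
    rw [← hv0]
    have := abs_le.1 hy1
    simpa [hr] using this
  · have hvj : (b.repr (y - a)).ofLp j.succ
        = inner ℝ (b j.succ) ((y - a) - (inner ℝ (y - a) e : ℝ) • e) := by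
      have h0 : inner ℝ (b j.succ) (b 0) = (0 : ℝ) :=
        b.orthonormal.2 (i := j.succ) (j := 0) (Fin.succ_ne_zero j)
      rw [hb0] at h0
      rw [b.repr_apply_apply, inner_sub_right (b j.succ) (y - a), inner_smul_right, h0]
      ring
    rw [hvj]
    have h1 := abs_real_inner_le_norm (b j.succ) ((y - a) - (inner ℝ (y - a) e : ℝ) • e)
    rw [b.norm_eq_one, one_mul] at h1
    have := abs_le.1 (h1.trans hy2)
    simpa [hr] using this

/-- The unit vector in the direction `(1, v)`. -/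
noncomputable def fk_dir68 {d : ℕ} (v : V d) : V (d + 1) := (√(1 + ‖v‖ ^ 2))⁻¹ • ins 1 v

theorem fk_norm_ins68 {d : ℕ} (t : ℝ) (v : V d) : ‖(ins t v : V (d + 1))‖ ^ 2 = t ^ 2 + ‖v‖ ^ 2 := by
  rw [← real_inner_self_eq_norm_sq, inner_ins, real_inner_self_eq_norm_sq]
  ring

theorem fk_norm_dir68 {d : ℕ} (v : V d) : ‖fk_dir68 v‖ = 1 := by
  have hw : 0 < 1 + ‖v‖ ^ 2 := by positivity
  have hs : 0 < √(1 + ‖v‖ ^ 2) := Real.sqrt_pos.mpr hw
  have h1 : ‖(ins 1 v : V (d + 1))‖ = √(1 + ‖v‖ ^ 2) := by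
    have := fk_norm_ins68 1 v
    rw [one_pow] at this
    rw [← this, Real.sqrt_sq (norm_nonneg _)]
  rw [fk_dir68, norm_smul, h1, norm_inv, Real.norm_eq_abs, abs_of_pos hs,
    inv_mul_cancel₀ hs.ne']

theorem fk_dir_eq68 {d : ℕ} (x : V (d + 1)) (hx : ‖x‖ = 1) (h0 : 0 < x 0) :
    fk_dir68 ((x 0)⁻¹ • tl x) = x := by
  set v : V d := (x 0)⁻¹ • tl x with hv
  have he : x = x 0 • ins 1 v := by
    rw [← ins_smul, hv, smul_smul, mul_inv_cancel₀ h0.ne', one_smul, mul_one, ins_eta]
  have hsp : 0 < √(1 + ‖v‖ ^ 2) := Real.sqrt_pos.mpr (by positivity)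
  have hn : ‖(ins 1 v : V (d + 1))‖ = √(1 + ‖v‖ ^ 2) := by
    have := fk_norm_ins68 1 v
    rw [one_pow] at this
    rw [← this, Real.sqrt_sq (norm_nonneg _)]
  have h3 : x 0 * √(1 + ‖v‖ ^ 2) = 1 := by
    have h4 : ‖x‖ = x 0 * √(1 + ‖v‖ ^ 2) := by
      rw [← hn]
      conv_lhs => rw [he, norm_smul, Real.norm_eq_abs, abs_of_pos h0]
    rw [← h4, hx]
  have h5 : (√(1 + ‖v‖ ^ 2))⁻¹ = x 0 := by
    rw [eq_comm]; exact eq_inv_of_mul_eq_one_left h3
  rw [fk_dir68, h5]
  exact he.symm

theorem fk_geom68 {d : ℕ} {r : ℝ} (hr8 : r ≤ 1 / 8) (w v : V d) (hv : ‖v‖ ≤ 1)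
    (s t : ℝ) (y : V d) (ht : |t - s| ≤ 1 / 8) (hy : ‖y - (w + t • v)‖ ≤ r) :
    ins t y ∈ cyl r (ins s (w + s • v)) (fk_dir68 v) := by
  have hw : 0 < 1 + ‖v‖ ^ 2 := by positivity
  have hs : 0 < √(1 + ‖v‖ ^ 2) := Real.sqrt_pos.mpr hw
  have hs2 : √(1 + ‖v‖ ^ 2) ^ 2 = 1 + ‖v‖ ^ 2 := Real.sq_sqrt hw.le
  have hn := fk_norm_dir68 v
  set q : V d := y - (w + t • v) with hq
  have hdec : (ins t y : V (d + 1)) - ins s (w + s • v) = ins 0 q + (t - s) • ins 1 v := by
    have h1 : (ins t y : V (d + 1)) = ins s (w + s • v) + (ins 0 q + (t - s) • ins 1 v) := by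
      rw [← ins_smul, ← ins_add, ← ins_add]
      congr 1
      · ring
      · rw [hq, sub_smul]; abel
    rw [h1]; abel
  have hins : (ins 1 v : V (d + 1)) = √(1 + ‖v‖ ^ 2) • fk_dir68 v := by
    rw [fk_dir68, smul_smul, mul_inv_cancel₀ hs.ne', one_smul]
  set l := √(1 + ‖v‖ ^ 2) with hl
  set e := fk_dir68 v with he
  rw [hins, smul_smul] at hdec
  have hee : inner ℝ e e = (1 : ℝ) := by rw [real_inner_self_eq_norm_sq, hn]; norm_num
  have hin : inner ℝ ((ins t y : V (d + 1)) - ins s (w + s • v)) e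
      = inner ℝ (ins 0 q) e + (t - s) * l := by
    rw [hdec, inner_add_left, real_inner_smul_left, hee, mul_one]
  have hz0 : ‖(ins 0 q : V (d + 1))‖ = ‖q‖ := by
    have := fk_norm_ins68 0 q
    have h2 : ‖(ins 0 q : V (d + 1))‖ ^ 2 = ‖q‖ ^ 2 := by rw [this]; ring
    exact (pow_left_inj₀ (norm_nonneg _) (norm_nonneg _) two_ne_zero).1 h2
  have hl2 : l ≤ 3 / 2 := by
    have hv2 : ‖v‖ ^ 2 ≤ 1 := by nlinarith [norm_nonneg v]
    nlinarith
  refine ⟨?_, ?_⟩
  · rw [hin]
    have h1 := abs_real_inner_le_norm (ins 0 q) e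
    rw [hn, mul_one, hz0] at h1
    have h2 : |(t - s) * l| ≤ 1 / 8 * (3 / 2) := by
      rw [abs_mul, abs_of_pos hs]
      exact mul_le_mul ht hl2 hs.le (by norm_num)
    have h3 := abs_add_le (inner ℝ (ins 0 q) e) ((t - s) * l)
    linarith
  · rw [hin, hdec]
    have h1 : (ins 0 q : V (d + 1)) + ((t - s) * l) • e - (inner ℝ (ins 0 q) e + (t - s) * l) • e
        = ins 0 q - (inner ℝ (ins 0 q) e : ℝ) • e := by
      rw [add_smul]; abel
    rw [h1]
    have h2 : ‖(ins 0 q : V (d + 1)) - (inner ℝ (ins 0 q) e : ℝ) • e‖ ^ 2 ≤ ‖q‖ ^ 2 := by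
      rw [@norm_sub_sq_real, inner_smul_right, norm_smul, mul_pow, hn, hz0, Real.norm_eq_abs,
        sq_abs]
      nlinarith [sq_nonneg (inner ℝ (ins 0 q) e : ℝ)]
    exact (le_of_sq_le_sq h2 (norm_nonneg _)).trans hy

theorem fk_meas_cyl68 {n : ℕ} (δ : ℝ) (a e : V n) : MeasurableSet (cyl δ a e) := by
  have hc1 : Continuous (fun p : V n => |(inner ℝ (p - a) e : ℝ)|) := by fun_prop
  have hc2 : Continuous (fun p : V n => ‖(p - a) - (inner ℝ (p - a) e : ℝ) • e‖) := by fun_prop
  exact ((isClosed_le hc1 continuous_const).inter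
    (isClosed_le hc2 continuous_const)).measurableSet

/-- One piece of a tube is contained in a cylinder. -/
theorem fk_piece68 {d : ℕ} {r : ℝ} (hr8 : r ≤ 1 / 8) (w v : V d)
    (hv : ‖v‖ ≤ 1) (s : ℝ) {g : V d × ℝ → ℝ≥0∞} (hg : Measurable g) :
    ∫⁻ t in Icc (s - 1 / 8) (s + 1 / 8), ∫⁻ y in closedBall (w + t • v) r, g (y, t)
      ≤ ∫⁻ x in cyl r (ins s (w + s • v)) (fk_dir68 v), g (tl x, x 0) := by
  have hgt : Measurable (fun x : V (d + 1) => g (tl x, x 0)) :=
    hg.comp (measurable_tl.prodMk (measurable_apply 0))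
  rw [← lintegral_indicator (fk_meas_cyl68 _ _ _), lintegral_ins (hgt.indicator
    (fk_meas_cyl68 _ _ _)), ← lintegral_indicator measurableSet_Icc]
  apply lintegral_mono
  intro t
  by_cases ht : t ∈ Icc (s - 1 / 8) (s + 1 / 8)
  · rw [indicator_of_mem ht, ← lintegral_indicator measurableSet_closedBall]
    apply lintegral_mono
    intro y
    by_cases hy : y ∈ closedBall (w + t • v) r
    · rw [indicator_of_mem hy]
      have hmem : (ins t y : V (d + 1)) ∈ cyl r (ins s (w + s • v)) (fk_dir68 v) := by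
        apply fk_geom68 hr8 w v hv s t y
        · rw [abs_le]; constructor <;> linarith [ht.1, ht.2]
        · simpa [mem_closedBall, dist_eq_norm] using hy
      beta_reduce
      rw [indicator_of_mem hmem, tl_ins, ins_apply_zero]
    · rw [indicator_of_notMem hy]; exact zero_le
  · rw [indicator_of_notMem ht]; exact zero_le

theorem fk_point68 {d : ℕ} {r : ℝ} (hr : 0 < r) (hr8 : r ≤ 1 / 8) (w v : V d)
    (hv : ‖v‖ ≤ 1) {g : V d × ℝ → ℝ≥0∞} (hg : Measurable g) :
    tint 1 r 0 w v g ≤ ENNReal.ofReal (4 * (2 * r) ^ d) *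
      ⨆ a : V (d + 1), (volume (cyl r a (fk_dir68 v)))⁻¹ *
          ∫⁻ y in cyl r a (fk_dir68 v), g (tl y, y 0) := by
  set M := ⨆ a : V (d + 1), (volume (cyl r a (fk_dir68 v)))⁻¹ *
          ∫⁻ y in cyl r a (fk_dir68 v), g (tl y, y 0) with hM
  have hcyl : ∀ a : V (d + 1), ∫⁻ y in cyl r a (fk_dir68 v), g (tl y, y 0)
      ≤ ENNReal.ofReal ((2 * r) ^ d) * M := by
    intro a
    have hvol := fk_vol68 d r (fk_dir68 v) a hr (fk_norm_dir68 v)
    have h1 : (volume (cyl r a (fk_dir68 v)))⁻¹ *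
          ∫⁻ y in cyl r a (fk_dir68 v), g (tl y, y 0) ≤ M :=
      le_iSup (fun a : V (d + 1) => (volume (cyl r a (fk_dir68 v)))⁻¹ *
          ∫⁻ y in cyl r a (fk_dir68 v), g (tl y, y 0)) a
    rcases eq_or_ne (volume (cyl r a (fk_dir68 v))) 0 with h0 | h0
    · rw [Measure.restrict_eq_zero.2 h0]
      simp
    · have htop : volume (cyl r a (fk_dir68 v)) ≠ ⊤ :=
        (hvol.trans_lt ENNReal.ofReal_lt_top).ne
      calc ∫⁻ y in cyl r a (fk_dir68 v), g (tl y, y 0)
          = volume (cyl r a (fk_dir68 v)) * ((volume (cyl r a (fk_dir68 v)))⁻¹ *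
          ∫⁻ y in cyl r a (fk_dir68 v), g (tl y, y 0)) := by
            rw [← mul_assoc, ENNReal.mul_inv_cancel h0 htop, one_mul]
        _ ≤ _ := mul_le_mul' hvol h1
  have hpc : ∀ s : ℝ, ∫⁻ t in Icc (s - 1 / 8) (s + 1 / 8), ∫⁻ y in closedBall (w + t • v) r, g (y, t)
      ≤ ENNReal.ofReal ((2 * r) ^ d) * M := fun s =>
    (fk_piece68 hr8 w v hv s hg).trans (hcyl _)
  have hsub : Icc (0 : ℝ) (0 + 1) ⊆ (Icc (1 / 8 - 1 / 8 : ℝ) (1 / 8 + 1 / 8) ∪
      Icc (3 / 8 - 1 / 8 : ℝ) (3 / 8 + 1 / 8)) ∪ (Icc (5 / 8 - 1 / 8 : ℝ) (5 / 8 + 1 / 8) ∪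
      Icc (7 / 8 - 1 / 8 : ℝ) (7 / 8 + 1 / 8)) := by
    intro t ht
    obtain ⟨h1, h2⟩ := ht
    simp only [mem_union, mem_Icc]
    rcases le_or_gt t (1 / 4) with h | h
    · left; left; constructor <;> linarith
    · rcases le_or_gt t (1 / 2) with h' | h'
      · left; right; constructor <;> linarith
      · rcases le_or_gt t (3 / 4) with h'' | h''
        · right; left; constructor <;> linarith
        · right; right; constructor <;> linarith
  unfold tint
  calc ∫⁻ t in Icc (0 : ℝ) (0 + 1), ∫⁻ y in closedBall (w + t • v) r, g (y, t)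
      ≤ ∫⁻ t in (Icc (1 / 8 - 1 / 8 : ℝ) (1 / 8 + 1 / 8) ∪
      Icc (3 / 8 - 1 / 8 : ℝ) (3 / 8 + 1 / 8)) ∪ (Icc (5 / 8 - 1 / 8 : ℝ) (5 / 8 + 1 / 8) ∪
      Icc (7 / 8 - 1 / 8 : ℝ) (7 / 8 + 1 / 8)), ∫⁻ y in closedBall (w + t • v) r, g (y, t) :=
        lintegral_mono_set hsub
    _ ≤ (ENNReal.ofReal ((2 * r) ^ d) * M + ENNReal.ofReal ((2 * r) ^ d) * M) +
        (ENNReal.ofReal ((2 * r) ^ d) * M + ENNReal.ofReal ((2 * r) ^ d) * M) := by
        refine (lintegral_union_le _ _ _).trans (add_le_add ?_ ?_)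
        · exact (lintegral_union_le _ _ _).trans (add_le_add (hpc _) (hpc _))
        · exact (lintegral_union_le _ _ _).trans (add_le_add (hpc _) (hpc _))
    _ = ENNReal.ofReal (4 * (2 * r) ^ d) * M := by
        rw [ENNReal.ofReal_mul (by norm_num)]
        rw [show ENNReal.ofReal 4 = 4 by norm_num]
        ring

theorem fk_meas_tint68 {d : ℕ} (r : ℝ) {b : V d → V d} (hb : Measurable b)
    {g : V d × ℝ → ℝ≥0∞} (hg : Measurable g) : Measurable (fun v : V d => tint 1 r 0 (b v) v g) := by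
  have hset : MeasurableSet {x : (V d × ℝ) × V d | x.1.2 ∈ Icc (0 : ℝ) (0 + 1) ∧
      ‖x.2 - (b x.1.1 + x.1.2 • x.1.1)‖ ≤ r} := by
    refine MeasurableSet.inter (measurable_fst.snd measurableSet_Icc) (measurableSet_le
      (f := fun x : (V d × ℝ) × V d => ‖x.2 - (b x.1.1 + x.1.2 • x.1.1)‖) ?_ measurable_const)
    exact (measurable_snd.sub ((hb.comp measurable_fst.fst).add
      (measurable_fst.snd.smul measurable_fst.fst))).norm
  set F : (V d × ℝ) × V d → ℝ≥0∞ := {x : (V d × ℝ) × V d | x.1.2 ∈ Icc (0 : ℝ) (0 + 1) ∧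
      ‖x.2 - (b x.1.1 + x.1.2 • x.1.1)‖ ≤ r}.indicator (fun x => g (x.2, x.1.2)) with hF
  have hFm : Measurable F :=
    (hg.comp (measurable_snd.prodMk measurable_fst.snd)).indicator hset
  have h1 : Measurable (fun x : V d × ℝ => ∫⁻ y, F (x, y)) := hFm.lintegral_prod_right'
  have h2 : Measurable (fun v : V d => ∫⁻ t : ℝ, ∫⁻ y, F ((v, t), y)) := h1.lintegral_prod_right'
  convert h2 using 2 with v
  unfold tint
  rw [← lintegral_indicator measurableSet_Icc]
  apply lintegral_congr
  intro t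
  by_cases ht : t ∈ Icc (0 : ℝ) (0 + 1)
  · rw [indicator_of_mem ht, ← lintegral_indicator measurableSet_closedBall]
    apply lintegral_congr
    intro y
    by_cases hy : y ∈ closedBall (b v + t • v) r
    · rw [indicator_of_mem hy, hF, indicator_of_mem]
      exact ⟨ht, by simpa [mem_closedBall, dist_eq_norm] using hy⟩
    · rw [indicator_of_notMem hy, hF, indicator_of_notMem]
      rintro ⟨_, h⟩
      exact hy (by simpa [mem_closedBall, dist_eq_norm] using h)
  · rw [indicator_of_notMem ht]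
    symm
    rw [lintegral_eq_zero_iff' (by
      exact (hFm.comp (measurable_const.prodMk measurable_id)).aemeasurable)]
    filter_upwards with y
    simp only [hF, Pi.zero_apply]
    rw [indicator_of_notMem]
    rintro ⟨h, _⟩
    exact ht h

/-- Surface integral versus ball integral, reverse inequality. -/
theorem fk_ball_le_sphere68 (n : ℕ) {G : V (n + 1) → ℝ≥0∞} (hG : Measurable G) :
    ∫⁻ x in ball (0 : V (n + 1)) 1 \ {0}, G (‖x‖⁻¹ • x) ≤
    ∫⁻ e : sphere (0 : V (n + 1)) 1, G e ∂(volume : Measure (V (n + 1))).toSphere := by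
  set μ : Measure (V (n + 1)) := volume with hμ
  set F : sphere (0 : V (n + 1)) 1 × Ioi (0 : ℝ) → ℝ≥0∞ :=
    fun p => G p.1 * (Iio (⟨1, mem_Ioi.2 one_pos⟩ : Ioi (0 : ℝ))).indicator 1 p.2 with hF
  have hFm : Measurable F := by
    refine Measurable.mul (hG.comp (measurable_subtype_coe.comp measurable_fst)) ?_
    exact (measurable_one.indicator measurableSet_Iio).comp measurable_snd
  have hdim : Module.finrank ℝ (V (n + 1)) - 1 = n := by simp
  have h1 : ∫⁻ p, F p ∂(μ.toSphere.prod (Measure.volumeIoiPow n)) =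
      (∫⁻ e : sphere (0 : V (n + 1)) 1, G e ∂μ.toSphere) * ENNReal.ofReal (1 / (n + 1)) := by
    rw [lintegral_prod _ hFm.aemeasurable]
    have : ∀ x : sphere (0 : V (n + 1)) 1, ∫⁻ y, F (x, y) ∂(Measure.volumeIoiPow n) =
        G x * ENNReal.ofReal (1 / (n + 1)) := by
      intro x
      simp only [hF]
      rw [lintegral_const_mul _ (measurable_one.indicator measurableSet_Iio),
        lintegral_indicator_one measurableSet_Iio, Measure.volumeIoiPow_apply_Iio]
      simp
    simp_rw [this]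
    exact lintegral_mul_const _ (hG.comp measurable_subtype_coe)
  have h2 : ∫⁻ x : ({0}ᶜ : Set (V (n + 1))), F (homeomorphUnitSphereProd (V (n + 1)) x)
        ∂(μ.comap (↑)) = ∫⁻ p, F p ∂(μ.toSphere.prod (Measure.volumeIoiPow n)) := by
    have := μ.measurePreserving_homeomorphUnitSphereProd.lintegral_comp_emb
      (Homeomorph.measurableEmbedding _) F
    rw [hdim] at this
    exact this
  have h3 : ∫⁻ x in ball (0 : V (n + 1)) 1 \ {0}, G (‖x‖⁻¹ • x) ≤
      ∫⁻ x : ({0}ᶜ : Set (V (n + 1))), F (homeomorphUnitSphereProd (V (n + 1)) x)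
        ∂(μ.comap (↑)) := by
    have hpt : ∀ x : ({0}ᶜ : Set (V (n + 1))), F (homeomorphUnitSphereProd (V (n + 1)) x) =
        (ball (0 : V (n + 1)) 1).indicator (fun x => G (‖x‖⁻¹ • x)) (x : V (n + 1)) := by
      intro x
      simp only [hF]
      by_cases hx : ‖(x : V (n + 1))‖ < 1
      · have h' : (x : V (n + 1)) ∈ ball (0 : V (n + 1)) 1 := by simpa using hx
        have h'' : (homeomorphUnitSphereProd (V (n + 1)) x).2 ∈
            Iio (⟨1, mem_Ioi.2 one_pos⟩ : Ioi (0 : ℝ)) := by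
          rw [mem_Iio, ← Subtype.coe_lt_coe]
          simpa using hx
        rw [indicator_of_mem h', indicator_of_mem h'']
        simp
      · have h' : (x : V (n + 1)) ∉ ball (0 : V (n + 1)) 1 := by simpa using hx
        have h'' : (homeomorphUnitSphereProd (V (n + 1)) x).2 ∉
            Iio (⟨1, mem_Ioi.2 one_pos⟩ : Ioi (0 : ℝ)) := by
          rw [mem_Iio, ← Subtype.coe_lt_coe]
          simpa using hx
        rw [indicator_of_notMem h', indicator_of_notMem h'', mul_zero]
    simp_rw [hpt]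
    rw [lintegral_subtype_comap (measurableSet_singleton (0 : V (n + 1))).compl
      (fun x => (ball (0 : V (n + 1)) 1).indicator (fun x => G (‖x‖⁻¹ • x)) x)]
    rw [← lintegral_indicator (measurableSet_ball.diff (measurableSet_singleton _)),
      ← lintegral_indicator (measurableSet_singleton (0 : V (n + 1))).compl]
    apply lintegral_mono
    intro x
    by_cases hx : x ∈ ball (0 : V (n + 1)) 1 \ {0}
    · beta_reduce
      rw [indicator_of_mem hx, indicator_of_mem (show x ∈ ({0} : Set (V (n + 1)))ᶜ from hx.2),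
        indicator_of_mem hx.1]
    · rw [indicator_of_notMem hx]; exact zero_le
  rw [h2, h1] at h3
  refine h3.trans ?_
  calc (∫⁻ e : sphere (0 : V (n + 1)) 1, G e ∂μ.toSphere) * ENNReal.ofReal (1 / (n + 1))
      ≤ (∫⁻ e : sphere (0 : V (n + 1)) 1, G e ∂μ.toSphere) * 1 := by
        gcongr
        rw [← ENNReal.ofReal_one]
        apply ENNReal.ofReal_le_ofReal
        rw [div_le_one (by positivity)]
        have : (0 : ℝ) ≤ n := Nat.cast_nonneg n
        linarith
    _ = _ := mul_one _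

/-- Scaling. -/
theorem fk_scale68 {d : ℕ} {τ : ℝ} (hτ : 0 < τ) {F : V d → ℝ≥0∞} (hF : Measurable F) :
    ∫⁻ y in closedBall (0 : V d) τ, F (τ⁻¹ • y) =
      ENNReal.ofReal (τ ^ d) * ∫⁻ v in closedBall (0 : V d) 1, F v := by
  rw [← lintegral_indicator measurableSet_closedBall, ← lintegral_indicator measurableSet_closedBall]
  have hFi : Measurable ((closedBall (0 : V d) 1).indicator F) :=
    hF.indicator measurableSet_closedBall
  have h1 : ∀ y : V d, (closedBall (0 : V d) τ).indicator (fun y => F (τ⁻¹ • y)) y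
      = (closedBall (0 : V d) 1).indicator F (τ⁻¹ • y) := by
    intro y
    have hiff : y ∈ closedBall (0 : V d) τ ↔ τ⁻¹ • y ∈ closedBall (0 : V d) 1 := by
      rw [mem_closedBall_zero_iff, mem_closedBall_zero_iff, norm_smul, norm_inv, Real.norm_eq_abs,
        abs_of_pos hτ, inv_mul_le_iff₀ hτ, mul_one]
    by_cases hy : y ∈ closedBall (0 : V d) τ
    · rw [indicator_of_mem hy, indicator_of_mem (hiff.1 hy)]
    · rw [indicator_of_notMem hy, indicator_of_notMem (fun h => hy (hiff.2 h))]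
  rw [lintegral_congr h1]
  have h2 := Measure.map_addHaar_smul (volume : Measure (V d)) (inv_ne_zero hτ.ne')
  have h3 : ∫⁻ y, (closedBall (0 : V d) 1).indicator F (τ⁻¹ • y)
      = ∫⁻ y, (closedBall (0 : V d) 1).indicator F y ∂(Measure.map (τ⁻¹ • ·) volume) := by
    rw [lintegral_map hFi (measurable_const_smul _)]
  rw [h3, h2, lintegral_smul_measure, smul_eq_mul]
  congr 2
  rw [finrank_euclideanSpace_fin, inv_pow, inv_inv, abs_of_pos (by positivity)]

/-- HF-1: the Kakeya maximal estimate on the sphere gives the estimate for families. -/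
theorem famKM : S_famKM := by
  intro d p θ _ hp ⟨C, hC, hKM⟩
  have hp0 : 0 ≤ p := by linarith
  refine ⟨4 ^ (d + 1) * (4 * 2 ^ d) ^ p * C, by positivity, ?_⟩
  intro r hr hr8 b hb g hg
  set T : V d → ℝ≥0∞ := fun v => tint 1 r 0 (b v) v g with hT
  have hTm : Measurable T := fk_meas_tint68 r hb hg
  set D : Set (V (d + 1)) := {x | 0 < x 0 ∧ ‖tl x‖ ≤ x 0} with hD
  have hDm : MeasurableSet D := by
    refine MeasurableSet.inter (measurableSet_lt measurable_const (measurable_apply 0))
      (measurableSet_le measurable_tl.norm (measurable_apply 0))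
  set G : V (d + 1) → ℝ≥0∞ := D.indicator (fun x => T ((x 0)⁻¹ • tl x) ^ p) with hG
  have hGm : Measurable G := by
    apply Measurable.indicator _ hDm
    exact (hTm.comp ((measurable_apply 0).inv.smul measurable_tl)).pow_const p
  -- homogeneity
  have hhom : ∀ x ∈ ball (0 : V (d + 1)) 1 \ {0}, G (‖x‖⁻¹ • x) = G x := by
    intro x hx
    have hx0 : 0 < ‖x‖ := norm_pos_iff.2 hx.2
    have hc : 0 < ‖x‖⁻¹ := inv_pos.2 hx0
    have htl : tl (‖x‖⁻¹ • x) = ‖x‖⁻¹ • tl x := Pool.Agent.H742R2.Kk.tl_smul _ _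
    have h0 : (‖x‖⁻¹ • x) 0 = ‖x‖⁻¹ * x 0 := by simp
    have hiff : ‖x‖⁻¹ • x ∈ D ↔ x ∈ D := by
      simp only [hD, mem_ofPred_eq]
      rw [h0, htl, norm_smul, norm_inv, norm_norm]
      constructor
      · rintro ⟨h1, h2⟩
        exact ⟨(mul_pos_iff_of_pos_left hc).1 h1, le_of_mul_le_mul_left h2 hc⟩
      · rintro ⟨h1, h2⟩
        exact ⟨mul_pos hc h1, mul_le_mul_of_nonneg_left h2 hc.le⟩
    by_cases hxD : x ∈ D
    · rw [hG, indicator_of_mem hxD, indicator_of_mem (hiff.2 hxD), h0, htl, smul_smul]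
      congr 3
      have := hxD.1
      field_simp
    · rw [hG, indicator_of_notMem hxD, indicator_of_notMem (fun h => hxD (hiff.1 h))]
  -- the pointwise bound on the sphere
  set K : V (d + 1) → ℝ≥0∞ := fun e => ⨆ a : V (d + 1), (volume (cyl r a e))⁻¹ *
          ∫⁻ y in cyl r a e, g (tl y, y 0) with hK
  have hpt : ∀ e : sphere (0 : V (d + 1)) 1,
      G e ≤ ENNReal.ofReal (4 * (2 * r) ^ d) ^ p * K (e : V (d + 1)) ^ p := by
    intro e
    by_cases heD : (e : V (d + 1)) ∈ D
    · rw [hG, indicator_of_mem heD, ← ENNReal.mul_rpow_of_nonneg _ _ hp0]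
      apply ENNReal.rpow_le_rpow _ hp0
      obtain ⟨h1, h2⟩ := heD
      set v : V d := ((e : V (d + 1)) 0)⁻¹ • tl (e : V (d + 1)) with hv
      have hv1 : ‖v‖ ≤ 1 := by
        rw [hv, norm_smul, norm_inv, Real.norm_eq_abs, abs_of_pos h1, inv_mul_le_iff₀ h1, mul_one]
        exact h2
      have hen : ‖(e : V (d + 1))‖ = 1 := by simp
      have hdir : fk_dir68 v = (e : V (d + 1)) := fk_dir_eq68 _ hen h1
      have := fk_point68 hr hr8 (b v) v hv1 hg
      rw [hdir] at this
      exact this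
    · rw [hG, indicator_of_notMem heD]; exact zero_le
  have hgt : Measurable (fun x : V (d + 1) => g (tl x, x 0)) :=
    hg.comp (measurable_tl.prodMk (measurable_apply 0))
  have hint : ∫⁻ x : V (d + 1), g (tl x, x 0) ^ p = ∫⁻ z, g z ^ p := by
    rw [lintegral_ins (hgt.pow_const p), Measure.volume_eq_prod,
      lintegral_prod_symm _ (hg.pow_const p).aemeasurable]
    apply lintegral_congr
    intro t
    apply lintegral_congr
    intro y
    rw [tl_ins, ins_apply_zero]
  have hsph : ∫⁻ e : sphere (0 : V (d + 1)) 1, G e ∂(volume : Measure (V (d + 1))).toSphere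
      ≤ ENNReal.ofReal (4 * (2 * r) ^ d) ^ p * (ENNReal.ofReal (C * r ^ (-θ)) * ∫⁻ z, g z ^ p) := by
    calc ∫⁻ e : sphere (0 : V (d + 1)) 1, G e ∂(volume : Measure (V (d + 1))).toSphere
        ≤ ∫⁻ e : sphere (0 : V (d + 1)) 1, ENNReal.ofReal (4 * (2 * r) ^ d) ^ p *
            K (e : V (d + 1)) ^ p ∂(volume : Measure (V (d + 1))).toSphere :=
          lintegral_mono hpt
      _ = ENNReal.ofReal (4 * (2 * r) ^ d) ^ p * ∫⁻ e : sphere (0 : V (d + 1)) 1,
            K (e : V (d + 1)) ^ p ∂(volume : Measure (V (d + 1))).toSphere :=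
          lintegral_const_mul' _ _ (ENNReal.rpow_ne_top_of_nonneg hp0 ENNReal.ofReal_ne_top)
      _ ≤ _ := by
          gcongr
          have := hKM r hr (by linarith) (fun x => g (tl x, x 0)) hgt.aemeasurable
          rw [hint] at this
          exact this
  -- the lower bound
  have hlow : ENNReal.ofReal ((1 / 4) ^ (d + 1)) * ∫⁻ v in closedBall (0 : V d) 1, T v ^ p
      ≤ ∫⁻ x in ball (0 : V (d + 1)) 1 \ {0}, G x := by
    have hBm : MeasurableSet (ball (0 : V (d + 1)) 1 \ {0}) :=
      measurableSet_ball.diff (measurableSet_singleton _)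
    rw [← lintegral_indicator hBm, lintegral_ins (hGm.indicator hBm)]
    calc ENNReal.ofReal ((1 / 4) ^ (d + 1)) * ∫⁻ v in closedBall (0 : V d) 1, T v ^ p
        = ∫⁻ t in Icc (1 / 4 : ℝ) (1 / 2), ENNReal.ofReal ((1 / 4) ^ d) *
            ∫⁻ v in closedBall (0 : V d) 1, T v ^ p := by
          rw [lintegral_const, Measure.restrict_apply_univ, Real.volume_Icc, pow_succ,
            ENNReal.ofReal_mul (by positivity)]
          norm_num
          ring
      _ ≤ ∫⁻ t in Icc (1 / 4 : ℝ) (1 / 2), ∫⁻ y : V d,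
            (ball (0 : V (d + 1)) 1 \ {0}).indicator G (ins t y) := by
          apply setLIntegral_mono' measurableSet_Icc
          intro t ht
          have ht0 : 0 < t := by linarith [ht.1]
          have hs := fk_scale68 ht0 (hTm.pow_const p)
          calc ENNReal.ofReal ((1 / 4) ^ d) * ∫⁻ v in closedBall (0 : V d) 1, T v ^ p
              ≤ ENNReal.ofReal (t ^ d) * ∫⁻ v in closedBall (0 : V d) 1, T v ^ p := by
                gcongr
                exact ht.1
            _ = ∫⁻ y in closedBall (0 : V d) t, T (t⁻¹ • y) ^ p := hs.symm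
            _ ≤ _ := by
                rw [← lintegral_indicator measurableSet_closedBall]
                apply lintegral_mono
                intro y
                by_cases hy : y ∈ closedBall (0 : V d) t
                · beta_reduce
                  rw [indicator_of_mem hy]
                  rw [mem_closedBall_zero_iff] at hy
                  have hmem : (ins t y : V (d + 1)) ∈ ball (0 : V (d + 1)) 1 \ {0} := by
                    constructor
                    · rw [mem_ball_zero_iff]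
                      have h1 := fk_norm_ins68 t y
                      have h2 : ‖(ins t y : V (d + 1))‖ ^ 2 < 1 := by
                        rw [h1]
                        nlinarith [ht.2, norm_nonneg y]
                      nlinarith [norm_nonneg (ins t y : V (d + 1))]
                    · intro h
                      rw [mem_singleton_iff] at h
                      have := ins_apply_zero t y
                      rw [h] at this
                      simp at this
                      linarith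
                  rw [indicator_of_mem hmem, hG, indicator_of_mem, tl_ins, ins_apply_zero]
                  exact ⟨by rw [ins_apply_zero]; exact ht0, by
                    rw [ins_apply_zero, tl_ins]; exact hy⟩
                · rw [indicator_of_notMem hy]; exact zero_le
      _ ≤ _ := setLIntegral_le_lintegral _ _
  have hbs : ∫⁻ x in ball (0 : V (d + 1)) 1 \ {0}, G x ≤
      ∫⁻ e : sphere (0 : V (d + 1)) 1, G e ∂(volume : Measure (V (d + 1))).toSphere := by
    refine le_trans (le_of_eq ?_) (fk_ball_le_sphere68 d hGm)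
    exact (setLIntegral_congr_fun (measurableSet_ball.diff (measurableSet_singleton _))
      (fun x hx => (hhom x hx).symm))
  have hall := (hlow.trans hbs).trans hsph
  calc ∫⁻ v in closedBall (0 : V d) 1, T v ^ p
      = ENNReal.ofReal (4 ^ (d + 1)) * (ENNReal.ofReal ((1 / 4) ^ (d + 1)) *
          ∫⁻ v in closedBall (0 : V d) 1, T v ^ p) := by
        rw [← mul_assoc, ← ENNReal.ofReal_mul (by positivity), ← mul_pow]
        norm_num
    _ ≤ ENNReal.ofReal (4 ^ (d + 1)) * (ENNReal.ofReal (4 * (2 * r) ^ d) ^ p *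
          (ENNReal.ofReal (C * r ^ (-θ)) * ∫⁻ z, g z ^ p)) := by gcongr
    _ = ENNReal.ofReal (4 ^ (d + 1) * (4 * 2 ^ d) ^ p * C * r ^ ((d : ℝ) * p - θ)) *
          ∫⁻ z, g z ^ p := by
        rw [ENNReal.ofReal_rpow_of_nonneg (by positivity) hp0, ← mul_assoc, ← mul_assoc,
          ← ENNReal.ofReal_mul (by positivity), ← ENNReal.ofReal_mul (by positivity)]
        congr 2
        have h1 : (4 * (2 * r) ^ d) ^ p = (4 * 2 ^ d) ^ p * r ^ ((d : ℝ) * p) := by
          rw [mul_pow, ← mul_assoc, Real.mul_rpow (by positivity) (by positivity),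
            ← Real.rpow_natCast r d, ← Real.rpow_mul hr.le]
        have h2 : r ^ ((d : ℝ) * p - θ) = r ^ ((d : ℝ) * p) * r ^ (-θ) := by
          rw [sub_eq_add_neg, Real.rpow_add hr]
        rw [h1, h2]
        ring

end Pool.Agent.NH42.HF
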