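import Pool.Agent.NH42.HF.Stm

/-! # HF-3: monotonicity of the Kakeya estimate in the exponent -/

set_option autoImplicit false

open MeasureTheory Set Metric
open scoped ENNReal

namespace Pool.Agent.NH42.HF

namespace FM

/-- Jensen -/
theorem jensenp {α : Type*} [MeasurableSpace α] (ν : Measure α) (g : α → ℝ≥0∞)
    (hg : AEMeasurable g ν) (p : ℝ) (hp : 1 < p) :
    (∫⁻ x, g x ∂ν) ^ p ≤ (ν univ) ^ (p - 1) * ∫⁻ x, g x ^ p ∂ν := by
  have hp0 : 0 < p := by linarith
  have hp1 : 0 < p - 1 := by linarith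
  have h := ENNReal.lintegral_mul_le_Lp_mul_Lq ν (p := p / (p - 1)) (q := p)
    (by
      rw [Real.holderConjugate_iff]
      refine ⟨?_, ?_⟩
      · rw [lt_div_iff₀ hp1]; linarith
      · field_simp
        ring) (f := fun _ => 1) (g := g) aemeasurable_const hg
  simp only [Pi.mul_apply, one_mul, ENNReal.one_rpow, lintegral_const] at h
  calc (∫⁻ x, g x ∂ν) ^ p ≤ ((ν univ) ^ (1 / (p / (p - 1))) *
        (∫⁻ x, g x ^ p ∂ν) ^ (1 / p)) ^ p := by gcongr
    _ = _ := by
        rw [ENNReal.mul_rpow_of_nonneg _ _ hp0.le, ← ENNReal.rpow_mul, ← ENNReal.rpow_mul]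
        congr 1
        · congr 1
          field_simp
        · rw [one_div_mul_cancel hp0.ne', ENNReal.rpow_one]

theorem meas_inner {d : ℕ} (r : ℝ) (u w : V d) (G : V d × ℝ → ℝ≥0∞) (hG : Measurable G) :
    Measurable fun t : ℝ => ∫⁻ y in closedBall (u + t • w) r, G (y, t) := by
  have hS : MeasurableSet {z : V d × ℝ | dist z.1 (u + z.2 • w) ≤ r} :=
    (isClosed_le (by fun_prop) continuous_const).measurableSet
  have h1 : Measurable ({z : V d × ℝ | dist z.1 (u + z.2 • w) ≤ r}.indicator G) :=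
    hG.indicator hS
  have h2 : (fun t : ℝ => ∫⁻ y in closedBall (u + t • w) r, G (y, t)) = fun t : ℝ =>
      ∫⁻ y : V d, ({z : V d × ℝ | dist z.1 (u + z.2 • w) ≤ r}.indicator G) (y, t) := by
    funext t
    rw [← lintegral_indicator measurableSet_closedBall]
    apply lintegral_congr
    intro y
    simp only [indicator, mem_closedBall, mem_setOf_eq]
  rw [h2]
  exact h1.lintegral_prod_left'

theorem tint_pow {d : ℕ} (r : ℝ) (hr : 0 ≤ r) (u w : V d) (G : V d × ℝ → ℝ≥0∞)
    (hG : Measurable G) (q : ℝ) (hq : 1 < q) :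
    tint 1 r 0 u w G ^ q ≤ (ENNReal.ofReal (r ^ d) * volume (ball (0 : V d) 1)) ^ (q - 1) *
      tint 1 r 0 u w fun z => G z ^ q := by
  have hfin : ENNReal.ofReal (r ^ d) * volume (ball (0 : V d) 1) ≠ ∞ :=
    ENNReal.mul_ne_top ENNReal.ofReal_ne_top measure_ball_lt_top.ne
  unfold tint
  calc (∫⁻ t in Icc (0 : ℝ) (0 + 1), ∫⁻ y in closedBall (u + t • w) r, G (y, t)) ^ q
      ≤ (volume.restrict (Icc (0 : ℝ) (0 + 1)) univ) ^ (q - 1) *
        ∫⁻ t in Icc (0 : ℝ) (0 + 1), (∫⁻ y in closedBall (u + t • w) r, G (y, t)) ^ q :=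
        jensenp _ _ (meas_inner r u w G hG).aemeasurable q hq
    _ = ∫⁻ t in Icc (0 : ℝ) (0 + 1), (∫⁻ y in closedBall (u + t • w) r, G (y, t)) ^ q := by
        rw [Measure.restrict_apply_univ, Real.volume_Icc]
        norm_num
    _ ≤ ∫⁻ t in Icc (0 : ℝ) (0 + 1), (ENNReal.ofReal (r ^ d) * volume (ball (0 : V d) 1)) ^ (q - 1)
          * ∫⁻ y in closedBall (u + t • w) r, G (y, t) ^ q := by
        apply lintegral_mono
        intro t
        have h := jensenp (volume.restrict (closedBall (u + t • w) r)) (fun y => G (y, t))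
          (by fun_prop) q hq
        rw [Measure.restrict_apply_univ, Measure.addHaar_closedBall _ _ hr,
          finrank_euclideanSpace_fin] at h
        exact h
    _ = _ := by
        rw [lintegral_const_mul']
        exact ENNReal.rpow_ne_top_of_nonneg (by linarith) hfin

end FM

theorem famMono : S_famMono := by
  intro d p₀ p θ h1 h2 hF
  rcases h2.eq_or_lt with h2 | h2
  · rw [← h2]; exact hF
  obtain ⟨C, hC, hF⟩ := hF
  have hp0 : 0 < p₀ := by linarith
  set q : ℝ := p / p₀ with hq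
  have hq1 : 1 < q := by rw [hq, lt_div_iff₀ hp0]; linarith
  have hqp : q * p₀ = p := by rw [hq]; field_simp
  have hc0 : 0 < (volume (ball (0 : V d) 1)).toReal :=
    ENNReal.toReal_pos (measure_ball_pos volume _ one_pos).ne' measure_ball_lt_top.ne
  set c : ℝ := (volume (ball (0 : V d) 1)).toReal with hc
  have hcv : volume (ball (0 : V d) 1) = ENNReal.ofReal c := by
    rw [hc, ENNReal.ofReal_toReal measure_ball_lt_top.ne]
  refine ⟨c ^ (p - p₀) * C, by positivity, fun r hr hr1 b hb g hg => ?_⟩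
  have hm : ENNReal.ofReal (r ^ d) * volume (ball (0 : V d) 1) = ENNReal.ofReal (r ^ d * c) := by
    rw [hcv, ENNReal.ofReal_mul (by positivity)]
  have hmp : (ENNReal.ofReal (r ^ d * c)) ^ (p - p₀) = ENNReal.ofReal ((r ^ d * c) ^ (p - p₀)) :=
    ENNReal.ofReal_rpow_of_pos (by positivity)
  calc ∫⁻ v in closedBall (0 : V d) 1, tint 1 r 0 (b v) v g ^ p
      ≤ ∫⁻ v in closedBall (0 : V d) 1, ENNReal.ofReal ((r ^ d * c) ^ (p - p₀)) *
          (tint 1 r 0 (b v) v fun z => g z ^ q) ^ p₀ := by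
        apply lintegral_mono
        intro v
        have h := FM.tint_pow r hr.le (b v) v g hg q hq1
        show tint 1 r 0 (b v) v g ^ p ≤ ENNReal.ofReal ((r ^ d * c) ^ (p - p₀)) *
          (tint 1 r 0 (b v) v fun z => g z ^ q) ^ p₀
        rw [hm] at h
        have e : (ENNReal.ofReal (r ^ d * c) ^ (q - 1)) ^ p₀ =
            ENNReal.ofReal ((r ^ d * c) ^ (p - p₀)) := by
          rw [← ENNReal.rpow_mul, ← hmp]
          congr 1
          rw [sub_mul, hqp, one_mul]
        calc tint 1 r 0 (b v) v g ^ p = (tint 1 r 0 (b v) v g ^ q) ^ p₀ := by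
              rw [← ENNReal.rpow_mul, hqp]
          _ ≤ (ENNReal.ofReal (r ^ d * c) ^ (q - 1) *
                tint 1 r 0 (b v) v fun z => g z ^ q) ^ p₀ :=
              ENNReal.rpow_le_rpow h hp0.le
          _ = _ := by rw [ENNReal.mul_rpow_of_nonneg _ _ hp0.le, e]
    _ = ENNReal.ofReal ((r ^ d * c) ^ (p - p₀)) * ∫⁻ v in closedBall (0 : V d) 1,
          (tint 1 r 0 (b v) v fun z => g z ^ q) ^ p₀ := by
        rw [lintegral_const_mul' _ _ ENNReal.ofReal_ne_top]
    _ ≤ ENNReal.ofReal ((r ^ d * c) ^ (p - p₀)) * (ENNReal.ofReal (C * r ^ ((d : ℝ) * p₀ - θ)) *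
          ∫⁻ z, (g z ^ q) ^ p₀) := by
        gcongr
        exact hF r hr hr1 b hb _ (hg.pow_const q)
    _ = ENNReal.ofReal (c ^ (p - p₀) * C * r ^ ((d : ℝ) * p - θ)) * ∫⁻ z, g z ^ p := by
        rw [← mul_assoc, ← ENNReal.ofReal_mul (by positivity)]
        congr 1
        · congr 1
          have e1 : (r ^ d * c) ^ (p - p₀) = r ^ ((d : ℝ) * (p - p₀)) * c ^ (p - p₀) := by
            rw [Real.mul_rpow (by positivity) hc0.le, ← Real.rpow_natCast r d,
              ← Real.rpow_mul hr.le]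
          have e2 : r ^ ((d : ℝ) * p - θ) = r ^ ((d : ℝ) * (p - p₀)) * r ^ ((d : ℝ) * p₀ - θ) := by
            rw [← Real.rpow_add hr]
            congr 1
            ring
          rw [e1, e2]
          ring
        · apply lintegral_congr
          intro z
          rw [← ENNReal.rpow_mul, hqp]

end Pool.Agent.NH42.HF
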