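import Pool.Agent.NH42.HF.Stm2
import Pool.Agent.TH426.Kt.Planar

/-!
# Project HF: the planar case (HF-2)
-/

set_option autoImplicit false

open MeasureTheory Set Metric
open scoped ENNReal

namespace Pool.Agent.NH42.HF

open Pool.Agent.TH426.Kt

/-- the integral over the tube in terms of the averages -/
theorem tint_eq_W {r : ℝ} (hr : 0 < r) (b : V 1 → V 1) (v : V 1) (g : V 1 × ℝ → ℝ≥0∞) :
    tint 1 r 0 (b v) v g = ENNReal.ofReal (2 * r) * W r (Icc 0 (0 + 1)) (lin b) g v := by
  have h0 : ENNReal.ofReal (2 * r) ≠ 0 := by simpa using hr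
  have h1 : ENNReal.ofReal (2 * r) ≠ ∞ := ENNReal.ofReal_ne_top
  unfold tint W
  rw [← lintegral_const_mul' _ _ h1]
  apply lintegral_congr
  intro t
  have e1 : ∫⁻ y in closedBall (b v + t • v) r, g (y, t) =
      ∫⁻ w in closedBall (0 : V 1) r, g (lin b v t + w, t) := by
    have h2 := (measurePreserving_add_left (volume : Measure (V 1)) (b v + t • v)).setLIntegral_comp_preimage_emb
      (MeasurableEquiv.addLeft (b v + t • v)).measurableEmbedding (fun y => g (y, t))
      (closedBall (b v + t • v) r)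
    rw [← h2]
    congr 1
    congr 1
    ext w
    simp [mem_closedBall, dist_eq_norm]
  rw [e1]
  unfold nb
  rw [lintegral_smul_measure, vol_ball_one, smul_eq_mul, ← mul_assoc, ENNReal.mul_inv_cancel h0 h1,
    one_mul]

theorem famPlanar : S_famPlanar := by
  intro θ hθ
  refine ⟨4 * (8 * (3 ^ θ / θ)), by positivity, ?_⟩
  intro r hr hr8 b hb g hg
  have hJ : (volume (Icc (0:ℝ) (0 + 1))) ≤ 1 := by
    rw [Real.volume_Icc]
    norm_num
  have hpl := planar (J := Icc (0:ℝ) (0 + 1)) measurableSet_Icc hJ hb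
    (B := closedBall (0 : V 1) 1) measurableSet_closedBall subset_rfl hr g hg
  rw [ENNReal.rpow_one] at hpl
  have hlog : 8 * Real.log ((r + 2) / r) ≤ 8 * (3 ^ θ / θ * r ^ (-θ)) := by
    have h1 : Real.log ((r + 2) / r) ≤ Real.log (3 / r) := by
      apply Real.log_le_log (by positivity)
      rw [div_le_div_iff_of_pos_right hr]
      linarith
    have h2 : Real.log (3 / r) ≤ (3 / r) ^ θ / θ := Real.log_le_rpow_div (by positivity) hθ
    have h3 : (3 / r) ^ θ / θ = 3 ^ θ / θ * r ^ (-θ) := by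
      rw [Real.div_rpow (by norm_num) hr.le, Real.rpow_neg hr.le]
      ring
    linarith
  calc ∫⁻ v in closedBall (0 : V 1) 1, tint 1 r 0 (b v) v g ^ (2 : ℝ)
      = ∫⁻ v in closedBall (0 : V 1) 1,
          ENNReal.ofReal (2 * r) ^ (2 : ℝ) * W r (Icc 0 (0 + 1)) (lin b) g v ^ (1 * 2 : ℝ) := by
        apply lintegral_congr
        intro v
        rw [tint_eq_W hr, ENNReal.mul_rpow_of_nonneg _ _ (by norm_num), one_mul]
    _ = ENNReal.ofReal (2 * r) ^ (2 : ℝ) *
          ∫⁻ v in closedBall (0 : V 1) 1, W r (Icc 0 (0 + 1)) (lin b) g v ^ (1 * 2 : ℝ) :=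
        lintegral_const_mul' _ _ (ENNReal.rpow_ne_top_of_nonneg (by norm_num) ENNReal.ofReal_ne_top)
    _ ≤ ENNReal.ofReal (2 * r) ^ (2 : ℝ) * (ENNReal.ofReal (8 * Real.log ((r + 2) / r)) *
          ∫⁻ t in Icc (0:ℝ) (0 + 1), ∫⁻ x, g (x, t) ^ (2 : ℝ)) := by gcongr
    _ ≤ ENNReal.ofReal (2 * r) ^ (2 : ℝ) * (ENNReal.ofReal (8 * (3 ^ θ / θ * r ^ (-θ))) *
          ∫⁻ z, g z ^ (2 : ℝ)) := by
        gcongr
        rw [Measure.volume_eq_prod, lintegral_prod_symm _ (hg.pow_const _).aemeasurable]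
        exact setLIntegral_le_lintegral _ _
    _ = _ := by
        rw [← mul_assoc]
        congr 1
        rw [ENNReal.ofReal_rpow_of_pos (by positivity), ← ENNReal.ofReal_mul (by positivity)]
        congr 1
        have e1 : r ^ (((1 : ℕ) : ℝ) * 2 - θ) = r ^ (2 : ℝ) * r ^ (-θ) := by
          rw [← Real.rpow_add hr]
          congr 1
          push_cast
          ring
        rw [e1, Real.mul_rpow (by norm_num) hr.le]
        have e2 : (2 : ℝ) ^ (2 : ℝ) = 4 := by
          rw [show (2 : ℝ) = ((2 : ℕ) : ℝ) by norm_num, Real.rpow_natCast]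
          norm_num
        rw [e2]
        ring

end Pool.Agent.NH42.HF
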