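import Pool.Agent.NH42.HF.Stm

/-!
# Project HF: Taylor's formula and the estimate for large heights
-/

set_option autoImplicit false

open MeasureTheory Set Metric
open scoped ENNReal

namespace Pool.Agent.NH42.HF

/-- HF-12a -/
theorem taylor : S_taylor := by
  intro d A α b D hα hA hb v hv w hw
  have h1 : Convex ℝ (closedBall (0 : V d) 1 ∩ closedBall v ‖w - v‖) :=
    (convex_closedBall _ _).inter (convex_closedBall _ _)
  refine h1.norm_image_sub_le_of_norm_hasFDerivWithin_le' (f' := D) ?_ ?_ ?_ ?_
  · intro x hx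
    exact (hb.der x hx.1).mono inter_subset_left
  · intro x hx
    refine (hb.hol v hv x hx.1).trans ?_
    refine mul_le_mul_of_nonneg_left ?_ hA
    refine Real.rpow_le_rpow (norm_nonneg _) ?_ hα.le
    have := hx.2
    rwa [mem_closedBall, dist_eq_norm] at this
  · exact ⟨hv, by rw [mem_closedBall, dist_self]; exact norm_nonneg _⟩
  · exact ⟨hw, by rw [mem_closedBall, dist_eq_norm]⟩

/-- a linear map which does not decrease the norm has determinant at least one -/
theorem far_det {d : ℕ} (L : V d →L[ℝ] V d) (h : ∀ x : V d, ‖x‖ ≤ ‖L x‖) : 1 ≤ |L.det| := by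
  have hinj : Function.Injective L := by
    intro x y hxy
    have h1 := h (x - y)
    rw [map_sub, hxy, sub_self, norm_zero] at h1
    exact sub_eq_zero.1 (norm_le_zero_iff.1 h1)
  have hsurj : Function.Surjective L :=
    LinearMap.surjective_of_injective (f := (L : V d →ₗ[ℝ] V d)) hinj
  have hsub : ball (0 : V d) 1 ⊆ L '' ball (0 : V d) 1 := by
    intro y hy
    obtain ⟨x, rfl⟩ := hsurj y
    refine ⟨x, ?_, rfl⟩
    rw [mem_ball_zero_iff] at hy ⊢
    exact (h x).trans_lt hy
  have h1 := measure_mono (μ := (volume : Measure (V d))) hsub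
  rw [Measure.addHaar_image_continuousLinearMap] at h1
  have hpos : volume (ball (0 : V d) 1) ≠ 0 := (measure_ball_pos _ _ one_pos).ne'
  have hfin : volume (ball (0 : V d) 1) ≠ ∞ := measure_ball_lt_top.ne
  have h2 : (1 : ℝ≥0∞) ≤ ENNReal.ofReal |L.det| := by
    by_contra hlt
    rw [not_le] at hlt
    have h3 : ENNReal.ofReal |L.det| * volume (ball (0 : V d) 1) <
        1 * volume (ball (0 : V d) 1) := by
      exact ENNReal.mul_lt_mul_left hpos hfin hlt
    rw [one_mul] at h3
    exact absurd h1 (not_le.2 h3)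
  rw [← ENNReal.ofReal_one] at h2
  exact (ENNReal.ofReal_le_ofReal_iff (abs_nonneg _)).1 h2

theorem far_lip {d : ℕ} {A α : ℝ} {b : V d → V d} {D : V d → (V d →L[ℝ] V d)} (hb : Hol A α b D)
    {v w : V d} (hv : v ∈ closedBall (0 : V d) 1) (hw : w ∈ closedBall (0 : V d) 1) :
    ‖b w - b v‖ ≤ A * ‖w - v‖ :=
  (convex_closedBall (0 : V d) 1).norm_image_sub_le_of_norm_hasFDerivWithin_le
    (fun x hx => hb.der x hx) (fun x hx => hb.bdd x hx) hv hw

/-- one height -/
theorem far_one {d : ℕ} {A α : ℝ} {b : V d → V d} {D : V d → (V d →L[ℝ] V d)} (hA : 1 ≤ A)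
    (hb : Hol A α b D) {t : ℝ} (ht : 4 * A + 1 ≤ |t|) (G : V d → ℝ≥0∞) :
    ∫⁻ w in closedBall (0 : V d) 1, G (b w + t • w) ≤ ∫⁻ y, G y := by
  have hder : ∀ w ∈ closedBall (0 : V d) 1, HasFDerivWithinAt (fun w => b w + t • w)
      (D w + t • ContinuousLinearMap.id ℝ (V d)) (closedBall (0 : V d) 1) w := by
    intro w hw
    exact (hb.der w hw).add ((hasFDerivWithinAt_id w _).const_smul t)
  have hinj : InjOn (fun w => b w + t • w) (closedBall (0 : V d) 1) := by
    intro w hw v hv hwv
    simp only at hwv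
    have h1 : b w - b v = -(t • (w - v)) := by
      rw [smul_sub]
      have : b w - b v = (b w + t • w) - (b v + t • v) - (t • w - t • v) := by abel
      rw [this, hwv, sub_self, zero_sub]
    have h2 := far_lip hb hv hw
    rw [h1, norm_neg, norm_smul, Real.norm_eq_abs] at h2
    by_contra hne
    have h3 : 0 < ‖w - v‖ := norm_pos_iff.2 (sub_ne_zero.2 hne)
    have h4 : |t| ≤ A := le_of_mul_le_mul_right h2 h3
    linarith
  have hdet : ∀ w ∈ closedBall (0 : V d) 1,
      1 ≤ |(D w + t • ContinuousLinearMap.id ℝ (V d)).det| := by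
    intro w hw
    refine far_det _ fun x => ?_
    have h1 : (D w + t • ContinuousLinearMap.id ℝ (V d)) x = D w x + t • x := rfl
    rw [h1]
    have h2 : ‖D w x‖ ≤ A * ‖x‖ :=
      ((D w).le_opNorm x).trans (mul_le_mul_of_nonneg_right (hb.bdd w hw) (norm_nonneg _))
    have h3 : ‖t • x‖ ≤ ‖D w x + t • x‖ + ‖D w x‖ := by
      have : t • x = (D w x + t • x) - D w x := by abel
      rw [this]
      refine (norm_sub_le _ _).trans ?_
      simp
    rw [norm_smul, Real.norm_eq_abs] at h3
    have h4 : (4 * A + 1) * ‖x‖ ≤ |t| * ‖x‖ := mul_le_mul_of_nonneg_right ht (norm_nonneg _)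
    nlinarith [norm_nonneg x]
  calc ∫⁻ w in closedBall (0 : V d) 1, G (b w + t • w)
      ≤ ∫⁻ w in closedBall (0 : V d) 1,
          ENNReal.ofReal |(D w + t • ContinuousLinearMap.id ℝ (V d)).det| * G (b w + t • w) := by
        refine setLIntegral_mono' measurableSet_closedBall fun w hw => ?_
        calc G (b w + t • w) = 1 * G (b w + t • w) := (one_mul _).symm
          _ ≤ _ := by
            refine mul_le_mul' ?_ le_rfl
            rw [← ENNReal.ofReal_one]
            exact ENNReal.ofReal_le_ofReal (hdet w hw)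
    _ = ∫⁻ y in (fun w => b w + t • w) '' closedBall (0 : V d) 1, G y :=
        (lintegral_image_eq_lintegral_abs_det_fderiv_mul volume measurableSet_closedBall hder
          hinj G).symm
    _ ≤ ∫⁻ y, G y := setLIntegral_le_lintegral _ _

/-- HF-11 -/
theorem far : S_far := by
  classical
  intro d A α p hα hα1 hA hp b D g T hb hg hT hT1
  have hcont : ContinuousOn b (closedBall (0 : V d) 1) := fun x hx =>
    (hb.der x hx).continuousWithinAt
  set b' : V d → V d := (closedBall (0 : V d) 1).indicator b with hb'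
  have hmb : Measurable b' := by
    have := (hcont.measurable_piecewise (g := fun _ => (0 : V d)) continuousOn_const
      measurableSet_closedBall)
    rw [hb', ← Set.piecewise_eq_indicator]
    exact this
  have h1 : ∫⁻ w in closedBall (0 : V d) 1, ∫⁻ t in T, g (b w + t • w, t) ^ p =
      ∫⁻ w in closedBall (0 : V d) 1, ∫⁻ t in T, g (b' w + t • w, t) ^ p := by
    refine setLIntegral_congr_fun measurableSet_closedBall fun w hw => ?_
    rw [hb', Set.indicator_of_mem hw]
  rw [h1, lintegral_lintegral_swap]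
  · calc ∫⁻ t in T, ∫⁻ w in closedBall (0 : V d) 1, g (b' w + t • w, t) ^ p
        ≤ ∫⁻ t in T, ∫⁻ y, g (y, t) ^ p := by
          refine setLIntegral_mono' hT fun t ht => ?_
          have h2 : ∫⁻ w in closedBall (0 : V d) 1, g (b' w + t • w, t) ^ p =
              ∫⁻ w in closedBall (0 : V d) 1, g (b w + t • w, t) ^ p := by
            refine setLIntegral_congr_fun measurableSet_closedBall fun w hw => ?_
            rw [hb', Set.indicator_of_mem hw]
          rw [h2]
          exact far_one hA hb (hT1 t ht) fun y => g (y, t) ^ p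
      _ ≤ ∫⁻ t, ∫⁻ y, g (y, t) ^ p := setLIntegral_le_lintegral _ _
      _ = ∫⁻ z, g z ^ p := by
          rw [Measure.volume_eq_prod, lintegral_prod_symm']
          exact hg.pow_const p
  · refine Measurable.aemeasurable ?_
    refine (hg.comp (Measurable.prodMk ?_ measurable_snd)).pow_const p
    exact (hmb.comp measurable_fst).add (measurable_snd.smul measurable_fst)

end Pool.Agent.NH42.HF
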