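import Pool.Agent.NH42.HF.Stm

/-!
# Project HF, piece 8: one slab, the sum over the good cells
-/

set_option autoImplicit false

open MeasureTheory Set Metric
open scoped ENNReal

namespace Pool.Agent.NH42.HF

/-- The local estimate applied to one good cell. -/
private theorem good_cell {d : ℕ} {p A α C₁ : ℝ} (hα : 0 < α) (hA : 1 ≤ A)
    (hloc : ∀ (s ρ h t₁ : ℝ) (S : Set (V d))
      (b : V d → V d) (D : V d → (V d →L[ℝ] V d)) (D₁ : V d →L[ℝ] V d) (w₁ : V d)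
      (g : V d × ℝ → ℝ≥0∞), 0 < s → 0 < ρ → t₁ ∈ Icc h (h + s / 8) → MeasurableSet S →
      (∀ w ∈ S, ‖w - w₁‖ ≤ ρ) → (∀ w ∈ S, HasFDerivWithinAt b (D w) S w) →
      (∀ w ∈ S, ‖D w - D₁‖ ≤ s / 8) →
      (∀ w ∈ S, ∀ v ∈ S, ‖b w - b v - D₁ (w - v)‖ ≤ s / 4 * ‖w - v‖) →
      (∀ x : V d, s * ‖x‖ ≤ ‖D₁ x + t₁ • x‖) → Measurable g →
      ∫⁻ w in S, (∫⁻ t in Icc h (h + s / 8), g (b w + t • w, t)) ^ p ≤
        ENNReal.ofReal (C₁ * ρ ^ d) * ((ENNReal.ofReal ((s / 8 * ρ) ^ d))⁻¹ *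
          ⨆ u : V d, tint (s / 8) (s / 8 * ρ) h u w₁ (hav (s / 8 * ρ) p g)) ^ p)
    (htay : S_taylor) {s ρ h : ℝ} {b : V d → V d} {D : V d → (V d →L[ℝ] V d)}
    {g : V d × ℝ → ℝ≥0∞} {Q : Set (V d)} (hs : 0 < s) (hρ : 0 < ρ)
    (hAρ : A * ρ ^ α ≤ s / 16) (hH : Hol A α b D) (hg : Measurable g) (hQ : MeasurableSet Q)
    (hdiam : ∀ x ∈ Q, ∀ y ∈ Q, ‖x - y‖ ≤ ρ) {w₁ : V d} (hw₁ : w₁ ∈ Q ∩ closedBall 0 1) {t₁ : ℝ}
    (ht₁ : t₁ ∈ Icc h (h + s / 8)) (hNd : Nd s t₁ (D w₁)) :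
    ∫⁻ w in Q ∩ closedBall 0 1, (∫⁻ t in Icc h (h + s / 8), g (b w + t • w, t)) ^ p ≤
        ENNReal.ofReal (C₁ * ρ ^ d) * ((ENNReal.ofReal ((s / 8 * ρ) ^ d))⁻¹ *
          ⨆ u : V d, tint (s / 8) (s / 8 * ρ) h u w₁ (hav (s / 8 * ρ) p g)) ^ p := by
  have hA0 : 0 ≤ A := by linarith
  have hpow : ∀ x ∈ Q, ∀ y ∈ Q, A * ‖x - y‖ ^ α ≤ s / 16 := by
    intro x hx y hy
    refine le_trans (mul_le_mul_of_nonneg_left ?_ hA0) hAρ
    exact Real.rpow_le_rpow (norm_nonneg _) (hdiam x hx y hy) hα.le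
  have hD : ∀ w ∈ Q ∩ closedBall 0 1, ‖D w - D w₁‖ ≤ s / 16 := by
    intro w hw
    exact (hH.hol w₁ hw₁.2 w hw.2).trans (hpow w hw.1 w₁ hw₁.1)
  refine hloc s ρ h t₁ (Q ∩ closedBall 0 1) b D (D w₁) w₁ g hs hρ ht₁
    (hQ.inter measurableSet_closedBall) ?_ ?_ ?_ ?_ hNd hg
  · intro w hw
    exact hdiam w hw.1 w₁ hw₁.1
  · intro w hw
    exact (hH.der w hw.2).mono inter_subset_right
  · intro w hw
    exact (hD w hw).trans (by linarith)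
  · intro w hw v hv
    have h1 := htay d A α b D hα hA0 hH v hv.2 w hw.2
    have h2 : ‖(D v - D w₁) (w - v)‖ ≤ s / 16 * ‖w - v‖ :=
      ((D v - D w₁).le_opNorm _).trans (mul_le_mul_of_nonneg_right (hD v hv) (norm_nonneg _))
    have h3 : A * ‖w - v‖ ^ α * ‖w - v‖ ≤ s / 16 * ‖w - v‖ :=
      mul_le_mul_of_nonneg_right (hpow w hw.1 v hv.1) (norm_nonneg _)
    have h4 : b w - b v - D w₁ (w - v) = (b w - b v - D v (w - v)) + (D v - D w₁) (w - v) := by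
      rw [_root_.sub_apply]
      abel
    rw [h4]
    have h5 : 0 ≤ s * ‖w - v‖ := mul_nonneg hs.le (norm_nonneg _)
    calc ‖(b w - b v - D v (w - v)) + (D v - D w₁) (w - v)‖
        ≤ ‖b w - b v - D v (w - v)‖ + ‖(D v - D w₁) (w - v)‖ := norm_add_le _ _
      _ ≤ s / 16 * ‖w - v‖ + s / 16 * ‖w - v‖ := add_le_add (h1.trans h3) h2
      _ ≤ s / 4 * ‖w - v‖ := by nlinarith

/-- The powers. -/
private theorem good_exp {d : ℕ} {p θ s ρ : ℝ} (hs : 0 < s) (hρ : 0 < ρ) :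
    ((s / 8 * ρ) ^ d) ^ (-p) * ((s / 8) ^ (((d : ℝ) + 1) * (p - 1)) * ρ ^ ((d : ℝ) * p - θ)) =
      (1 / 8 : ℝ) ^ (p - 1 - d) * (s ^ (p - 1 - d) * ρ ^ (-θ)) := by
  have hl : 0 < s / 8 := by positivity
  have h1 : ((s / 8 * ρ) ^ d) ^ (-p) = (s / 8) ^ (-(d : ℝ) * p) * ρ ^ (-(d : ℝ) * p) := by
    rw [← Real.rpow_natCast, ← Real.rpow_mul (by positivity), Real.mul_rpow hl.le hρ.le]
    congr 2 <;> ring
  have h2 : (s / 8) ^ (-(d : ℝ) * p) * (s / 8) ^ (((d : ℝ) + 1) * (p - 1)) =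
      (1 / 8 : ℝ) ^ (p - 1 - d) * s ^ (p - 1 - d) := by
    rw [← Real.rpow_add hl, ← Real.mul_rpow (by norm_num) hs.le]
    congr 1
    · ring
    · ring
  have h3 : ρ ^ (-(d : ℝ) * p) * ρ ^ ((d : ℝ) * p - θ) = ρ ^ (-θ) := by
    rw [← Real.rpow_add hρ]
    congr 1
    ring
  calc _ = ((s / 8) ^ (-(d : ℝ) * p) * (s / 8) ^ (((d : ℝ) + 1) * (p - 1))) *
      (ρ ^ (-(d : ℝ) * p) * ρ ^ ((d : ℝ) * p - θ)) := by rw [h1]; ring
    _ = _ := by rw [h2, h3]; ring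

/-- HF-8: the estimate for one slab, good cells. -/
theorem good : S_good := by
  intro d p θ A α K hp hα _ hA hK hcell hlocal hhav htay
  obtain ⟨C₂, hC₂, hcell⟩ := hcell
  obtain ⟨C₁, hC₁, hloc⟩ := hlocal
  obtain ⟨C₃, hC₃, hhav⟩ := hhav d p hp.le
  refine ⟨C₁ * K * C₂ * C₃ * (1 / 8 : ℝ) ^ (p - 1 - d), by positivity, ?_⟩
  intro s ρ h b D g N Q hs _ hρ hρ16 hAρ hH hg hQ hdisj hdiam hvol I hI
  have hI' : ∀ i : {i // i ∈ I}, ∃ w ∈ Q i ∩ closedBall 0 1, ∃ t ∈ Icc h (h + s / 8),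
      Nd s t (D w) := fun i => hI i i.2
  choose w hw t ht hNd using hI'
  have hp0 : 0 ≤ p := by linarith
  set ℓ : ℝ := s / 8 with hℓ
  have hl : 0 < ℓ := by positivity
  have hx : 0 < (ℓ * ρ) ^ d := by positivity
  obtain ⟨hmeas, hav_le⟩ := hhav (ℓ * ρ) ℓ h g (by positivity) hg
  set T : {i // i ∈ I} → ℝ≥0∞ := fun i => ⨆ u : V d, tint ℓ (ℓ * ρ) h u (w i) (hav (ℓ * ρ) p g)
    with hT
  have hcell' := hcell ℓ ρ h hl hρ hρ16 {i // i ∈ I} (fun i => Q i) w (fun i => hQ i)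
    (fun i j hij => hdisj (fun e => hij (Subtype.ext e)))
    (fun i x hx => hdiam i x hx (w i) (hw i).1)
    (fun i => by simpa using (hw i).2) (hav (ℓ * ρ) p g) hmeas
  have hone : ∀ i : {i // i ∈ I},
      ∫⁻ v in Q i ∩ closedBall 0 1, (∫⁻ t in Icc h (h + ℓ), g (b v + t • v, t)) ^ p ≤
        ENNReal.ofReal (C₁ * K * ((ℓ * ρ) ^ d) ^ (-p)) * (volume (Q i) * T i ^ p) := by
    intro i
    refine (good_cell hα hA hloc htay hs hρ hAρ hH hg (hQ i) (hdiam i) (hw i) (ht i)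
      (hNd i)).trans ?_
    rw [ENNReal.mul_rpow_of_nonneg _ _ hp0]
    have e1 : ((ENNReal.ofReal ((s / 8 * ρ) ^ d))⁻¹) ^ p =
        ENNReal.ofReal (((ℓ * ρ) ^ d) ^ (-p)) := by
      rw [← hℓ, ← ENNReal.ofReal_rpow_of_pos hx, ENNReal.rpow_neg, ENNReal.inv_rpow]
    rw [e1, ENNReal.ofReal_mul hC₁.le, ENNReal.ofReal_mul (by positivity),
      ENNReal.ofReal_mul hC₁.le]
    calc ENNReal.ofReal C₁ * ENNReal.ofReal (ρ ^ d) *
          (ENNReal.ofReal (((ℓ * ρ) ^ d) ^ (-p)) * T i ^ p)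
        ≤ ENNReal.ofReal C₁ * (ENNReal.ofReal K * volume (Q i)) *
          (ENNReal.ofReal (((ℓ * ρ) ^ d) ^ (-p)) * T i ^ p) := by
          gcongr
          exact hvol i
      _ = _ := by ring
  calc ∑ i ∈ I, ∫⁻ v in Q i ∩ closedBall 0 1, (∫⁻ t in Icc h (h + ℓ), g (b v + t • v, t)) ^ p
      = ∑ i : {i // i ∈ I},
        ∫⁻ v in Q i ∩ closedBall 0 1, (∫⁻ t in Icc h (h + ℓ), g (b v + t • v, t)) ^ p := by
        rw [← Finset.sum_coe_sort]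
    _ ≤ ∑ i : {i // i ∈ I}, ENNReal.ofReal (C₁ * K * ((ℓ * ρ) ^ d) ^ (-p)) *
          (volume (Q i) * T i ^ p) := Finset.sum_le_sum fun i _ => hone i
    _ = ENNReal.ofReal (C₁ * K * ((ℓ * ρ) ^ d) ^ (-p)) *
          ∑ i : {i // i ∈ I}, volume (Q i) * T i ^ p := by rw [Finset.mul_sum]
    _ ≤ ENNReal.ofReal (C₁ * K * ((ℓ * ρ) ^ d) ^ (-p)) *
          (ENNReal.ofReal (C₂ * (ℓ ^ (((d : ℝ) + 1) * (p - 1)) * ρ ^ ((d : ℝ) * p - θ))) *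
            (ENNReal.ofReal C₃ * sint ℓ h (fun z => g z ^ p))) := by
        gcongr
        exact hcell'.trans (mul_le_mul_right hav_le _)
    _ = ENNReal.ofReal (C₁ * K * C₂ * C₃ * (1 / 8 : ℝ) ^ (p - 1 - d) *
          (s ^ (p - 1 - d) * ρ ^ (-θ))) * sint ℓ h (fun z => g z ^ p) := by
        rw [← mul_assoc, ← mul_assoc, ← ENNReal.ofReal_mul (by positivity),
          ← ENNReal.ofReal_mul (by positivity)]
        congr 2
        have := good_exp (d := d) (p := p) (θ := θ) hs hρ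
        rw [← hℓ] at this
        calc _ = C₁ * K * C₂ * C₃ * (((ℓ * ρ) ^ d) ^ (-p) *
            (ℓ ^ (((d : ℝ) + 1) * (p - 1)) * ρ ^ ((d : ℝ) * p - θ))) := by ring
          _ = _ := by rw [this]; ring

end Pool.Agent.NH42.HF
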