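import Pool.Agent.NH42.HF.Stm

/-!
# Project HF: horizontal averages (HF-6) and cells (HF-7), by helper45
-/

set_option autoImplicit false

open MeasureTheory Set Metric
open scoped ENNReal Classical

namespace Pool.Agent.NH42.HF

/-! ### horizontal averages -/

private theorem meas_F {d : ℕ} (r p : ℝ) {g : V d × ℝ → ℝ≥0∞} (hg : Measurable g) :
    Measurable fun w : (V d × ℝ) × V d =>
      if w.2 ∈ closedBall w.1.1 (5 * r) then g (w.2, w.1.2) ^ p else 0 := by
  apply Measurable.ite
  · have h1 : Continuous fun w : (V d × ℝ) × V d => dist w.2 w.1.1 := by fun_prop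
    exact (isClosed_le h1 continuous_const).measurableSet
  · exact (hg.comp (measurable_snd.prodMk (measurable_snd.comp measurable_fst))).pow_const p
  · exact measurable_const

private theorem ind_eq {d : ℕ} (r p : ℝ) (g : V d × ℝ → ℝ≥0∞) (z : V d) (t : ℝ) :
    ∫⁻ y in closedBall z (5 * r), g (y, t) ^ p =
      ∫⁻ y, if y ∈ closedBall z (5 * r) then g (y, t) ^ p else 0 := by
  rw [← lintegral_indicator measurableSet_closedBall]
  rfl

private theorem hav_meas {d : ℕ} (r p : ℝ) {g : V d × ℝ → ℝ≥0∞} (hg : Measurable g) :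
    Measurable (hav r p g) := by
  unfold hav
  apply Measurable.pow_const
  apply Measurable.const_mul
  have h1 := (meas_F r p hg).lintegral_prod_right' (ν := (volume : Measure (V d)))
  simp only [ind_eq]
  exact h1

private theorem slice {d : ℕ} {r p : ℝ} (hr : 0 < r) {g : V d × ℝ → ℝ≥0∞} (hg : Measurable g)
    (t : ℝ) : ∫⁻ z : V d, ∫⁻ y in closedBall z (5 * r), g (y, t) ^ p =
      (ENNReal.ofReal ((5 * r) ^ d) * volume (ball (0 : V d) 1)) * ∫⁻ y : V d, g (y, t) ^ p := by
  simp only [ind_eq]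
  rw [lintegral_lintegral_swap]
  · have h1 : ∀ y : V d, ∫⁻ z : V d, (if y ∈ closedBall z (5 * r) then g (y, t) ^ p else 0) =
        (ENNReal.ofReal ((5 * r) ^ d) * volume (ball (0 : V d) 1)) * g (y, t) ^ p := by
      intro y
      have h2 : ∀ z : V d, (if y ∈ closedBall z (5 * r) then g (y, t) ^ p else 0) =
          (closedBall y (5 * r)).indicator (fun _ => g (y, t) ^ p) z := by
        intro z
        unfold Set.indicator
        simp only [mem_closedBall, dist_comm]
      simp only [h2]
      rw [lintegral_indicator measurableSet_closedBall, lintegral_const, Measure.restrict_apply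
        MeasurableSet.univ, univ_inter, Measure.addHaar_closedBall _ _ (by positivity),
        finrank_euclideanSpace_fin, mul_comm]
    simp only [h1]
    have h5 : Measurable fun y : V d => g (y, t) := hg.comp (measurable_id.prodMk measurable_const)
    rw [lintegral_const_mul _ (h5.pow_const p)]
  · apply Measurable.aemeasurable
    have h3 : Measurable fun q : V d × V d => (((q.1, t), q.2) : (V d × ℝ) × V d) :=
      (measurable_fst.prodMk measurable_const).prodMk measurable_snd
    have h4 := (meas_F r p hg).comp h3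
    exact h4

theorem hav_est : S_hav := by
  intro d p hp
  have hv : volume (ball (0 : V d) 1) ≠ ∞ := measure_ball_lt_top.ne
  set κ := (volume (ball (0 : V d) 1)).toReal with hκ
  have hκ0 : 0 ≤ κ := ENNReal.toReal_nonneg
  refine ⟨5 ^ d * κ + 1, by positivity, ?_⟩
  intro r ℓ h g hr hg
  refine ⟨hav_meas r p hg, ?_⟩
  unfold sint
  have h0 : ∀ t : ℝ, ∫⁻ y : V d, hav r p g (y, t) ^ p ≤
      ENNReal.ofReal (5 ^ d * κ + 1) * ∫⁻ y : V d, g (y, t) ^ p := by
    intro t
    have h1 : ∀ y : V d, hav r p g (y, t) ^ p =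
        (ENNReal.ofReal (r ^ d))⁻¹ * ∫⁻ z in closedBall y (5 * r), g (z, t) ^ p := by
      intro y
      unfold hav
      rw [← ENNReal.rpow_mul, one_div, inv_mul_cancel₀ (by positivity : p ≠ 0), ENNReal.rpow_one]
    simp only [h1]
    have hrd : 0 < r ^ d := by positivity
    rw [lintegral_const_mul' _ _ (by
      rw [Ne, ENNReal.inv_eq_top, ENNReal.ofReal_eq_zero]
      linarith), slice hr hg t, ← mul_assoc]
    gcongr
    rw [mul_pow, ENNReal.ofReal_mul (by positivity), ← mul_assoc, mul_comm (ENNReal.ofReal (5 ^ d)),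
      ← mul_assoc, ENNReal.inv_mul_cancel (by
        rw [Ne, ENNReal.ofReal_eq_zero]
        linarith) ENNReal.ofReal_ne_top, one_mul]
    rw [← ENNReal.ofReal_toReal hv, ← hκ, ← ENNReal.ofReal_mul (by positivity)]
    apply ENNReal.ofReal_le_ofReal
    linarith
  calc ∫⁻ t in Icc h (h + ℓ), ∫⁻ y : V d, hav r p g (y, t) ^ p
      ≤ ∫⁻ t in Icc h (h + ℓ), ENNReal.ofReal (5 ^ d * κ + 1) * ∫⁻ y : V d, g (y, t) ^ p :=
        lintegral_mono fun t => h0 t
    _ = _ := lintegral_const_mul' _ _ ENNReal.ofReal_ne_top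

/-! ### cells -/

private theorem cube_vol {d : ℕ} (a : ℝ) (ha : 0 < a) (c : Fin d → ℝ) :
    MeasurableSet {x : V d | ∀ j, c j ≤ x j ∧ x j < c j + a} ∧
      volume {x : V d | ∀ j, c j ≤ x j ∧ x j < c j + a} = ENNReal.ofReal (a ^ d) := by
  have h1 : {x : V d | ∀ j, c j ≤ x j ∧ x j < c j + a} =
      (WithLp.ofLp : V d → (Fin d → ℝ)) ⁻¹' (Set.pi univ fun j => Ico (c j) (c j + a)) := by
    ext x
    simp
  have h2 : MeasurableSet (Set.pi univ fun j => Ico (c j) (c j + a)) :=
    MeasurableSet.univ_pi fun j => measurableSet_Ico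
  have h3 := PiLp.volume_preserving_ofLp (Fin d)
  constructor
  · rw [h1]
    exact h3.measurable h2
  · rw [h1, h3.measure_preimage h2.nullMeasurableSet, Real.volume_pi_Ico]
    simp [ENNReal.ofReal_pow ha.le]

theorem cells : S_cells := by
  intro d
  have hd1 : (0 : ℝ) < (d : ℝ) + 1 := by positivity
  refine ⟨((d : ℝ) + 1) ^ d, by positivity, ?_⟩
  intro ρ hρ hρ1
  set a : ℝ := ρ / ((d : ℝ) + 1) with ha
  have ha0 : 0 < a := by positivity
  set m : ℕ := ⌈1 / a⌉₊ + 1 with hm
  set c : (Fin d → Fin (2 * m)) → Fin d → ℝ := fun k j => a * (((k j : ℕ) : ℝ) - m) with hc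
  set R : (Fin d → Fin (2 * m)) → Set (V d) :=
    fun k => {x : V d | ∀ j, c k j ≤ x j ∧ x j < c k j + a} with hR
  set e := (Fintype.equivFin (Fin d → Fin (2 * m))).symm with he
  have hfl : ∀ k : Fin d → Fin (2 * m), ∀ x ∈ R k, ∀ j, ⌊x j / a⌋ = ((k j : ℕ) : ℤ) - m := by
    intro k x hx j
    obtain ⟨h1, h2⟩ := hx j
    rw [Int.floor_eq_iff]
    push_cast
    rw [le_div_iff₀ ha0, div_lt_iff₀ ha0]
    constructor
    · rw [hc] at h1
      simp only at h1
      linarith
    · rw [hc] at h2
      simp only at h2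
      linarith
  refine ⟨Fintype.card (Fin d → Fin (2 * m)), fun i => R (e i), ?_, ?_, ?_, ?_, ?_⟩
  · intro i
    exact (cube_vol a ha0 (c (e i))).1
  · intro i i' hii
    unfold Function.onFun
    rw [Set.disjoint_left]
    intro x hx hx'
    apply hii
    apply e.injective
    funext j
    have h1 := hfl _ x hx j
    have h2 := hfl _ x hx' j
    rw [h1] at h2
    apply Fin.ext
    omega
  · intro x hx
    rw [mem_closedBall, dist_zero_right] at hx
    have hj : ∀ j, |x j| ≤ 1 := fun j => by
      have := PiLp.norm_apply_le x j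
      rw [Real.norm_eq_abs] at this
      linarith
    have hle : (1 : ℝ) / a ≤ ⌈1 / a⌉₊ := Nat.le_ceil _
    have hb : ∀ j, -((⌈1 / a⌉₊ : ℕ) : ℤ) ≤ ⌊x j / a⌋ ∧ ⌊x j / a⌋ ≤ ((⌈1 / a⌉₊ : ℕ) : ℤ) := by
      intro j
      have h1 := abs_le.1 (hj j)
      constructor
      · apply Int.le_floor.2
        push_cast
        rw [le_div_iff₀ ha0]
        have h2 : (1 : ℝ) ≤ (⌈1 / a⌉₊ : ℝ) * a := by
          rw [div_le_iff₀ ha0] at hle
          exact hle
        linarith
      · have h3 : (⌊x j / a⌋ : ℝ) ≤ (⌈1 / a⌉₊ : ℝ) := by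
          refine (Int.floor_le _).trans (le_trans ?_ hle)
          exact div_le_div_of_nonneg_right h1.2 ha0.le
        exact_mod_cast h3
    set k : Fin d → Fin (2 * m) := fun j => ⟨(⌊x j / a⌋ + m).toNat, by
      have := hb j
      omega⟩ with hk
    rw [mem_iUnion]
    refine ⟨e.symm k, ?_⟩
    simp only [Equiv.apply_symm_apply]
    intro j
    have h4 : (((k j : ℕ) : ℝ)) = (⌊x j / a⌋ : ℝ) + m := by
      have h5 : (((k j : ℕ) : ℤ)) = ⌊x j / a⌋ + m := by
        rw [hk]
        simp only
        rw [Int.toNat_of_nonneg]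
        have := hb j
        omega
      exact_mod_cast h5
    have h6 := Int.floor_le (x j / a)
    have h7 := Int.lt_floor_add_one (x j / a)
    rw [le_div_iff₀ ha0] at h6
    rw [div_lt_iff₀ ha0] at h7
    rw [hc]
    simp only [h4]
    constructor
    · linarith
    · linarith
  · intro i x hx y hy
    have h1 : ∀ j, |(x - y) j| ≤ a := by
      intro j
      obtain ⟨h2, h3⟩ := hx j
      obtain ⟨h4, h5⟩ := hy j
      rw [abs_le]
      simp only [PiLp.sub_apply]
      constructor <;> linarith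
    have h2 : ‖x - y‖ ^ 2 ≤ ρ ^ 2 := by
      rw [EuclideanSpace.norm_sq_eq]
      calc ∑ j, ‖(x - y) j‖ ^ 2 ≤ ∑ _j : Fin d, a ^ 2 := by
            refine Finset.sum_le_sum fun j _ => ?_
            rw [Real.norm_eq_abs]
            exact pow_le_pow_left₀ (abs_nonneg _) (h1 j) 2
        _ = d * a ^ 2 := by simp
        _ ≤ ((d : ℝ) + 1) ^ 2 * a ^ 2 := by
            have : (0 : ℝ) ≤ d := Nat.cast_nonneg d
            exact mul_le_mul_of_nonneg_right (by nlinarith) (sq_nonneg a)
        _ = ρ ^ 2 := by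
            rw [ha]
            field_simp
    exact le_of_sq_le_sq h2 hρ.le
  · intro i
    rw [(cube_vol a ha0 (c (e i))).2, ← ENNReal.ofReal_mul (by positivity), ← mul_pow, ha]
    apply le_of_eq
    congr 2
    field_simp

end Pool.Agent.NH42.HF
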