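import Pool.Agent.NH42.HF.Stm
import Pool.Agent.H438R2.PD.A5

/-!
# Project HF, job HF-5: the local estimate
-/

set_option autoImplicit false

open MeasureTheory Set Metric
open scoped ENNReal

namespace Pool.Agent.NH42.HF

namespace Loc

open Pool.Agent.H438R2.PD.A5 (mink)

/-- comparison of determinants -/
theorem det_le {d : ℕ} (L M : V d →L[ℝ] V d) (c : ℝ) (hc : 0 < c)
    (hM : LinearMap.det (M : V d →ₗ[ℝ] V d) ≠ 0) (h : ∀ x, c * ‖M x‖ ≤ ‖L x‖) :
    c ^ d * |LinearMap.det (M : V d →ₗ[ℝ] V d)| ≤ |L.det| := by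
  have hinj : ∀ x, M x = 0 → x = 0 := by
    intro x hx
    by_contra hne
    have h1 : LinearMap.ker (M : V d →ₗ[ℝ] V d) = ⊥ := by
      have h2 := LinearMap.isUnit_iff_ker_eq_bot (M : V d →ₗ[ℝ] V d)
      exact h2.1 ((LinearMap.isUnit_iff_isUnit_det _).2 (isUnit_iff_ne_zero.2 hM))
    have h2 : x ∈ LinearMap.ker (M : V d →ₗ[ℝ] V d) := hx
    rw [h1] at h2
    exact hne ((Submodule.mem_bot ℝ).1 h2)
  have hL : LinearMap.det (L : V d →ₗ[ℝ] V d) ≠ 0 := by
    intro h0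
    have h1 := LinearMap.bot_lt_ker_of_det_eq_zero h0
    apply h1.ne'
    rw [eq_bot_iff]
    intro x hx
    have h2 : L x = 0 := hx
    have h3 := h x
    rw [h2, norm_zero] at h3
    have h4 : ‖M x‖ = 0 := by
      have h5 := norm_nonneg (M x)
      nlinarith
    exact (Submodule.mem_bot ℝ).2 (hinj x (norm_eq_zero.1 h4))
  have hsub : ((L : V d →ₗ[ℝ] V d) ⁻¹' closedBall (0 : V d) c) ⊆
      ((M : V d →ₗ[ℝ] V d) ⁻¹' closedBall (0 : V d) 1) := by
    intro x hx
    rw [mem_preimage, mem_closedBall_zero_iff] at hx ⊢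
    have h1 : ‖L x‖ ≤ c := hx
    have h2 := h x
    change ‖M x‖ ≤ 1
    have h3 : c * ‖M x‖ ≤ c * 1 := by linarith
    exact le_of_mul_le_mul_left h3 hc
  have hvol := measure_mono (μ := (volume : Measure (V d))) hsub
  rw [Measure.addHaar_preimage_linearMap _ hL, Measure.addHaar_preimage_linearMap _ hM,
    Measure.addHaar_closedBall _ _ hc.le, Measure.addHaar_closedBall _ _ (zero_le_one),
    ← mul_assoc, ← mul_assoc, finrank_euclideanSpace_fin, one_pow, ENNReal.ofReal_one,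
    mul_one] at hvol
  have hom0 : volume (ball (0 : V d) 1) ≠ 0 := (measure_ball_pos _ _ zero_lt_one).ne'
  have homt : volume (ball (0 : V d) 1) ≠ ∞ := measure_ball_lt_top.ne
  have h1 := (ENNReal.mul_le_mul_iff_left hom0 homt).1 hvol
  rw [← ENNReal.ofReal_mul (abs_nonneg _), ENNReal.ofReal_le_ofReal_iff (abs_nonneg _),
    abs_inv, abs_inv] at h1
  have hLp : 0 < |LinearMap.det (L : V d →ₗ[ℝ] V d)| := abs_pos.2 hL
  have hMp : 0 < |LinearMap.det (M : V d →ₗ[ℝ] V d)| := abs_pos.2 hM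
  change _ ≤ |LinearMap.det (L : V d →ₗ[ℝ] V d)|
  have h2 := mul_le_mul_of_nonneg_left h1 (mul_pos hLp hMp).le
  calc c ^ d * |LinearMap.det (M : V d →ₗ[ℝ] V d)|
      = |LinearMap.det (L : V d →ₗ[ℝ] V d)| * |LinearMap.det (M : V d →ₗ[ℝ] V d)| *
          (|LinearMap.det (L : V d →ₗ[ℝ] V d)|⁻¹ * c ^ d) := by
        field_simp
    _ ≤ _ := h2
    _ = |LinearMap.det (L : V d →ₗ[ℝ] V d)| := by
        field_simp

/-- averaging over translates -/
theorem avg {d : ℕ} (S E B : Set (V d)) (hS : MeasurableSet S) (hE : MeasurableSet E)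
    (hB : MeasurableSet B) (Φ : V d → ℝ≥0∞) (hΦ : Measurable Φ) (K : ℝ≥0∞)
    (h1 : ∀ w₀ : V d, ∫⁻ w in S ∩ {w | w - w₀ ∈ E}, Φ w ≤ K)
    (h2 : ∀ w₀ : V d, w₀ ∉ B → S ∩ {w | w - w₀ ∈ E} = ∅) :
    volume E * ∫⁻ w in S, Φ w ≤ K * volume B := by
  obtain ⟨χ, hχ⟩ : ∃ χ : V d → ℝ≥0∞, χ = E.indicator (fun _ => 1) := ⟨_, rfl⟩
  have hχm : Measurable χ := by
    rw [hχ]
    exact measurable_const.indicator hE
  have hint : ∫⁻ x, χ x = volume E := by
    rw [hχ, lintegral_indicator hE, setLIntegral_const, one_mul]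
  have hΦS : Measurable (S.indicator Φ) := hΦ.indicator hS
  have hm : Measurable (Function.uncurry fun w₀ w : V d => χ (w - w₀) * S.indicator Φ w) := by
    exact (hχm.comp (measurable_snd.sub measurable_fst)).mul (hΦS.comp measurable_snd)
  have hswap : ∫⁻ w₀ : V d, ∫⁻ w : V d, χ (w - w₀) * S.indicator Φ w =
      ∫⁻ w : V d, ∫⁻ w₀ : V d, χ (w - w₀) * S.indicator Φ w :=
    lintegral_lintegral_swap hm.aemeasurable
  have hright : ∫⁻ w : V d, ∫⁻ w₀ : V d, χ (w - w₀) * S.indicator Φ w =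
      volume E * ∫⁻ w in S, Φ w := by
    rw [← lintegral_indicator hS, ← lintegral_const_mul _ hΦS]
    refine lintegral_congr fun w => ?_
    rw [lintegral_mul_const]
    · rw [lintegral_sub_left_eq_self χ w, hint]
    · exact hχm.comp (measurable_const.sub measurable_id)
  have hin : ∀ w₀ : V d, ∫⁻ w : V d, χ (w - w₀) * S.indicator Φ w =
      ∫⁻ w in S ∩ {w | w - w₀ ∈ E}, Φ w := by
    intro w₀
    have hm2 : MeasurableSet (S ∩ {w | w - w₀ ∈ E}) :=
      hS.inter (hE.preimage (measurable_id.sub measurable_const))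
    rw [← lintegral_indicator hm2]
    refine lintegral_congr fun w => ?_
    rw [hχ]
    by_cases hw : w ∈ S
    · by_cases hw2 : w - w₀ ∈ E
      · have h3 : w ∈ S ∩ {w | w - w₀ ∈ E} := ⟨hw, hw2⟩
        rw [indicator_of_mem hw2, indicator_of_mem hw, indicator_of_mem h3, one_mul]
      · have h3 : w ∉ S ∩ {w | w - w₀ ∈ E} := fun h => hw2 h.2
        rw [indicator_of_notMem hw2, indicator_of_notMem h3, zero_mul]
    · have h3 : w ∉ S ∩ {w | w - w₀ ∈ E} := fun h => hw h.1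
      rw [indicator_of_notMem hw, indicator_of_notMem h3, mul_zero]
  rw [← hright, ← hswap]
  calc ∫⁻ w₀ : V d, ∫⁻ w : V d, χ (w - w₀) * S.indicator Φ w
      ≤ ∫⁻ w₀ : V d, B.indicator (fun _ => K) w₀ := by
        refine lintegral_mono fun w₀ => ?_
        change ∫⁻ w : V d, χ (w - w₀) * S.indicator Φ w ≤ B.indicator (fun _ => K) w₀
        rw [hin]
        by_cases hw : w₀ ∈ B
        · rw [indicator_of_mem hw]
          exact h1 w₀
        · rw [h2 w₀ hw, Measure.restrict_empty, lintegral_zero_measure]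
          exact zero_le
    _ = K * volume B := by
        rw [lintegral_indicator hB, setLIntegral_const]

/-- the change of variables on a piece -/
theorem chg {d : ℕ} (S₀ : Set (V d)) (hS₀ : MeasurableSet S₀) (f : V d → V d)
    (f' : V d → (V d →L[ℝ] V d)) (hf : ∀ x ∈ S₀, HasFDerivWithinAt f (f' x) S₀ x)
    (hinj : InjOn f S₀) (c : ℝ) (hc : 0 < c) (hdet : ∀ x ∈ S₀, c ≤ |(f' x).det|)
    (G : V d → ℝ≥0∞) :
    ∫⁻ w in S₀, G (f w) ≤ (ENNReal.ofReal c)⁻¹ * ∫⁻ y in f '' S₀, G y := by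
  have h1 : ENNReal.ofReal c ≠ 0 := by
    rw [Ne, ENNReal.ofReal_eq_zero, not_le]
    exact hc
  rw [lintegral_image_eq_lintegral_abs_det_fderiv_mul volume hS₀ hf hinj G]
  calc ∫⁻ w in S₀, G (f w)
      = (ENNReal.ofReal c)⁻¹ * (ENNReal.ofReal c * ∫⁻ w in S₀, G (f w)) := by
        rw [← mul_assoc, ENNReal.inv_mul_cancel h1 ENNReal.ofReal_ne_top, one_mul]
    _ = (ENNReal.ofReal c)⁻¹ * ∫⁻ w in S₀, ENNReal.ofReal c * G (f w) := by
        rw [lintegral_const_mul' _ _ ENNReal.ofReal_ne_top]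
    _ ≤ _ := by
        refine mul_le_mul' le_rfl (setLIntegral_mono' hS₀ fun w hw => ?_)
        gcongr
        exact hdet w hw

/-- the integral over a set of small diameter is bounded by the average of `hav` -/
theorem tube {d : ℕ} (p r : ℝ) (hp : 1 < p) (hr : 0 < r) (g : V d × ℝ → ℝ≥0∞) (t : ℝ)
    (a : V d) (Y : Set (V d)) (hY : Y ⊆ closedBall a (4 * r)) :
    (∫⁻ y in Y, g (y, t) ^ p) ^ (1 / p) * volume (closedBall (0 : V d) r) ≤
      ENNReal.ofReal (r ^ d) ^ (1 / p) * ∫⁻ y in closedBall a r, hav r p g (y, t) := by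
  have hp0 : 0 < p := by linarith
  have hR : 0 < r ^ d := pow_pos hr d
  have hR0 : ENNReal.ofReal (r ^ d) ≠ 0 := by
    rw [Ne, ENNReal.ofReal_eq_zero, not_le]
    exact hR
  have h0 : volume (closedBall (0 : V d) r) = volume (closedBall a r) := by
    rw [Measure.addHaar_closedBall _ _ hr.le, Measure.addHaar_closedBall _ _ hr.le]
  have hRt : ENNReal.ofReal (r ^ d) ^ (1 / p) ≠ ∞ :=
    ENNReal.rpow_ne_top_of_nonneg (by positivity) ENNReal.ofReal_ne_top
  rw [h0, ← setLIntegral_const, ← lintegral_const_mul' _ _ hRt]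
  refine setLIntegral_mono' measurableSet_closedBall fun y hy => ?_
  unfold hav
  rw [← ENNReal.mul_rpow_of_nonneg _ _ (by positivity), ← mul_assoc,
    ENNReal.mul_inv_cancel hR0 ENNReal.ofReal_ne_top, one_mul]
  apply ENNReal.rpow_le_rpow _ (by positivity)
  apply lintegral_mono_set
  intro z hz
  have h1 := hY hz
  rw [mem_closedBall] at h1 hy ⊢
  calc dist z y ≤ dist z a + dist a y := dist_triangle _ _ _
    _ ≤ 4 * r + r := by
        rw [dist_comm a y]
        exact add_le_add h1 hy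
    _ = 5 * r := by ring

end Loc

open Loc Pool.Agent.H438R2.PD.A5 in
theorem local_est : S_local := by
  classical
  intro d p hp
  have hp0 : 0 < p := by linarith
  obtain ⟨om, hom⟩ : ∃ om : ℝ≥0∞, om = volume (ball (0 : V d) 1) := ⟨_, rfl⟩
  have hom0 : om ≠ 0 := by
    rw [hom]
    exact (measure_ball_pos _ _ zero_lt_one).ne'
  have homt : om ≠ ∞ := by
    rw [hom]
    exact measure_ball_lt_top.ne
  have ho : 0 < om.toReal := ENNReal.toReal_pos hom0 homt
  refine ⟨(4 / 3) ^ d * 2 ^ d * (om.toReal⁻¹) ^ p, by positivity, ?_⟩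
  intro s ρ h t₁ S b D D₁ w₁ g hs hρ ht₁ hS hSw hder hD hb hM g_m
  obtain ⟨r, hr⟩ : ∃ r : ℝ, r = s / 8 * ρ := ⟨_, rfl⟩
  have hr0 : 0 < r := by rw [hr]; positivity
  rw [← hr]
  obtain ⟨T, hT⟩ : ∃ T : ℝ≥0∞, T = ⨆ u : V d, tint (s / 8) r h u w₁ (hav r p g) := ⟨_, rfl⟩
  rw [← hT]
  obtain ⟨M, hMdef⟩ : ∃ M : V d →L[ℝ] V d, M = D₁ + t₁ • ContinuousLinearMap.id ℝ (V d) :=
    ⟨_, rfl⟩
  have hMx : ∀ x, M x = D₁ x + t₁ • x := by
    intro x
    rw [hMdef]
    rfl
  have hMlow : ∀ x, s * ‖x‖ ≤ ‖M x‖ := by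
    intro x
    rw [hMx]
    exact hM x
  have hdetM : LinearMap.det (M : V d →ₗ[ℝ] V d) ≠ 0 := by
    intro h0
    have h1 := LinearMap.bot_lt_ker_of_det_eq_zero h0
    apply h1.ne'
    rw [eq_bot_iff]
    intro x hx
    have h2 : M x = 0 := hx
    have h3 := hMlow x
    rw [h2, norm_zero] at h3
    have h4 : ‖x‖ = 0 := by
      have h5 := norm_nonneg x
      nlinarith
    exact (Submodule.mem_bot ℝ).2 (norm_eq_zero.1 h4)
  obtain ⟨a, ha⟩ : ∃ a : ℝ, a = |LinearMap.det (M : V d →ₗ[ℝ] V d)| := ⟨_, rfl⟩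
  have ha0 : 0 < a := by rw [ha]; exact abs_pos.2 hdetM
  have hJ : ∀ t ∈ Icc h (h + s / 8), |t - t₁| ≤ s / 8 := by
    intro t ht
    rw [abs_le]
    constructor <;> linarith [ht.1, ht.2, ht₁.1, ht₁.2]
  -- the maps are close to `M`
  have hF : ∀ t ∈ Icc h (h + s / 8), ∀ w ∈ S, ∀ v ∈ S,
      ‖(b w + t • w) - (b v + t • v) - M (w - v)‖ ≤ 3 / 8 * ‖M (w - v)‖ := by
    intro t ht w hw v hv
    have e1 : (b w + t • w) - (b v + t • v) - M (w - v) =
        (b w - b v - D₁ (w - v)) + (t - t₁) • (w - v) := by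
      rw [hMx, sub_smul, smul_sub, smul_sub]
      abel
    rw [e1]
    calc ‖(b w - b v - D₁ (w - v)) + (t - t₁) • (w - v)‖
        ≤ s / 4 * ‖w - v‖ + s / 8 * ‖w - v‖ := by
          refine (norm_add_le _ _).trans (add_le_add (hb w hw v hv) ?_)
          rw [norm_smul, Real.norm_eq_abs]
          exact mul_le_mul_of_nonneg_right (hJ t ht) (norm_nonneg _)
      _ = 3 / 8 * (s * ‖w - v‖) := by ring
      _ ≤ 3 / 8 * ‖M (w - v)‖ := by linarith [hMlow (w - v)]
  have hFinj : ∀ t ∈ Icc h (h + s / 8), InjOn (fun w => b w + t • w) S := by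
    intro t ht w hw v hv hwv
    have h1 := hF t ht w hw v hv
    have h2 : (b w + t • w) - (b v + t • v) = 0 := sub_eq_zero.2 hwv
    rw [h2, zero_sub, norm_neg] at h1
    have h3 : ‖M (w - v)‖ = 0 := by
      have := norm_nonneg (M (w - v))
      linarith
    have h4 := hMlow (w - v)
    rw [h3] at h4
    have h5 : ‖w - v‖ = 0 := by
      have := norm_nonneg (w - v)
      nlinarith
    exact sub_eq_zero.1 (norm_eq_zero.1 h5)
  have hFup : ∀ t ∈ Icc h (h + s / 8), ∀ w ∈ S, ∀ v ∈ S,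
      ‖(b w + t • w) - (b v + t • v)‖ ≤ 11 / 8 * ‖M (w - v)‖ := by
    intro t ht w hw v hv
    have h1 := hF t ht w hw v hv
    have h2 : (b w + t • w) - (b v + t • v) =
        ((b w + t • w) - (b v + t • v) - M (w - v)) + M (w - v) := by abel
    rw [h2]
    refine (norm_add_le _ _).trans ?_
    linarith
  have hFder : ∀ t : ℝ, ∀ w ∈ S, HasFDerivWithinAt (fun w => b w + t • w)
      (D w + t • ContinuousLinearMap.id ℝ (V d)) S w := by
    intro t w hw
    exact (hder w hw).add ((hasFDerivWithinAt_id w S).const_smul t)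
  have hFdet : ∀ t ∈ Icc h (h + s / 8), ∀ w ∈ S, (3 / 4) ^ d * a ≤
      |(D w + t • ContinuousLinearMap.id ℝ (V d)).det| := by
    intro t ht w hw
    rw [ha]
    refine det_le _ M (3 / 4) (by norm_num) hdetM fun x => ?_
    have e1 : (D w + t • ContinuousLinearMap.id ℝ (V d)) x =
        M x + ((D w - D₁) x + (t - t₁) • x) := by
      rw [hMx]
      change D w x + t • x = D₁ x + t₁ • x + (D w x - D₁ x + (t - t₁) • x)
      rw [sub_smul]
      abel
    have e2 : ‖(D w - D₁) x + (t - t₁) • x‖ ≤ 1 / 4 * ‖M x‖ := by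
      calc ‖(D w - D₁) x + (t - t₁) • x‖ ≤ s / 8 * ‖x‖ + s / 8 * ‖x‖ := by
            refine (norm_add_le _ _).trans (add_le_add ?_ ?_)
            · exact ((D w - D₁).le_opNorm x).trans
                (mul_le_mul_of_nonneg_right (hD w hw) (norm_nonneg _))
            · rw [norm_smul, Real.norm_eq_abs]
              exact mul_le_mul_of_nonneg_right (hJ t ht) (norm_nonneg _)
        _ = 1 / 4 * (s * ‖x‖) := by ring
        _ ≤ 1 / 4 * ‖M x‖ := by linarith [hMlow x]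
    rw [e1]
    have e3 : ‖M x‖ ≤ ‖M x + ((D w - D₁) x + (t - t₁) • x)‖ + ‖(D w - D₁) x + (t - t₁) • x‖ := by
      have := norm_sub_le (M x + ((D w - D₁) x + (t - t₁) • x)) ((D w - D₁) x + (t - t₁) • x)
      rwa [add_sub_cancel_right] at this
    linarith
  -- the measurable extension of `b`
  obtain ⟨b', hb'⟩ : ∃ b' : V d → V d, b' = S.indicator b := ⟨_, rfl⟩
  have hb'm : Measurable b' := by
    rw [hb', ← Set.piecewise_eq_indicator]
    exact ContinuousOn.measurable_piecewise (fun w hw => (hder w hw).continuousWithinAt)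
      continuousOn_const hS
  have hb'S : ∀ w ∈ S, b' w = b w := by
    intro w hw
    rw [hb', indicator_of_mem hw]
  have hgm : Measurable (Function.uncurry fun (w : V d) (t : ℝ) => g (b' w + t • w, t)) := by
    apply g_m.comp
    exact ((hb'm.comp measurable_fst).add (measurable_snd.smul measurable_fst)).prodMk
      measurable_snd
  obtain ⟨Φ, hΦ⟩ : ∃ Φ : V d → ℝ≥0∞, Φ = fun w =>
      (∫⁻ t in Icc h (h + s / 8), g (b' w + t • w, t)) ^ p := ⟨_, rfl⟩
  have hΦm : Measurable Φ := by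
    rw [hΦ]
    exact (Measurable.lintegral_prod_right' (f := Function.uncurry fun (w : V d) (t : ℝ) =>
      g (b' w + t • w, t)) hgm).pow_const p
  have hgoal : ∫⁻ w in S, (∫⁻ t in Icc h (h + s / 8), g (b w + t • w, t)) ^ p =
      ∫⁻ w in S, Φ w := by
    refine setLIntegral_congr_fun hS fun w hw => ?_
    rw [hΦ]
    simp only
    rw [hb'S w hw]
  rw [hgoal]
  -- the pieces
  obtain ⟨δ, hδ⟩ : ∃ δ : ℝ≥0∞, δ = ENNReal.ofReal ((3 / 4) ^ d * a) := ⟨_, rfl⟩
  obtain ⟨R, hR⟩ : ∃ R : ℝ≥0∞, R = ENNReal.ofReal (r ^ d) := ⟨_, rfl⟩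
  have hδ0 : δ ≠ 0 := by
    rw [hδ, Ne, ENNReal.ofReal_eq_zero, not_le]
    positivity
  have hδt : δ ≠ ∞ := by rw [hδ]; exact ENNReal.ofReal_ne_top
  have hR0 : R ≠ 0 := by
    rw [hR, Ne, ENNReal.ofReal_eq_zero, not_le]
    positivity
  have hRt : R ≠ ∞ := by rw [hR]; exact ENNReal.ofReal_ne_top
  have hBall : ∀ (x : V d) (q : ℝ), 0 ≤ q → volume (closedBall x q) =
      ENNReal.ofReal (q ^ d) * om := by
    intro x q hq
    rw [Measure.addHaar_closedBall _ _ hq, finrank_euclideanSpace_fin, hom]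
  have hBr : volume (closedBall (0 : V d) r) = R * om := by rw [hBall _ _ hr0.le, hR]
  obtain ⟨c₀, hc₀⟩ : ∃ c₀ : ℝ≥0∞, c₀ = δ⁻¹ ^ (1 / p) * (R ^ (1 / p) * (R * om)⁻¹) := ⟨_, rfl⟩
  have hc₀t : c₀ ≠ ∞ := by
    rw [hc₀]
    refine ENNReal.mul_ne_top (ENNReal.rpow_ne_top_of_nonneg (by positivity)
      (ENNReal.inv_ne_top.2 hδ0)) (ENNReal.mul_ne_top
      (ENNReal.rpow_ne_top_of_nonneg (by positivity) hRt) (ENNReal.inv_ne_top.2 ?_))
    exact mul_ne_zero hR0 hom0
  have hpiece : ∀ w₀ : V d, ∫⁻ w in S ∩ {w | w - w₀ ∈ {x : V d | ‖M x‖ ≤ r}}, Φ w ≤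
      (c₀ * T) ^ p := by
    intro w₀
    obtain ⟨S₀, hS₀⟩ : ∃ S₀ : Set (V d), S₀ = S ∩ {w | w - w₀ ∈ {x : V d | ‖M x‖ ≤ r}} :=
      ⟨_, rfl⟩
    rw [← hS₀]
    have hS₀S : S₀ ⊆ S := by rw [hS₀]; exact inter_subset_left
    have hS₀m : MeasurableSet S₀ := by
      rw [hS₀]
      refine hS.inter ?_
      have h1 : Measurable fun w : V d => ‖M (w - w₀)‖ :=
        (M.continuous.measurable.comp (measurable_id.sub measurable_const)).norm
      exact h1 measurableSet_Iic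
    rcases S₀.eq_empty_or_nonempty with he | ⟨w', hw'⟩
    · rw [he, Measure.restrict_empty, lintegral_zero_measure]
      exact zero_le
    have hw'S : w' ∈ S := hS₀S hw'
    have hmem : ∀ w ∈ S₀, ‖M (w - w₀)‖ ≤ r := by
      intro w hw
      rw [hS₀] at hw
      exact hw.2
    obtain ⟨u, hu⟩ : ∃ u : V d, u = b w' + t₁ • (w' - w₁) := ⟨_, rfl⟩
    have hsub : ∀ t ∈ Icc h (h + s / 8), (fun w => b w + t • w) '' S₀ ⊆
        closedBall (u + t • w₁) (4 * r) := by
      intro t ht y hy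
      obtain ⟨w, hw, rfl⟩ := hy
      rw [mem_closedBall, dist_eq_norm]
      have e1 : b w + t • w - (u + t • w₁) =
          ((b w + t • w) - (b w' + t • w')) + (t - t₁) • (w' - w₁) := by
        rw [hu, sub_smul, smul_sub, smul_sub]
        abel
      have e2 : ‖M (w - w')‖ ≤ 2 * r := by
        have e3 : w - w' = (w - w₀) - (w' - w₀) := by abel
        rw [e3, map_sub]
        refine (norm_sub_le _ _).trans ?_
        linarith [hmem w hw, hmem w' hw']
      have e4 : ‖(t - t₁) • (w' - w₁)‖ ≤ r := by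
        rw [norm_smul, Real.norm_eq_abs, hr]
        exact mul_le_mul (hJ t ht) (hSw w' hw'S) (norm_nonneg _) (by positivity)
      change ‖b w + t • w - (u + t • w₁)‖ ≤ 4 * r
      rw [e1]
      refine (norm_add_le _ _).trans ?_
      have e5 := hFup t ht w (hS₀S hw) w' hw'S
      linarith
    have hbound : ∀ t ∈ Icc h (h + s / 8),
        (∫⁻ w in S₀, g (b' w + t • w, t) ^ p) ^ (1 / p) ≤
        c₀ * ∫⁻ y in closedBall (u + t • w₁) r, hav r p g (y, t) := by
      intro t ht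
      have h1 : ∫⁻ w in S₀, g (b' w + t • w, t) ^ p = ∫⁻ w in S₀, g (b w + t • w, t) ^ p := by
        refine setLIntegral_congr_fun hS₀m fun w hw => ?_
        rw [hb'S w (hS₀S hw)]
      have h2 := chg S₀ hS₀m (fun w => b w + t • w)
        (fun w => D w + t • ContinuousLinearMap.id ℝ (V d))
        (fun w hw => (hFder t w (hS₀S hw)).mono hS₀S) ((hFinj t ht).mono hS₀S)
        ((3 / 4) ^ d * a) (by positivity) (fun w hw => hFdet t ht w (hS₀S hw))
        (fun y => g (y, t) ^ p)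
      have h3 := tube p r hp hr0 g t (u + t • w₁) _ (hsub t ht)
      rw [hBr, ← ENNReal.le_div_iff_mul_le (Or.inl (mul_ne_zero hR0 hom0))
        (Or.inl (ENNReal.mul_ne_top hRt homt)), ← hR] at h3
      rw [h1]
      calc (∫⁻ w in S₀, g (b w + t • w, t) ^ p) ^ (1 / p)
          ≤ (δ⁻¹ * ∫⁻ y in (fun w => b w + t • w) '' S₀, g (y, t) ^ p) ^ (1 / p) := by
            apply ENNReal.rpow_le_rpow _ (by positivity)
            rw [hδ]
            exact h2
        _ = δ⁻¹ ^ (1 / p) * (∫⁻ y in (fun w => b w + t • w) '' S₀, g (y, t) ^ p) ^ (1 / p) :=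
            ENNReal.mul_rpow_of_nonneg _ _ (by positivity)
        _ ≤ δ⁻¹ ^ (1 / p) * (R ^ (1 / p) *
            (∫⁻ y in closedBall (u + t • w₁) r, hav r p g (y, t)) / (R * om)) :=
            mul_le_mul' le_rfl h3
        _ = c₀ * ∫⁻ y in closedBall (u + t • w₁) r, hav r p g (y, t) := by
            rw [hc₀, ENNReal.div_eq_inv_mul]
            ring
    calc ∫⁻ w in S₀, Φ w = ∫⁻ w in S₀,
          (∫⁻ t in Icc h (h + s / 8), g (b' w + t • w, t)) ^ p := by rw [hΦ]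
      _ ≤ (∫⁻ t in Icc h (h + s / 8), (∫⁻ w in S₀, g (b' w + t • w, t) ^ p) ^ (1 / p)) ^ p :=
          mink _ _ (fun w t => g (b' w + t • w, t)) hgm p hp
      _ ≤ (∫⁻ t in Icc h (h + s / 8),
          c₀ * ∫⁻ y in closedBall (u + t • w₁) r, hav r p g (y, t)) ^ p := by
          apply ENNReal.rpow_le_rpow _ hp0.le
          exact setLIntegral_mono' measurableSet_Icc hbound
      _ = (c₀ * tint (s / 8) r h u w₁ (hav r p g)) ^ p := by
          rw [lintegral_const_mul' _ _ hc₀t]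
          rfl
      _ ≤ (c₀ * T) ^ p := by
          apply ENNReal.rpow_le_rpow _ hp0.le
          apply mul_le_mul' le_rfl
          rw [hT]
          exact le_iSup (fun u => tint (s / 8) r h u w₁ (hav r p g)) u
  have hempty : ∀ w₀ : V d, w₀ ∉ closedBall w₁ (2 * ρ) →
      S ∩ {w | w - w₀ ∈ {x : V d | ‖M x‖ ≤ r}} = ∅ := by
    intro w₀ hw₀
    by_contra hne
    obtain ⟨w, hw1, hw2⟩ := Set.nonempty_iff_ne_empty.2 hne
    apply hw₀
    rw [mem_closedBall, dist_eq_norm]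
    have h1 : ‖M (w - w₀)‖ ≤ s / 8 * ρ := by rw [← hr]; exact hw2
    have h2 := hMlow (w - w₀)
    have h3 : ‖w - w₀‖ ≤ ρ / 8 := by
      have h4 : s * ‖w - w₀‖ ≤ s * (ρ / 8) := by linarith
      exact le_of_mul_le_mul_left h4 hs
    have h5 : w₀ - w₁ = (w - w₁) - (w - w₀) := by abel
    rw [h5]
    refine (norm_sub_le _ _).trans ?_
    linarith [hSw w hw1]
  have hEm : MeasurableSet {x : V d | ‖M x‖ ≤ r} := by
    have h1 : Measurable fun x : V d => ‖M x‖ := M.continuous.measurable.norm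
    exact h1 measurableSet_Iic
  have hEv : volume {x : V d | ‖M x‖ ≤ r} = ENNReal.ofReal a⁻¹ * (R * om) := by
    have h1 : {x : V d | ‖M x‖ ≤ r} = (M : V d →ₗ[ℝ] V d) ⁻¹' closedBall (0 : V d) r := by
      ext x
      rw [mem_preimage, mem_closedBall_zero_iff]
      rfl
    rw [h1, Measure.addHaar_preimage_linearMap _ hdetM, hBr, abs_inv, ← ha]
  have hfin := avg S {x : V d | ‖M x‖ ≤ r} (closedBall w₁ (2 * ρ)) hS hEm
    measurableSet_closedBall Φ hΦm _ hpiece hempty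
  rw [hEv, hBall w₁ (2 * ρ) (by positivity)] at hfin
  have hvE0 : ENNReal.ofReal a⁻¹ * (R * om) ≠ 0 := by
    refine mul_ne_zero ?_ (mul_ne_zero hR0 hom0)
    rw [Ne, ENNReal.ofReal_eq_zero, not_le]
    positivity
  have hvEt : ENNReal.ofReal a⁻¹ * (R * om) ≠ ∞ :=
    ENNReal.mul_ne_top ENNReal.ofReal_ne_top (ENNReal.mul_ne_top hRt homt)
  have hkey : (c₀ * T) ^ p * (ENNReal.ofReal ((2 * ρ) ^ d) * om) =
      ENNReal.ofReal a⁻¹ * (R * om) * (ENNReal.ofReal ((4 / 3) ^ d * 2 ^ d *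
        (om.toReal⁻¹) ^ p * ρ ^ d) * (R⁻¹ * T) ^ p) := by
    have k1 : c₀ ^ p = δ⁻¹ * R * ((R⁻¹) ^ p * (om⁻¹) ^ p) := by
      rw [hc₀, ENNReal.mul_rpow_of_nonneg _ _ hp0.le, ENNReal.mul_rpow_of_nonneg _ _ hp0.le,
        ← ENNReal.rpow_mul, ← ENNReal.rpow_mul, one_div_mul_cancel hp0.ne', ENNReal.rpow_one,
        ENNReal.rpow_one, ENNReal.mul_inv (Or.inl hR0) (Or.inl hRt),
        ENNReal.mul_rpow_of_nonneg _ _ hp0.le, mul_assoc]
    have k2 : (om⁻¹) ^ p = ENNReal.ofReal ((om.toReal⁻¹) ^ p) := by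
      rw [← ENNReal.ofReal_rpow_of_nonneg (by positivity) hp0.le, ENNReal.ofReal_inv_of_pos ho,
        ENNReal.ofReal_toReal homt]
    have k3 : δ⁻¹ = ENNReal.ofReal (((3 / 4) ^ d * a)⁻¹) := by
      rw [hδ, ENNReal.ofReal_inv_of_pos (by positivity)]
    have k4 : δ⁻¹ * (om⁻¹) ^ p * ENNReal.ofReal ((2 * ρ) ^ d) =
        ENNReal.ofReal a⁻¹ * ENNReal.ofReal ((4 / 3) ^ d * 2 ^ d * (om.toReal⁻¹) ^ p * ρ ^ d) := by
      rw [k2, k3, ← ENNReal.ofReal_mul (by positivity), ← ENNReal.ofReal_mul (by positivity),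
        ← ENNReal.ofReal_mul (by positivity)]
      congr 1
      have k5 : ((3 / 4 : ℝ) ^ d)⁻¹ = (4 / 3) ^ d := by
        rw [← inv_pow]
        norm_num
      rw [mul_inv, k5, mul_pow]
      ring
    rw [ENNReal.mul_rpow_of_nonneg _ _ hp0.le, ENNReal.mul_rpow_of_nonneg _ _ hp0.le, k1]
    calc δ⁻¹ * R * ((R⁻¹) ^ p * (om⁻¹) ^ p) * T ^ p * (ENNReal.ofReal ((2 * ρ) ^ d) * om)
        = (δ⁻¹ * (om⁻¹) ^ p * ENNReal.ofReal ((2 * ρ) ^ d)) * (R * om * ((R⁻¹) ^ p * T ^ p)) := by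
          ring
      _ = _ := by
          rw [k4]
          ring
  rw [hkey] at hfin
  rw [← hR]
  exact (ENNReal.mul_le_mul_iff_right hvE0 hvEt).1 hfin

end Pool.Agent.NH42.HF
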