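import Pool.Agent.NH42.HF.Stm
import Pool.Agent.H803R2.KakDet

/-!
# Project HF, pieces 12b and 12c: linear maps `L + t`
-/

set_option autoImplicit false

open MeasureTheory Set Metric
open scoped ENNReal

namespace Pool.Agent.NH42.HF

namespace SpreadAux

theorem symm_core {d : ℕ} (hd : 1 ≤ d) (L : V d →L[ℝ] V d)
    (hL : ∀ x y : V d, inner ℝ (L x) y = inner ℝ x (L y)) :
    ∃ Λ : Finset ℝ, Λ.card ≤ d ∧ ∀ t : ℝ, ∃ l ∈ Λ, ∀ x : V d, |t - l| * ‖x‖ ≤ ‖L x + t • x‖ := by
  classical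
  have hT : (L : V d →ₗ[ℝ] V d).IsSymmetric := fun x y => hL x y
  have hn : Module.finrank ℝ (V d) = d := by simp
  set b := hT.eigenvectorBasis hn with hb
  set μ := hT.eigenvalues hn with hμ
  have hbμ : ∀ i, L (b i) = μ i • b i := fun i => hT.apply_eigenvectorBasis hn i
  refine ⟨Finset.univ.image (fun i => -μ i), Finset.card_image_le.trans (by simp), fun t => ?_⟩
  have hne : (Finset.univ.image (fun i => -μ i)).Nonempty := by
    have : Nonempty (Fin d) := ⟨⟨0, hd⟩⟩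
    exact Finset.univ_nonempty.image _
  obtain ⟨l, hl, hmin⟩ := Finset.exists_min_image _ (fun l => |t - l|) hne
  refine ⟨l, hl, fun x => ?_⟩
  have hsq : (|t - l| * ‖x‖) ^ 2 ≤ ‖L x + t • x‖ ^ 2 := by
    rw [mul_pow, ← b.sum_sq_norm_inner_left x, ← b.sum_sq_norm_inner_left (L x + t • x),
      Finset.mul_sum]
    refine Finset.sum_le_sum fun i _ => ?_
    have e1 : inner ℝ (L x + t • x) (b i) = (μ i + t) * inner ℝ x (b i) := by
      rw [inner_add_left, hL, hbμ, inner_smul_right, real_inner_smul_left]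
      ring
    rw [e1, norm_mul, mul_pow]
    refine mul_le_mul_of_nonneg_right ?_ (by positivity)
    have h1 := hmin (-μ i) (Finset.mem_image.2 ⟨i, Finset.mem_univ i, rfl⟩)
    have h2 : |t - -μ i| = ‖μ i + t‖ := by
      rw [Real.norm_eq_abs]
      congr 1
      ring
    rw [← h2]
    exact pow_le_pow_left₀ (abs_nonneg _) h1 2
  exact (pow_le_pow_iff_left₀ (by positivity) (norm_nonneg _) two_ne_zero).1 hsq

/-- Hadamard's inequality for one vector -/
theorem det_le {d : ℕ} (hd : 1 ≤ d) (T : V d →L[ℝ] V d) (x : V d) :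
    |T.det| * ‖x‖ ≤ ‖T‖ ^ (d - 1) * ‖T x‖ := by
  classical
  by_cases hx : x = 0
  · rw [hx, norm_zero, mul_zero]
    positivity
  have hxn : ‖x‖ ≠ 0 := norm_ne_zero_iff.2 hx
  obtain ⟨m, rfl⟩ : ∃ m, d = m + 1 := ⟨d - 1, by omega⟩
  have hn : Module.finrank ℝ (V (m + 1)) = Fintype.card (Fin (m + 1)) := by simp
  have ho : Orthonormal ℝ (({0} : Set (Fin (m + 1))).domRestrict
      (fun _ : Fin (m + 1) => (‖x‖⁻¹ • x : V (m + 1)))) := by
    constructor
    · rintro ⟨i, hi⟩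
      show ‖(‖x‖⁻¹ • x : V (m + 1))‖ = 1
      rw [norm_smul, norm_inv, norm_norm, inv_mul_cancel₀ hxn]
    · rintro ⟨i, hi⟩ ⟨j, hj⟩ hij
      exfalso
      apply hij
      rw [mem_singleton_iff] at hi hj
      subst hi hj
      rfl
  obtain ⟨b, hb⟩ := ho.exists_orthonormalBasis_extension_of_card_eq hn
  have hb0 : b 0 = ‖x‖⁻¹ • x := hb 0 (mem_singleton 0)
  have : Fact (Module.finrank ℝ (V (m + 1)) = m + 1) := ⟨by simp⟩
  have h1 : T.det = b.toBasis.det (T ∘ b) := by
    have h2 := b.toBasis.det_comp (T : V (m + 1) →ₗ[ℝ] V (m + 1)) b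
    have h3 : b.toBasis.det b = 1 := by
      have := b.toBasis.det_self
      rwa [b.coe_toBasis] at this
    rw [h3, mul_one] at h2
    exact h2.symm
  have h2 : |b.toBasis.det (T ∘ b)| ≤ ∏ i, ‖(T ∘ b) i‖ := by
    have h3 := b.toBasis.orientation.volumeForm_robust' b (T ∘ b)
    rw [← h3]
    exact b.toBasis.orientation.abs_volumeForm_apply_le _
  have h3 : ∏ i, ‖(T ∘ b) i‖ ≤ ‖T‖ ^ m * (‖x‖⁻¹ * ‖T x‖) := by
    rw [Fin.prod_univ_succ, mul_comm]
    refine mul_le_mul ?_ ?_ (norm_nonneg _) (by positivity)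
    · calc ∏ i : Fin m, ‖(T ∘ b) i.succ‖ ≤ ∏ _i : Fin m, ‖T‖ := by
            refine Finset.prod_le_prod (fun i _ => norm_nonneg _) fun i _ => ?_
            have := T.le_opNorm (b i.succ)
            rwa [b.norm_eq_one, mul_one] at this
        _ = ‖T‖ ^ m := by simp
    · rw [Function.comp_apply, hb0, map_smul, norm_smul, norm_inv, norm_norm]
  rw [h1]
  calc |b.toBasis.det (T ∘ b)| * ‖x‖ ≤ (‖T‖ ^ m * (‖x‖⁻¹ * ‖T x‖)) * ‖x‖ :=
        mul_le_mul_of_nonneg_right (h2.trans h3) (norm_nonneg _)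
    _ = ‖T‖ ^ (m + 1 - 1) * ‖T x‖ := by
      rw [Nat.add_sub_cancel]
      field_simp

end SpreadAux

open SpreadAux

theorem symm : S_symm := by
  intro d D hd hD v hv
  obtain ⟨Λ, h1, h2⟩ := symm_core hd (D v) (hD v hv)
  refine ⟨Λ, h1, fun t => ?_⟩
  obtain ⟨l, hl, h3⟩ := h2 t
  refine ⟨l, hl, fun x => ?_⟩
  refine le_trans ?_ (h3 x)
  rw [one_mul, Real.rpow_one]
  exact mul_le_mul_of_nonneg_right (min_le_right _ _) (norm_nonneg _)

theorem all : S_all := by
  classical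
  intro d A hd hA
  refine ⟨(1 / (3 * A)) ^ d, by positivity, fun D hD v hv => ?_⟩
  obtain ⟨μ, hμ1, hμ2⟩ := Pool.Agent.H803R2.Kak.det_centers (D v)
  have hμd : μ.card = d := by
    rw [hμ1]
    simp
  refine ⟨μ.toFinset, (Multiset.toFinset_card_le μ).trans hμd.le, fun t => ?_⟩
  have hne : μ.toFinset.Nonempty := by
    rw [Finset.nonempty_iff_ne_empty, Ne, Multiset.toFinset_eq_empty]
    rintro rfl
    rw [Multiset.card_zero] at hμd
    omega
  obtain ⟨l, hl, hmin⟩ := Finset.exists_min_image _ (fun l => |t - l|) hne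
  refine ⟨l, hl, fun x => ?_⟩
  rw [Real.rpow_natCast]
  have hDv := hD v hv
  have h3A : (1 : ℝ) ≤ 3 * A := by linarith
  have hc1 : (1 / (3 * A)) ^ d ≤ 1 := pow_le_one₀ (by positivity) (by
    rw [div_le_one (by positivity)]
    exact h3A)
  have hm0 : 0 ≤ min 1 |t - l| := le_min zero_le_one (abs_nonneg _)
  have hm1 : min 1 |t - l| ^ d ≤ 1 := pow_le_one₀ hm0 (min_le_left _ _)
  by_cases ht : 2 * A ≤ |t|
  · have h1 : (|t| - A) * ‖x‖ ≤ ‖D v x + t • x‖ := by
      have h2 : ‖t • x‖ - ‖D v x‖ ≤ ‖D v x + t • x‖ := by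
        have := norm_sub_norm_le (t • x) (-(D v x))
        rw [norm_neg, sub_neg_eq_add, add_comm] at this
        exact this
      have h3 : ‖D v x‖ ≤ A * ‖x‖ :=
        ((D v).le_opNorm x).trans (mul_le_mul_of_nonneg_right hDv (norm_nonneg _))
      rw [norm_smul, Real.norm_eq_abs] at h2
      linarith
    refine le_trans ?_ h1
    refine mul_le_mul_of_nonneg_right ?_ (norm_nonneg _)
    calc (1 / (3 * A)) ^ d * min 1 |t - l| ^ d ≤ 1 * 1 :=
          mul_le_mul hc1 hm1 (by positivity) zero_le_one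
      _ ≤ |t| - A := by linarith
  · push Not at ht
    set T : V d →L[ℝ] V d := D v + t • ContinuousLinearMap.id ℝ (V d) with hT
    have hTx : T x = D v x + t • x := by simp [hT]
    have hTn : ‖T‖ ≤ 3 * A := by
      calc ‖T‖ ≤ ‖D v‖ + ‖t • ContinuousLinearMap.id ℝ (V d)‖ := norm_add_le _ _
        _ ≤ A + |t| * 1 := by
          refine add_le_add hDv ?_
          rw [norm_smul, Real.norm_eq_abs]
          exact mul_le_mul_of_nonneg_left (ContinuousLinearMap.norm_id_le) (abs_nonneg _)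
        _ ≤ 3 * A := by linarith
    have h1 := det_le hd T x
    have h2 : |t - l| ^ d ≤ |T.det| := by
      refine le_trans ?_ (hμ2 t)
      have h3 : ∀ m ∈ μ, |t - l| ≤ |t - m| := fun m hm => hmin m (Multiset.mem_toFinset.2 hm)
      have h4 : ∀ ν : Multiset ℝ, (∀ m ∈ ν, |t - l| ≤ |t - m|) →
          |t - l| ^ ν.card ≤ (ν.map (fun m => |t - m|)).prod := by
        intro ν
        induction ν using Multiset.induction_on with
        | empty => intro _; simp
        | cons a ν ih =>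
          intro h
          rw [Multiset.card_cons, Multiset.map_cons, Multiset.prod_cons, pow_succ, mul_comm]
          exact mul_le_mul (h a (Multiset.mem_cons_self a ν))
            (ih fun m hm => h m (Multiset.mem_cons_of_mem hm)) (by positivity) (abs_nonneg _)
      have h5 := h4 μ h3
      rwa [hμd] at h5
    rw [← hTx]
    have h3 : min 1 |t - l| ^ d * ‖x‖ ≤ (3 * A) ^ d * ‖T x‖ := by
      calc min 1 |t - l| ^ d * ‖x‖ ≤ |t - l| ^ d * ‖x‖ :=
            mul_le_mul_of_nonneg_right (pow_le_pow_left₀ hm0 (min_le_right _ _) d) (norm_nonneg _)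
        _ ≤ |T.det| * ‖x‖ := mul_le_mul_of_nonneg_right h2 (norm_nonneg _)
        _ ≤ ‖T‖ ^ (d - 1) * ‖T x‖ := h1
        _ ≤ (3 * A) ^ (d - 1) * ‖T x‖ :=
          mul_le_mul_of_nonneg_right (pow_le_pow_left₀ (norm_nonneg _) hTn _) (norm_nonneg _)
        _ ≤ (3 * A) ^ d * ‖T x‖ :=
          mul_le_mul_of_nonneg_right (pow_le_pow_right₀ h3A (Nat.sub_le d 1)) (norm_nonneg _)
    have h4 : (1 / (3 * A)) ^ d * (3 * A) ^ d = 1 := by
      rw [← mul_pow, one_div, inv_mul_cancel₀ (by positivity), one_pow]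
    calc (1 / (3 * A)) ^ d * min 1 |t - l| ^ d * ‖x‖
        = (1 / (3 * A)) ^ d * (min 1 |t - l| ^ d * ‖x‖) := by ring
      _ ≤ (1 / (3 * A)) ^ d * ((3 * A) ^ d * ‖T x‖) :=
        mul_le_mul_of_nonneg_left h3 (by positivity)
      _ = ((1 / (3 * A)) ^ d * (3 * A) ^ d) * ‖T x‖ := by ring
      _ = ‖T x‖ := by rw [h4, one_mul]

end Pool.Agent.NH42.HF
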