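import Pool.Agent.NH42.HF.Stm2

/-!
# Project HF: HF-13 (the trivial estimate) and HF-14 (Minkowski and a geometric sum)
-/

set_option autoImplicit false

open MeasureTheory Set Metric
open scoped ENNReal

namespace Pool.Agent.NH42.HF

open Pool.Agent.H803R2.Kak Pool.Agent.H803R2.KakFTO

namespace TrivSum

theorem jensenp {α : Type*} [MeasurableSpace α] (ν : Measure α) (g : α → ℝ≥0∞)
    (hg : AEMeasurable g ν) (p : ℝ) (hp : 1 < p) :
    (∫⁻ x, g x ∂ν) ^ p ≤ (ν univ) ^ (p - 1) * ∫⁻ x, g x ^ p ∂ν := by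
  have hp0 : 0 < p := by linarith
  have hp1 : 0 < p - 1 := by linarith
  have h := ENNReal.lintegral_mul_le_Lp_mul_Lq ν (p := p / (p - 1)) (q := p)
    (by
      rw [Real.holderConjugate_iff]
      refine ⟨?_, ?_⟩
      · rw [lt_div_iff₀ hp1]; linarith
      · field_simp
        ring) (f := fun _ => 1) (g := g) aemeasurable_const hg
  simp only [Pi.mul_apply, one_mul, ENNReal.one_rpow, lintegral_const] at h
  calc (∫⁻ x, g x ∂ν) ^ p ≤ ((ν univ) ^ (1 / (p / (p - 1))) *
        (∫⁻ x, g x ^ p ∂ν) ^ (1 / p)) ^ p := by gcongr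
    _ = _ := by
        rw [ENNReal.mul_rpow_of_nonneg _ _ hp0.le, ← ENNReal.rpow_mul, ← ENNReal.rpow_mul]
        congr 1
        · congr 1
          field_simp
        · rw [one_div_mul_cancel hp0.ne', ENNReal.rpow_one]

/-- Jensen's inequality for averages -/
theorem avg {α : Type*} [MeasurableSpace α] (ν : Measure α) (g : α → ℝ≥0∞)
    (hg : AEMeasurable g ν) (p : ℝ) (hp : 1 ≤ p) (h0 : ν univ ≠ 0) :
    ((ν univ)⁻¹ * ∫⁻ x, g x ∂ν) ^ p ≤ (ν univ)⁻¹ * ∫⁻ x, g x ^ p ∂ν := by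
  have hp0 : 0 < p := by linarith
  rcases eq_or_ne (ν univ) ⊤ with ht | ht
  · rw [ht, ENNReal.inv_top, zero_mul, zero_mul, ENNReal.zero_rpow_of_pos hp0]
  rcases eq_or_lt_of_le hp with h1 | h1
  · subst h1
    simp
  · rw [ENNReal.mul_rpow_of_nonneg _ _ hp0.le]
    calc (ν univ)⁻¹ ^ p * (∫⁻ x, g x ∂ν) ^ p
        ≤ (ν univ)⁻¹ ^ p * ((ν univ) ^ (p - 1) * ∫⁻ x, g x ^ p ∂ν) := by
          gcongr
          exact jensenp ν g hg p h1
      _ = (ν univ)⁻¹ * ∫⁻ x, g x ^ p ∂ν := by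
          rw [← mul_assoc]
          congr 1
          rw [← ENNReal.rpow_neg_one, ← ENNReal.rpow_mul, ← ENNReal.rpow_add _ _ h0 ht]
          congr 1
          ring

theorem iSup_rpow {ι : Sort*} [Nonempty ι] (f : ι → ℝ≥0∞) {p : ℝ} (hp : 0 < p) :
    (⨆ i, f i) ^ p = ⨆ i, f i ^ p := by
  exact (ENNReal.orderIsoRpow p hp).map_iSup f

/-- the geometric sum -/
theorem geom {q : ℝ} (hq : 0 < q) (hq1 : q ≠ 1) (K : ℕ) :
    ∑ k ∈ Finset.range (K + 1), q ^ k ≤ (1 + q) / |q - 1| * max 1 (q ^ K) := by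
  have h0 : 0 < |q - 1| := abs_pos.2 (sub_ne_zero.2 hq1)
  rw [div_mul_eq_mul_div, le_div_iff₀ h0]
  have h1 := geom_sum_mul q (K + 1)
  have hqK : 0 < q ^ K := by positivity
  have hqK1 : q ^ (K + 1) = q * q ^ K := pow_succ' q K
  rcases lt_or_gt_of_ne hq1 with h | h
  · rw [abs_of_neg (by linarith)]
    have h2 : (∑ k ∈ Finset.range (K + 1), q ^ k) * -(q - 1) = 1 - q ^ (K + 1) := by
      rw [mul_neg, h1]; ring
    rw [h2]
    have h3 : (1 : ℝ) ≤ max 1 (q ^ K) := le_max_left _ _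
    nlinarith [pow_pos hq (K + 1)]
  · rw [abs_of_pos (by linarith), h1, hqK1]
    have h3 : q ^ K ≤ max 1 (q ^ K) := le_max_right _ _
    nlinarith

/-- Minkowski's inequality for a finite sum -/
theorem minkowski {X : Type} [MeasurableSpace X] (μ : Measure X) (p : ℝ) (hp : 1 ≤ p)
    (Y : ℕ → X → ℝ≥0∞) (hY : ∀ k, Measurable (Y k)) (K : ℕ) :
    (∫⁻ x, (∑ k ∈ Finset.range K, Y k x) ^ p ∂μ) ^ (1 / p) ≤
      ∑ k ∈ Finset.range K, (∫⁻ x, Y k x ^ p ∂μ) ^ (1 / p) := by
  have hp0 : 0 < p := by linarith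
  induction K with
  | zero =>
    simp [ENNReal.zero_rpow_of_pos hp0, hp0]
  | succ K ih =>
    rw [Finset.sum_range_succ]
    have h1 := ENNReal.lintegral_Lp_add_le (μ := μ) (p := p)
      (f := fun x => ∑ k ∈ Finset.range K, Y k x) (g := Y K)
      (Finset.measurable_sum _ fun k _ => hY k).aemeasurable (hY K).aemeasurable hp
    simp only [Pi.add_apply] at h1
    simp only [Finset.sum_range_succ]
    exact h1.trans (by gcongr)

end TrivSum

open TrivSum

/-- HF-13 -/
theorem triv : S_triv := by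
  intro d p hp
  have hp0 : 0 < p := by linarith
  set ω : ℝ := (volume (closedBall (0 : EuclideanSpace ℝ (Fin d)) 1)).toReal with hω
  have hω0 : 0 < ω := by
    apply ENNReal.toReal_pos
    · exact (measure_closedBall_pos volume _ one_pos).ne'
    · exact measure_closedBall_lt_top.ne
  refine ⟨4 * 4 ^ d * ω⁻¹, by positivity, ?_⟩
  intro δ b v f hδ hδ1 hv hf
  set c : ℝ := 1 / 4 * ((δ / 4) ^ d * ω) with hc
  have hc0 : 0 < c := by positivity
  have hcv : ENNReal.ofReal c =
      ENNReal.ofReal (1/4) * volume (closedBall (0 : EuclideanSpace ℝ (Fin d)) (δ/4)) := by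
    rw [vol_ball_scale (by positivity : 0 < δ / 4), hc, ENNReal.ofReal_mul (by norm_num),
      ENNReal.ofReal_mul (by positivity), ENNReal.ofReal_pow (by positivity), hω,
      ENNReal.ofReal_toReal measure_closedBall_lt_top.ne]
  have hcinv : (ENNReal.ofReal c)⁻¹ = ENNReal.ofReal (4 * 4 ^ d * ω⁻¹ * δ ^ (-(d : ℝ))) := by
    rw [← ENNReal.ofReal_inv_of_pos hc0, Real.rpow_neg hδ.le, Real.rpow_natCast, hc]
    congr 1
    rw [div_pow]
    field_simp
  rw [← hcinv]
  unfold lineMax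
  rw [iSup_rpow _ hp0]
  refine iSup_le fun s => ?_
  have hle := le_volume_tube hδ hδ1 b hv s
  rw [← hcv] at hle
  set T := tube δ (dir v) (linePt b v s) with hT
  have hvol : (volume.restrict T) univ = volume T := by simp
  have hne : (volume.restrict T) univ ≠ 0 := by
    rw [hvol]
    intro h0
    rw [h0] at hle
    have := ENNReal.ofReal_eq_zero.1 (le_antisymm hle bot_le)
    linarith
  have h1 := avg (volume.restrict T) (fun y => ‖f y‖ₑ) hf.enorm.aemeasurable p hp hne
  rw [hvol] at h1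
  refine h1.trans ?_
  gcongr
  exact Measure.restrict_le_self

/-- HF-14 -/
theorem sum_levels : S_sum := by
  intro p σ hp hσ
  have hp0 : 0 < p := by linarith
  set q : ℝ := (2 : ℝ) ^ (-σ / p) with hq
  have hq0 : 0 < q := by positivity
  have hq1 : q ≠ 1 := by
    intro h
    have h1 : Real.log q = 0 := by rw [h]; exact Real.log_one
    rw [hq, Real.log_rpow (by norm_num)] at h1
    rcases mul_eq_zero.1 h1 with h2 | h2
    · rw [div_eq_zero_iff] at h2
      rcases h2 with h2 | h2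
      · exact hσ (by linarith)
      · linarith
    · have := Real.log_pos (by norm_num : (1 : ℝ) < 2)
      linarith
  have h0 : 0 < |q - 1| := abs_pos.2 (sub_ne_zero.2 hq1)
  set C' : ℝ := (1 + q) / |q - 1| with hC'
  have hC'0 : 0 < C' := by positivity
  have hqk : ∀ k : ℕ, (((2 : ℝ) ^ k) ^ (-σ)) ^ (1 / p) = q ^ k := by
    intro k
    rw [hq, ← Real.rpow_natCast, ← Real.rpow_natCast, ← Real.rpow_mul (by norm_num),
      ← Real.rpow_mul (by norm_num), ← Real.rpow_mul (by norm_num)]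
    congr 1
    field_simp
  refine ⟨C' ^ p, by positivity, ?_⟩
  intro X _ μ K Y M hY hM
  have h1 := minkowski μ p hp Y hY (K + 1)
  have h2 : ∑ k ∈ Finset.range (K + 1), (∫⁻ x, Y k x ^ p ∂μ) ^ (1 / p) ≤
      ENNReal.ofReal (C' * max 1 (q ^ K)) * M ^ (1 / p) := by
    calc ∑ k ∈ Finset.range (K + 1), (∫⁻ x, Y k x ^ p ∂μ) ^ (1 / p)
        ≤ ∑ k ∈ Finset.range (K + 1), ENNReal.ofReal (q ^ k) * M ^ (1 / p) := by
          refine Finset.sum_le_sum fun k hk => ?_
          have hk' : k ≤ K := by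
            have := Finset.mem_range.1 hk
            omega
          calc (∫⁻ x, Y k x ^ p ∂μ) ^ (1 / p)
              ≤ (ENNReal.ofReal (((2 : ℝ) ^ k) ^ (-σ)) * M) ^ (1 / p) :=
                ENNReal.rpow_le_rpow (hM k hk') (by positivity)
            _ = _ := by
                rw [ENNReal.mul_rpow_of_nonneg _ _ (by positivity),
                  ENNReal.ofReal_rpow_of_nonneg (by positivity) (by positivity), hqk]
      _ = ENNReal.ofReal (∑ k ∈ Finset.range (K + 1), q ^ k) * M ^ (1 / p) := by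
          rw [← Finset.sum_mul, ENNReal.ofReal_sum_of_nonneg fun k _ => by positivity]
      _ ≤ _ := by
          gcongr
          exact geom hq0 hq1 K
  have h3 := ENNReal.rpow_le_rpow (h1.trans h2) hp0.le
  rw [← ENNReal.rpow_mul, one_div_mul_cancel hp0.ne', ENNReal.rpow_one,
    ENNReal.mul_rpow_of_nonneg _ _ hp0.le, ← ENNReal.rpow_mul, one_div_mul_cancel hp0.ne',
    ENNReal.rpow_one, ENNReal.ofReal_rpow_of_nonneg (by positivity) hp0.le] at h3
  refine h3.trans (le_of_eq ?_)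
  congr 2
  rw [Real.mul_rpow hC'0.le (by positivity)]
  congr 1
  have h4 : ((2 : ℝ) ^ K) ^ (-σ) = (q ^ K) ^ p := by
    rw [← hqk K, ← Real.rpow_mul (by positivity), one_div_mul_cancel hp0.ne', Real.rpow_one]
  rw [h4]
  rcases le_total 1 (q ^ K) with h | h
  · rw [max_eq_right h, max_eq_right (Real.one_le_rpow h hp0.le)]
  · rw [max_eq_left h, max_eq_left (Real.rpow_le_one (by positivity) h hp0.le), Real.one_rpow]

end Pool.Agent.NH42.HF
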