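import Pool.Agent.NH42.HF.Main
import Pool.Agent.NH42.HF.FamKM
import Pool.Agent.NH42.HF.FamPlanar
import Pool.Agent.NH42.HF.FamMono
import Pool.Agent.NH42.HF.Cell
import Pool.Agent.NH42.HF.Local
import Pool.Agent.NH42.HF.HavCells
import Pool.Agent.NH42.HF.Good
import Pool.Agent.NH42.HF.Bad
import Pool.Agent.NH42.HF.CoverCount
import Pool.Agent.NH42.HF.Far
import Pool.Agent.NH42.HF.SpreadLem
import Pool.Agent.NH42.HF.TrivSum

/-!
# Project HF: the estimate from `Fam`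
-/

set_option autoImplicit false

open MeasureTheory Set Metric
open scoped ENNReal

namespace Pool.Agent.NH42.HF

open Pool.Agent.H803R2.Kak Pool.Agent.H803R2.KakFTO

theorem fam_loss {d : ℕ} {p θ θ' : ℝ} (h : θ ≤ θ') (hF : Fam d p θ) : Fam d p θ' := by
  obtain ⟨C, hC, hF⟩ := hF
  refine ⟨C, hC, ?_⟩
  intro r hr hr1 b hb g hg
  refine (hF r hr hr1 b hb g hg).trans ?_
  refine mul_le_mul_left (ENNReal.ofReal_le_ofReal ?_) _
  have : r ^ ((d : ℝ) * p - θ) ≤ r ^ ((d : ℝ) * p - θ') :=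
    Real.rpow_le_rpow_of_exponent_ge hr (by linarith) (by linarith)
  gcongr

/-- The maximal function of the family `b` is bounded in `L^p` with the constant `C δ ^ (-e)`. -/
def Bound {d : ℕ} (C p e : ℝ) (b : Vec d → Vec d) : Prop :=
  ∀ (δ : ℝ) (f : Space d → ℝ), 0 < δ → δ < 1 → AEMeasurable f volume →
    ∫⁻ v in closedBall (0 : Vec d) 1, lineMax δ b f v ^ p ≤
      ENNReal.ofReal (C * δ ^ (-e)) * ∫⁻ y, ‖f y‖ₑ ^ p

theorem gen {d : ℕ} {p₀ θ : ℝ} (hp₀ : 1 ≤ p₀) (hF : Fam d p₀ θ) {p α γ e A c : ℝ} (m : ℕ)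
    (hpp : p₀ ≤ p) (hp : 1 < p) (hα : 0 < α) (hα1 : α ≤ 1) (hγ : 1 ≤ γ) (he : 0 ≤ e)
    (hcond : α * (d - (p - 1) / γ) + θ < (1 + α) * e) (hA : 1 ≤ A) (hc : 0 < c) :
    ∃ C : ℝ, 0 < C ∧ ∀ (b : Vec d → Vec d) (D : Vec d → (Vec d →L[ℝ] Vec d)), Hol A α b D →
      Spread γ m c D → Bound C p e b := by
  have h1α : 0 < 1 + α := by linarith
  -- choose `θ' ≥ θ` such that the exponent is not critical
  obtain ⟨θ', hθ, hne, hle⟩ : ∃ θ' : ℝ, θ ≤ θ' ∧ (p - 1) / γ - d - θ' / α ≠ 0 ∧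
      (α * (d - (p - 1) / γ) + θ') / (1 + α) ≤ e := by
    by_cases h0 : (p - 1) / γ - d - θ / α = 0
    · set η : ℝ := ((1 + α) * e - (α * (d - (p - 1) / γ) + θ)) / 2 with hη
      have hη0 : 0 < η := by rw [hη]; linarith
      refine ⟨θ + η, by linarith, ?_, ?_⟩
      · intro h
        have : (θ + η) / α = θ / α + η / α := by ring
        have h2 : 0 < η / α := by positivity
        rw [this] at h
        linarith
      · rw [div_le_iff₀ h1α]
        rw [hη]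
        nlinarith
    · refine ⟨θ, le_rfl, h0, ?_⟩
      rw [div_le_iff₀ h1α]
      linarith
  have hF2 := famMono d p₀ p θ' hp₀ hpp (fam_loss hθ hF)
  have hCE := cell d p θ' hp.le hF2
  have hLE := local_est d p hp
  obtain ⟨C, hC, h⟩ := est good bad cells cover1 count sum_levels hav_est taylor far triv hp hα hα1
    hγ hne hCE hLE A c m hA hc
  refine ⟨C, hC, ?_⟩
  intro b D hHol hSp δ f hδ hδ1 hf
  refine (h b D δ f hHol hSp hδ hδ1 hf).trans ?_
  refine mul_le_mul_left (ENNReal.ofReal_le_ofReal ?_) _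
  have h2 : δ ^ (-max 0 ((α * (d - (p - 1) / γ) + θ') / (1 + α))) ≤ δ ^ (-e) :=
    Real.rpow_le_rpow_of_exponent_ge hδ hδ1.le (by
      have := max_le he hle
      linarith)
  gcongr

end Pool.Agent.NH42.HF
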