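import Pool.Agent.NH42.HF.Near2

/-!
# Project HF: assembly
-/

set_option autoImplicit false

open MeasureTheory Set Metric
open scoped ENNReal

namespace Pool.Agent.NH42.HF

open Pool.Agent.H803R2.Kak Pool.Agent.H803R2.KakFTO

/-- Choice of the last level. -/
theorem exists_level {δ c₁ κ : ℝ} (hκ : 0 < κ) (hc : 0 < c₁) (hδ : 0 < δ) (hδ1 : 2 * δ ≤ c₁ / 8) :
    ∃ K : ℕ, 2 * δ ≤ c₁ / 8 * ((2 : ℝ) ^ K) ^ (-κ) ∧
      c₁ / 8 * ((2 : ℝ) ^ K) ^ (-κ) ≤ 2 * 2 ^ κ * δ := by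
  classical
  have hex : ∃ k : ℕ, c₁ / 8 * ((2 : ℝ) ^ k) ^ (-κ) < 2 * δ := by
    have h1 : Filter.Tendsto (fun k : ℕ => c₁ / 8 * ((2 : ℝ) ^ k) ^ (-κ)) Filter.atTop
        (nhds (c₁ / 8 * 0)) := by
      apply Filter.Tendsto.const_mul
      exact (tendsto_rpow_neg_atTop hκ).comp (tendsto_pow_atTop_atTop_of_one_lt (by norm_num))
    rw [mul_zero] at h1
    exact (h1.eventually_lt_const (by linarith : (0 : ℝ) < 2 * δ)).exists
  have h0 : Nat.find hex ≠ 0 := by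
    intro h
    have h2 := Nat.find_spec hex
    rw [h] at h2
    simp at h2
    linarith
  obtain ⟨K, hK⟩ := Nat.exists_eq_succ_of_ne_zero h0
  have h3 := Nat.find_min hex (m := K) (by omega)
  have h4 := Nat.find_spec hex
  rw [hK] at h4
  push Not at h3
  refine ⟨K, h3, ?_⟩
  have h5 : ((2 : ℝ) ^ (K + 1)) ^ (-κ) = ((2 : ℝ) ^ K) ^ (-κ) * 2 ^ (-κ) := by
    rw [pow_succ, Real.mul_rpow (by positivity) (by norm_num)]
  have h6 : c₁ / 8 * (((2 : ℝ) ^ K) ^ (-κ) * 2 ^ (-κ)) < 2 * δ := by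
    rw [← h5]
    exact h4
  have h7 : (2 : ℝ) ^ κ * 2 ^ (-κ) = 1 := by
    rw [← Real.rpow_add (by norm_num)]
    simp
  have h8 : (0 : ℝ) < 2 ^ κ := by positivity
  calc c₁ / 8 * ((2 : ℝ) ^ K) ^ (-κ)
      = 2 ^ κ * (c₁ / 8 * (((2 : ℝ) ^ K) ^ (-κ) * 2 ^ (-κ))) := by
        have : 2 ^ κ * (c₁ / 8 * (((2 : ℝ) ^ K) ^ (-κ) * 2 ^ (-κ))) =
          c₁ / 8 * ((2 : ℝ) ^ K) ^ (-κ) * (2 ^ κ * 2 ^ (-κ)) := by ring
        rw [this, h7, mul_one]
    _ ≤ 2 ^ κ * (2 * δ) := by gcongr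
    _ = _ := by ring

theorem loss_real {δ c₁ κ σ x : ℝ} (hκ : 0 < κ) (hc1 : c₁ ≤ 1) (hδ : 0 < δ) (hδ1 : δ < 1)
    (hx : 1 ≤ x) (h : 2 * δ ≤ c₁ / 8 * x ^ (-κ)) :
    max 1 (x ^ (-σ)) ≤ δ ^ (-max 0 (-σ / κ)) := by
  have hx0 : 0 < x := by linarith
  have h1 : (1 : ℝ) ≤ δ ^ (-max 0 (-σ / κ)) :=
    Real.one_le_rpow_of_pos_of_le_one_of_nonpos hδ hδ1.le (by
      have := le_max_left (0 : ℝ) (-σ / κ)
      linarith)
  apply max_le h1
  by_cases hσ : 0 ≤ σ
  · exact (Real.rpow_le_one_of_one_le_of_nonpos hx (by linarith)).trans h1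
  · push Not at hσ
    have hxk : x ^ κ ≤ δ⁻¹ := by
      have h2 : x ^ κ * x ^ (-κ) = 1 := by
        rw [← Real.rpow_add hx0]
        simp
      have h3 : 0 < x ^ κ := by positivity
      rw [le_inv_comm₀ h3 hδ]
      have h4 : (x ^ κ)⁻¹ = x ^ (-κ) := by rw [Real.rpow_neg hx0.le]
      rw [h4]
      have h5 : 0 < x ^ (-κ) := by positivity
      nlinarith
    have h6 : x ^ (-σ) = (x ^ κ) ^ (-σ / κ) := by
      rw [← Real.rpow_mul hx0.le]
      congr 1
      field_simp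
    have h7 : 0 ≤ -σ / κ := div_nonneg (by linarith) hκ.le
    rw [max_eq_right h7, h6]
    calc (x ^ κ) ^ (-σ / κ) ≤ (δ⁻¹) ^ (-σ / κ) := Real.rpow_le_rpow (by positivity) hxk h7
      _ = δ ^ (-(-σ / κ)) := by rw [Real.inv_rpow hδ.le, Real.rpow_neg hδ.le]

/-- Hoelder on a set of finite measure. -/
theorem holder_set {T : Set ℝ} {φ : ℝ → ℝ≥0∞} (hφ : Measurable φ) {p : ℝ} (hp : 1 < p) :
    (∫⁻ t in T, φ t) ^ p ≤ (volume T) ^ (p - 1) * ∫⁻ t in T, φ t ^ p := by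
  have hp0 : 0 < p := by linarith
  have hp1 : 0 < p - 1 := by linarith
  have h := ENNReal.lintegral_mul_le_Lp_mul_Lq (volume.restrict T) (p := p / (p - 1)) (q := p)
    (by
      rw [Real.holderConjugate_iff]
      refine ⟨?_, ?_⟩
      · rw [lt_div_iff₀ hp1]; linarith
      · rw [inv_div]; field_simp; ring) (f := fun _ => 1) (g := φ) aemeasurable_const
      hφ.aemeasurable
  simp only [Pi.mul_apply, one_mul, ENNReal.one_rpow, lintegral_const,
    Measure.restrict_apply_univ] at h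
  calc (∫⁻ t in T, φ t) ^ p
      ≤ (volume T ^ (1 / (p / (p - 1))) * (∫⁻ t in T, φ t ^ p) ^ (1 / p)) ^ p :=
        ENNReal.rpow_le_rpow h hp0.le
    _ = _ := by
        rw [ENNReal.mul_rpow_of_nonneg _ _ hp0.le, ← ENNReal.rpow_mul, ← ENNReal.rpow_mul]
        congr 2
        · field_simp
        · rw [one_div, inv_mul_cancel₀ hp0.ne', ENNReal.rpow_one]

/-- Bounded heights and large heights. -/
theorem window {a : ℕ} {φ : ℝ → ℝ≥0∞} (hφ : Measurable φ) {p : ℝ} (hp : 1 < p) :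
    (⨆ h : ℝ, ∫⁻ t in Icc h (h + 3), φ t) ≤ (∫⁻ t in Icc (-(2 : ℝ) ^ a) (2 ^ a), φ t) +
      (3 ^ (p - 1) * ∫⁻ t in (Icc (-(2 : ℝ) ^ a) (2 ^ a))ᶜ, φ t ^ p) ^ (1 / p) := by
  have hp0 : 0 < p := by linarith
  apply iSup_le
  intro h
  set I := Icc (-(2 : ℝ) ^ a) (2 ^ a) with hI
  have h1 : Icc h (h + 3) ⊆ I ∪ (Icc h (h + 3) ∩ Iᶜ) := by
    intro t ht
    by_cases hc : t ∈ I
    · exact Or.inl hc
    · exact Or.inr ⟨ht, hc⟩
  refine ((lintegral_mono_set h1).trans (lintegral_union_le _ _ _)).trans ?_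
  gcongr
  have h2 := holder_set (T := Icc h (h + 3) ∩ Iᶜ) hφ hp
  have h3 : volume (Icc h (h + 3) ∩ Iᶜ) ≤ 3 := by
    refine (measure_mono inter_subset_left).trans ?_
    rw [Real.volume_Icc]
    simp
  calc ∫⁻ t in Icc h (h + 3) ∩ Iᶜ, φ t
      = ((∫⁻ t in Icc h (h + 3) ∩ Iᶜ, φ t) ^ p) ^ (1 / p) := by
        rw [← ENNReal.rpow_mul, mul_one_div, div_self hp0.ne', ENNReal.rpow_one]
    _ ≤ (3 ^ (p - 1) * ∫⁻ t in Iᶜ, φ t ^ p) ^ (1 / p) := by
        apply ENNReal.rpow_le_rpow _ (by positivity)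
        refine h2.trans (mul_le_mul' ?_ (lintegral_mono_set inter_subset_right))
        exact ENNReal.rpow_le_rpow h3 (by linarith)

theorem est (Hgood : S_good) (Hbad : S_bad) (Hcells : S_cells) (Hcover : S_cover)
    (Hcount : S_count) (Hsum : S_sum) (hhav : S_hav) (htay : S_taylor) (Hfar : S_far)
    (Htriv : S_triv) {d : ℕ} {p θ α γ : ℝ} (hp : 1 < p) (hα : 0 < α)
    (hα1 : α ≤ 1) (hγ : 1 ≤ γ) (hσ : (p - 1) / γ - d - θ / α ≠ 0)
    (hCE : CellEst d p θ) (hLE : LocalEst d p) : Est d p θ α γ := by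
  classical
  intro A c m hA hc
  have hp0 : 0 < p := by linarith
  have hA0 : 0 < A := by linarith
  obtain ⟨a, ha⟩ := pow_unbounded_of_one_lt (4 * A + 1) (one_lt_two (α := ℝ))
  set c₁ : ℝ := min (1 / 32) ((1 / (16 * A)) ^ (1 / α)) with hc₁
  have hc₁0 : 0 < c₁ := by
    rw [hc₁]
    exact lt_min (by norm_num) (by positivity)
  have hc₁1 : c₁ ≤ 1 / 32 := min_le_left _ _
  have hc₁A : A * c₁ ^ α ≤ 1 / 16 := by
    have h1 : c₁ ^ α ≤ ((1 / (16 * A)) ^ (1 / α)) ^ α :=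
      Real.rpow_le_rpow hc₁0.le (min_le_right _ _) hα.le
    rw [← Real.rpow_mul (by positivity), one_div_mul_cancel hα.ne', Real.rpow_one] at h1
    calc A * c₁ ^ α ≤ A * (1 / (16 * A)) := by gcongr
      _ = 1 / 16 := by field_simp
  set κ : ℝ := 1 + 1 / α with hκ
  have hκ0 : 0 < κ := by positivity
  set σ : ℝ := (p - 1) / γ - d - θ / α with hσdef
  have hE : (α * (d - (p - 1) / γ) + θ) / (1 + α) = -σ / κ := by
    have h1 : (1 + α) ≠ 0 := by positivity
    rw [hσdef, hκ]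
    have hγ0 : γ ≠ 0 := by linarith
    field_simp
    ring
  rw [hE]
  obtain ⟨C1, hC1, hnear⟩ := near Hgood Hbad Hcells Hcover Hcount Hsum hhav htay (d := d) (m := m)
    (a := a) hp hα hα1 hγ hc hc₁0 hc₁1 hc₁A (Λ := 2 * 2 ^ κ) (by positivity) hσ hA hCE hLE
  obtain ⟨C2, hC2, htriv⟩ := Htriv d p hp.le
  set ω : ℝ := (volume (closedBall (0 : V d) 1)).toReal with hω
  have hωt : volume (closedBall (0 : V d) 1) ≠ ∞ := measure_closedBall_lt_top.ne
  have hωe : volume (closedBall (0 : V d) 1) = ENNReal.ofReal ω := (ENNReal.ofReal_toReal hωt).symm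
  have hω0 : 0 ≤ ω := ENNReal.toReal_nonneg
  set C3 : ℝ := (4 * 8 ^ d) ^ p * (2 ^ (p - 1) * (C1 + 3 ^ (p - 1))) with hC3
  have hC3p : 0 < C3 := by positivity
  set C4 : ℝ := C2 * (c₁ / 16) ^ (-(d : ℝ)) * (ω + 1) with hC4
  have hC4p : 0 < C4 := by positivity
  refine ⟨C3 + C4, by positivity, ?_⟩
  -- reduction to measurable functions
  suffices hmeas : ∀ (b : V d → V d) (D : V d → (V d →L[ℝ] V d)) (δ : ℝ) (f : Space d → ℝ),
      Hol A α b D → Spread γ m c D → 0 < δ → δ < 1 → Measurable f →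
      ∫⁻ v in closedBall (0 : V d) 1, lineMax δ b f v ^ p ≤
        ENNReal.ofReal ((C3 + C4) * δ ^ (-max 0 (-σ / κ))) * ∫⁻ y, ‖f y‖ₑ ^ p by
    intro b D δ f hHol hSp hδ hδ1 hf
    have h := hmeas b D δ (hf.mk f) hHol hSp hδ hδ1 hf.measurable_mk
    have e1 : ∀ v, lineMax δ b f v = lineMax δ b (hf.mk f) v :=
      fun v => lineMax_congr b v hf.ae_eq_mk
    have e2 : ∫⁻ y, ‖f y‖ₑ ^ p = ∫⁻ y, ‖hf.mk f y‖ₑ ^ p := by
      apply lintegral_congr_ae
      filter_upwards [hf.ae_eq_mk] with y hy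
      rw [hy]
    simp only [e1]
    rw [e2]
    exact h
  intro b D δ f hHol hSp hδ hδ1 hf
  set B : Set (V d) := closedBall 0 1 with hB
  set S := ∫⁻ y, ‖f y‖ₑ ^ p with hS
  have hloss1 : (1 : ℝ) ≤ δ ^ (-max 0 (-σ / κ)) :=
    Real.one_le_rpow_of_pos_of_le_one_of_nonpos hδ hδ1.le (by
      have := le_max_left (0 : ℝ) (-σ / κ)
      linarith)
  by_cases hcase : 2 * δ ≤ c₁ / 8
  · -- small δ
    obtain ⟨K, hK1, hK2⟩ := exists_level hκ0 hc₁0 hδ hcase
    have hxe : (1 : ℝ) / 2 ^ K / 8 * (c₁ * (1 / 2 ^ K) ^ (1 / α)) =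
        c₁ / 8 * ((2 : ℝ) ^ K) ^ (-κ) := by
      have h2 : (0 : ℝ) < 2 ^ K := by positivity
      have h1 : ((1 : ℝ) / 2 ^ K) ^ (1 / α) = ((2 : ℝ) ^ K) ^ (-(1 / α)) := by
        rw [one_div ((2 : ℝ) ^ K), Real.inv_rpow h2.le, Real.rpow_neg h2.le]
      have h3 : ((2 : ℝ) ^ K) ^ (-κ) = ((2 : ℝ) ^ K)⁻¹ * ((2 : ℝ) ^ K) ^ (-(1 / α)) := by
        rw [hκ, neg_add, Real.rpow_add h2, Real.rpow_neg_one]
      rw [h1, h3]
      ring
    have hmp := WithLp.volume_preserving_toLp (V d) ℝ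
    set f' : V d × ℝ → ℝ≥0∞ := fun q => ‖f (WithLp.toLp 2 q)‖ₑ with hf'
    have hf'm : Measurable f' := (hf.comp hmp.measurable).enorm
    have hf'S : ∫⁻ z, f' z ^ p = S :=
      hmp.lintegral_comp (f := fun y : Space d => ‖f y‖ₑ ^ p) (hf.enorm.pow_const _)
    have hn := hnear K δ b D f' hHol hSp hδ (by rw [hxe]; exact hK1) (by rw [hxe]; exact hK2) hf'm
    rw [hf'S] at hn
    have hmax : max 1 (((2 : ℝ) ^ K) ^ (-σ)) ≤ δ ^ (-max 0 (-σ / κ)) :=
      loss_real hκ0 (by linarith) hδ hδ1 (one_le_pow₀ (by norm_num)) hK1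
    set g := moll (2 * δ) f' with hg
    have hgm : Measurable g := measurable_moll hf'm
    set T : Set ℝ := (Icc (-(2 : ℝ) ^ a) (2 ^ a))ᶜ with hT
    have hfar := Hfar d A α p hα hα1 hA hp.le b D g T hHol hgm measurableSet_Icc.compl (by
      intro t ht
      rw [hT, mem_compl_iff, mem_Icc, not_and_or, not_le, not_le] at ht
      rcases ht with h | h
      · rw [abs_of_neg (by linarith [pow_pos (zero_lt_two (α := ℝ)) a])]
        linarith
      · exact (ha.le.trans h.le).trans (le_abs_self t))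
    have hfar2 : ∫⁻ w in B, ∫⁻ t in T, g (b w + t • w, t) ^ p ≤ S :=
      hfar.trans ((lintegral_moll_rpow_le hp (by linarith) hf'm).trans_eq hf'S)
    -- measurable version of b
    have hbc : ContinuousOn b B := fun v hv => (hHol.der v hv).continuousWithinAt
    set b' : V d → V d := B.indicator b with hb'
    have hb'm : Measurable b' := by
      have := hbc.measurable_piecewise (g := fun _ => (0 : V d)) continuousOn_const
        measurableSet_closedBall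
      convert this using 1
      ext v
      by_cases hv : v ∈ B
      · rw [hb', indicator_of_mem hv, piecewise_eq_of_mem _ _ _ hv]
      · rw [hb', indicator_of_notMem hv, piecewise_eq_of_notMem _ _ _ hv]
    have hbb : ∀ v ∈ B, b' v = b v := fun v hv => indicator_of_mem hv b
    have hGm : Measurable (fun q : V d × ℝ => g (b' q.1 + q.2 • q.1, q.2)) := by
      apply hgm.comp
      exact ((hb'm.comp measurable_fst).add (measurable_snd.smul measurable_fst)).prodMk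
        measurable_snd
    set Nv : V d → ℝ≥0∞ := fun v => (∫⁻ t in Icc (-(2 : ℝ) ^ a) (2 ^ a),
      g (b' v + t • v, t)) ^ p with hNv
    set Fv : V d → ℝ≥0∞ := fun v => ∫⁻ t in T, g (b' v + t • v, t) ^ p with hFv
    have hNm : Measurable Nv := (hGm.lintegral_prod_right').pow_const p
    have hFm : Measurable Fv := (hGm.pow_const p).lintegral_prod_right'
    have hIN : ∫⁻ v in B, Nv v ≤ ENNReal.ofReal (C1 * δ ^ (-max 0 (-σ / κ))) * S := by
      have h1 : ∫⁻ v in B, Nv v = ∫⁻ v in B, (∫⁻ t in Icc (-(2 : ℝ) ^ a) (2 ^ a),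
          g (b v + t • v, t)) ^ p := by
        apply setLIntegral_congr_fun measurableSet_closedBall
        intro v hv
        simp only [hNv, hbb v hv]
      rw [h1]
      refine hn.trans ?_
      gcongr
    have hIF : ∫⁻ v in B, Fv v ≤ S := by
      have h1 : ∫⁻ v in B, Fv v = ∫⁻ v in B, ∫⁻ t in T, g (b v + t • v, t) ^ p := by
        apply setLIntegral_congr_fun measurableSet_closedBall
        intro v hv
        simp only [hFv, hbb v hv]
      rw [h1]
      exact hfar2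
    have hpt : ∀ v ∈ B, lineMax δ b f v ^ p ≤
        (4 * 8 ^ d : ℝ≥0∞) ^ p * ((2 : ℝ≥0∞) ^ (p - 1) * (Nv v + 3 ^ (p - 1) * Fv v)) := by
      intro v hv
      have hv1 : ‖v‖ ≤ 1 := by simpa [hB] using hv
      have h1 := lineMax_le hδ hδ1 b hv1 hf
      have hφ : Measurable (fun t : ℝ => g (b v + t • v, t)) := by
        apply hgm.comp
        fun_prop
      have h2 := window (a := a) hφ hp
      have h3 : lineMax δ b f v ≤ (4 * 8 ^ d) * ((∫⁻ t in Icc (-(2 : ℝ) ^ a) (2 ^ a),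
          g (b v + t • v, t)) + (3 ^ (p - 1) * ∫⁻ t in T, g (b v + t • v, t) ^ p) ^ (1 / p)) :=
        h1.trans (mul_le_mul_right h2 _)
      calc lineMax δ b f v ^ p
          ≤ ((4 * 8 ^ d) * ((∫⁻ t in Icc (-(2 : ℝ) ^ a) (2 ^ a),
          g (b v + t • v, t)) + (3 ^ (p - 1) * ∫⁻ t in T, g (b v + t • v, t) ^ p) ^ (1 / p))) ^ p :=
            ENNReal.rpow_le_rpow h3 hp0.le
        _ = (4 * 8 ^ d : ℝ≥0∞) ^ p * ((∫⁻ t in Icc (-(2 : ℝ) ^ a) (2 ^ a),
          g (b v + t • v, t)) + (3 ^ (p - 1) * ∫⁻ t in T, g (b v + t • v, t) ^ p) ^ (1 / p)) ^ p :=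
            ENNReal.mul_rpow_of_nonneg _ _ hp0.le
        _ ≤ (4 * 8 ^ d : ℝ≥0∞) ^ p * ((2 : ℝ≥0∞) ^ (p - 1) * ((∫⁻ t in Icc (-(2 : ℝ) ^ a) (2 ^ a),
          g (b v + t • v, t)) ^ p +
            ((3 ^ (p - 1) * ∫⁻ t in T, g (b v + t • v, t) ^ p) ^ (1 / p)) ^ p)) := by
            gcongr
            exact ENNReal.rpow_add_le_mul_rpow_add_rpow _ _ hp.le
        _ = _ := by
            rw [← ENNReal.rpow_mul, one_div_mul_cancel hp0.ne', ENNReal.rpow_one]
            simp only [hNv, hFv, hbb v hv]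
    calc ∫⁻ v in B, lineMax δ b f v ^ p
        ≤ ∫⁻ v in B, (4 * 8 ^ d : ℝ≥0∞) ^ p *
            ((2 : ℝ≥0∞) ^ (p - 1) * (Nv v + 3 ^ (p - 1) * Fv v)) :=
          setLIntegral_mono' measurableSet_closedBall hpt
      _ = (4 * 8 ^ d : ℝ≥0∞) ^ p * ((2 : ℝ≥0∞) ^ (p - 1) *
            ((∫⁻ v in B, Nv v) + 3 ^ (p - 1) * ∫⁻ v in B, Fv v)) := by
          have h1 : Measurable (fun v => Nv v + 3 ^ (p - 1) * Fv v) :=
            hNm.add (hFm.const_mul _)
          rw [lintegral_const_mul _ (h1.const_mul _), lintegral_const_mul _ h1,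
            lintegral_add_left hNm, lintegral_const_mul _ hFm]
      _ ≤ (4 * 8 ^ d : ℝ≥0∞) ^ p * ((2 : ℝ≥0∞) ^ (p - 1) *
            (ENNReal.ofReal (C1 * δ ^ (-max 0 (-σ / κ))) * S +
              3 ^ (p - 1) * (ENNReal.ofReal (1 * δ ^ (-max 0 (-σ / κ))) * S))) := by
          gcongr
          refine hIF.trans ?_
          rw [one_mul]
          calc S = ENNReal.ofReal 1 * S := by simp
            _ ≤ _ := by gcongr
      _ = ENNReal.ofReal (C3 * δ ^ (-max 0 (-σ / κ))) * S := by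
          have e1 : (4 * 8 ^ d : ℝ≥0∞) ^ p = ENNReal.ofReal ((4 * 8 ^ d) ^ p) := by
            rw [← ENNReal.ofReal_rpow_of_pos (by positivity), ENNReal.ofReal_mul (by norm_num),
              ENNReal.ofReal_pow (by norm_num)]
            simp
          have e2 : (2 : ℝ≥0∞) ^ (p - 1) = ENNReal.ofReal (2 ^ (p - 1)) := by
            rw [← ENNReal.ofReal_rpow_of_pos (by norm_num)]
            simp
          have e3 : (3 : ℝ≥0∞) ^ (p - 1) = ENNReal.ofReal (3 ^ (p - 1)) := by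
            rw [← ENNReal.ofReal_rpow_of_pos (by norm_num)]
            simp
          set X : ℝ := δ ^ (-max 0 (-σ / κ)) with hX
          have hX0 : 0 < X := by positivity
          have e4 : C3 * X = (4 * 8 ^ d) ^ p * (2 ^ (p - 1) * (C1 * X + 3 ^ (p - 1) * (1 * X))) := by
            rw [hC3]; ring
          rw [e1, e2, e3, e4, ENNReal.ofReal_mul (p := (4 * 8 ^ d) ^ p) (by positivity),
            ENNReal.ofReal_mul (p := 2 ^ (p - 1)) (by positivity),
            ENNReal.ofReal_add (by positivity) (by positivity),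
            ENNReal.ofReal_mul (p := 3 ^ (p - 1)) (by positivity)]
          ring
      _ ≤ _ := by
          gcongr
          linarith
  · -- large δ
    push Not at hcase
    have h1 : ∀ v ∈ B, lineMax δ b f v ^ p ≤ ENNReal.ofReal (C2 * δ ^ (-(d : ℝ))) * S := by
      intro v hv
      have hv1 : ‖v‖ ≤ 1 := by simpa [hB] using hv
      exact htriv δ b v f hδ hδ1 hv1 hf
    calc ∫⁻ v in B, lineMax δ b f v ^ p
        ≤ ∫⁻ _ in B, ENNReal.ofReal (C2 * δ ^ (-(d : ℝ))) * S :=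
          setLIntegral_mono' measurableSet_closedBall h1
      _ = ENNReal.ofReal (C2 * δ ^ (-(d : ℝ))) * S * ENNReal.ofReal ω := by
          rw [setLIntegral_const, hωe]
      _ = ENNReal.ofReal (C2 * δ ^ (-(d : ℝ)) * ω) * S := by
          rw [ENNReal.ofReal_mul (p := C2 * δ ^ (-(d : ℝ))) (by positivity)]
          ring
      _ ≤ _ := by
          refine mul_le_mul_left (ENNReal.ofReal_le_ofReal ?_) _
          have h2 : δ ^ (-(d : ℝ)) ≤ (c₁ / 16) ^ (-(d : ℝ)) :=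
            Real.rpow_le_rpow_of_nonpos (by positivity) (by linarith) (by
              have : (0 : ℝ) ≤ d := Nat.cast_nonneg _
              linarith)
          calc C2 * δ ^ (-(d : ℝ)) * ω ≤ C2 * (c₁ / 16) ^ (-(d : ℝ)) * (ω + 1) := by
                gcongr
                linarith
            _ = C4 * 1 := by rw [hC4, mul_one]
            _ ≤ (C3 + C4) * δ ^ (-max 0 (-σ / κ)) := by
                gcongr
                linarith

end Pool.Agent.NH42.HF
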