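import Pool.Agent.NH42.HF.Stm2

/-!
# Project HF: the levels
-/

set_option autoImplicit false

open MeasureTheory Set Metric
open scoped ENNReal

namespace Pool.Agent.NH42.HF

open Pool.Agent.H803R2.Kak Pool.Agent.H803R2.KakFTO

theorem lvl_real {x M C c₁ p γ α θ e : ℝ} (hx : 0 < x) (hM : 0 < M) (hc : 0 < c₁) :
    (M * x ^ (1 - 1 / γ)) ^ (p - 1) * (C * ((1 / x) ^ (p - 1 - e) *
      (c₁ * (1 / x) ^ (1 / α)) ^ (-θ))) =
      (M ^ (p - 1) * C * c₁ ^ (-θ)) * x ^ (-((p - 1) / γ - e - θ / α)) := by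
  have h1 : ∀ y : ℝ, (1 / x) ^ y = x ^ (-y) := by
    intro y
    rw [one_div, Real.inv_rpow hx.le, Real.rpow_neg hx.le]
  rw [Real.mul_rpow hM.le (Real.rpow_nonneg hx.le _), h1, h1,
    Real.mul_rpow hc.le (Real.rpow_nonneg hx.le _), ← Real.rpow_mul hx.le, ← Real.rpow_mul hx.le]
  have h2 : x ^ (-((p - 1) / γ - e - θ / α)) =
      x ^ ((1 - 1 / γ) * (p - 1)) * (x ^ (-(p - 1 - e)) * x ^ (-(1 / α) * -θ)) := by
    rw [← Real.rpow_add hx, ← Real.rpow_add hx]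
    congr 1
    ring
  rw [h2]
  ring

theorem slabs_sum {d : ℕ} (a k : ℕ) {G : V d × ℝ → ℝ≥0∞} (hG : Measurable G) :
    ∑ j ∈ Zs a k, sint (1 / 2 ^ k / 8) ((j : ℝ) * (1 / 2 ^ k / 8)) G ≤ ∫⁻ z, G z := by
  set l : ℝ := 1 / 2 ^ k / 8 with hl
  have hl0 : 0 < l := by positivity
  have h1 : ∀ j : ℤ, sint l ((j : ℝ) * l) G =
      ∫⁻ t in Ico ((j : ℝ) * l) ((j : ℝ) * l + l), ∫⁻ y : V d, G (y, t) := by
    intro j
    unfold sint
    exact setLIntegral_congr Ico_ae_eq_Icc.symm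
  simp only [h1]
  have hdisj : Pairwise (Function.onFun Disjoint
      (fun j : ℤ => Ico ((j : ℝ) * l) ((j : ℝ) * l + l))) := by
    intro i j hij
    rw [Function.onFun, Set.disjoint_left]
    rintro t ⟨h2, h3⟩ ⟨h4, h5⟩
    apply hij
    have h6 : (i : ℝ) * l < (j : ℝ) * l + l := lt_of_le_of_lt h2 h5
    have h7 : (j : ℝ) * l < (i : ℝ) * l + l := lt_of_le_of_lt h4 h3
    have h8 : (i : ℝ) < (j : ℝ) + 1 := by nlinarith
    have h9 : (j : ℝ) < (i : ℝ) + 1 := by nlinarith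
    have h10 : i < j + 1 := by exact_mod_cast h8
    have h11 : j < i + 1 := by exact_mod_cast h9
    omega
  rw [← lintegral_biUnion_finset (fun i _ j _ hij => hdisj hij) (fun _ _ => measurableSet_Ico)]
  refine (setLIntegral_le_lintegral _ _).trans (le_of_eq ?_)
  rw [Measure.volume_eq_prod, lintegral_prod_symm _ hG.aemeasurable]

/-- The function which controls the sums over the slabs. -/
theorem genU {d N : ℕ} {b : V d → V d} (hb : ContinuousOn b (closedBall 0 1))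
    {g : V d × ℝ → ℝ≥0∞} (hg : Measurable g) {p : ℝ} (Z : Finset ℤ)
    (I : ℤ → Finset (Fin N)) (Q : Fin N → Set (V d)) (hQ : ∀ i, MeasurableSet (Q i))
    (hcov : closedBall (0 : V d) 1 ⊆ ⋃ i, Q i) (k : ℕ) :
    ∃ U : V d → ℝ≥0∞, Measurable U ∧
      (∀ v ∈ closedBall (0 : V d) 1, ∀ P : Finset ℤ, P ⊆ Z → (∀ j ∈ P, ∀ i, v ∈ Q i → i ∈ I j) →
        ∑ j ∈ P, (∫⁻ t in Slab k j, g (b v + t • v, t)) ^ p ≤ U v) ∧
      ∫⁻ v in closedBall (0 : V d) 1, U v ≤
        ∑ j ∈ Z, ∑ i ∈ I j, ∫⁻ w in Q i ∩ closedBall 0 1,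
          (∫⁻ t in Slab k j, g (b w + t • w, t)) ^ p := by
  classical
  set b' : V d → V d := (closedBall (0 : V d) 1).indicator b with hb'
  have hb'm : Measurable b' := by
    have := hb.measurable_piecewise (g := fun _ => (0 : V d)) continuousOn_const
      measurableSet_closedBall
    convert this using 1
    ext v
    by_cases hv : v ∈ closedBall (0 : V d) 1
    · rw [hb', indicator_of_mem hv, piecewise_eq_of_mem _ _ _ hv]
    · rw [hb', indicator_of_notMem hv, piecewise_eq_of_notMem _ _ _ hv]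
  set Φ : ℤ → V d → ℝ≥0∞ := fun j v => (∫⁻ t in Slab k j, g (b' v + t • v, t)) ^ p with hΦ
  have hΦm : ∀ j, Measurable (Φ j) := by
    intro j
    apply Measurable.pow_const
    have h1 : Measurable (fun q : V d × ℝ => g (b' q.1 + q.2 • q.1, q.2)) := by
      apply hg.comp
      exact ((hb'm.comp measurable_fst).add (measurable_snd.smul measurable_fst)).prodMk
        measurable_snd
    exact h1.lintegral_prod_right'
  have hΦe : ∀ j, ∀ v ∈ closedBall (0 : V d) 1,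
      Φ j v = (∫⁻ t in Slab k j, g (b v + t • v, t)) ^ p := by
    intro j v hv
    simp only [hΦ, hb', indicator_of_mem hv]
  refine ⟨fun v => ∑ j ∈ Z, ∑ i ∈ I j, (Q i ∩ closedBall 0 1).indicator (Φ j) v, ?_, ?_, ?_⟩
  · apply Finset.measurable_sum
    intro j _
    apply Finset.measurable_sum
    intro i _
    exact (hΦm j).indicator ((hQ i).inter measurableSet_closedBall)
  · intro v hv P hP hI
    refine le_trans ?_ (Finset.sum_le_sum_of_subset hP)
    apply Finset.sum_le_sum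
    intro j hj
    obtain ⟨i, hi⟩ := mem_iUnion.1 (hcov hv)
    rw [← hΦe j v hv]
    have h1 : Φ j v = (Q i ∩ closedBall 0 1).indicator (Φ j) v :=
      (indicator_of_mem (show v ∈ Q i ∩ closedBall 0 1 from ⟨hi, hv⟩) _).symm
    rw [h1]
    exact Finset.single_le_sum
      (f := fun i => (Q i ∩ closedBall 0 1).indicator (Φ j) v) (fun _ _ => zero_le) (hI j hj i hi)
  · apply le_of_eq
    rw [lintegral_finset_sum _ (fun j _ => by
      apply Finset.measurable_sum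
      intro i _
      exact (hΦm j).indicator ((hQ i).inter measurableSet_closedBall))]
    apply Finset.sum_congr rfl
    intro j _
    rw [lintegral_finset_sum _ (fun i _ =>
      (hΦm j).indicator ((hQ i).inter measurableSet_closedBall))]
    apply Finset.sum_congr rfl
    intro i _
    rw [lintegral_indicator ((hQ i).inter measurableSet_closedBall),
      Measure.restrict_restrict ((hQ i).inter measurableSet_closedBall)]
    have h1 : Q i ∩ closedBall (0 : V d) 1 ∩ closedBall 0 1 = Q i ∩ closedBall 0 1 := by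
      rw [inter_assoc, inter_self]
    rw [h1]
    apply setLIntegral_congr_fun ((hQ i).inter measurableSet_closedBall)
    intro v hv
    exact hΦe j v hv.2

/-- One level, good slabs. -/
theorem level (Hgood : S_good) (Hcells : S_cells) {d : ℕ} {p θ A α : ℝ} (hp : 1 < p) (hα : 0 < α)
    (hα1 : α ≤ 1) (hA : 1 ≤ A) (hCE : CellEst d p θ) (hLE : LocalEst d p) (hhav : S_hav)
    (htay : S_taylor) : ∃ C : ℝ, 0 < C ∧ ∀ (a k : ℕ) (ρ : ℝ) (b : V d → V d)
      (D : V d → (V d →L[ℝ] V d)) (g : V d × ℝ → ℝ≥0∞), 0 < ρ → ρ ≤ 1 / 16 →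
      A * ρ ^ α ≤ 1 / 2 ^ k / 16 → Hol A α b D → Measurable g →
      ∃ U : V d → ℝ≥0∞, Measurable U ∧
        (∀ v ∈ closedBall (0 : V d) 1, ∀ P : Finset ℤ,
          (∀ j ∈ P, j ∈ Zs a k ∧ Gd (D v) k j) →
          ∑ j ∈ P, (∫⁻ t in Slab k j, g (b v + t • v, t)) ^ p ≤ U v) ∧
        ∫⁻ v in closedBall (0 : V d) 1, U v ≤
          ENNReal.ofReal (C * ((1 / 2 ^ k) ^ (p - 1 - d) * ρ ^ (-θ))) * ∫⁻ z, g z ^ p := by
  classical
  obtain ⟨K, hK, hcells⟩ := Hcells d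
  obtain ⟨C, hC, hgood⟩ := Hgood d p θ A α K hp hα hα1 hA hK hCE hLE hhav htay
  refine ⟨C, hC, ?_⟩
  intro a k ρ b D g hρ hρ1 hAρ hHol hg
  obtain ⟨N, Q, hQm, hQd, hcov, hdiam, hvol⟩ := hcells ρ hρ (by linarith)
  have hbc : ContinuousOn b (closedBall 0 1) := fun v hv => (hHol.der v hv).continuousWithinAt
  have hs : (0 : ℝ) < 1 / 2 ^ k := by positivity
  have hs1 : (1 : ℝ) / 2 ^ k ≤ 1 := by
    rw [div_le_one (by positivity)]
    exact one_le_pow₀ (by norm_num)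
  set I : ℤ → Finset (Fin N) := fun j => Finset.univ.filter (fun i =>
    ∃ w ∈ Q i ∩ closedBall 0 1, ∃ t ∈ Slab k j, Nd (1 / 2 ^ k) t (D w)) with hI
  obtain ⟨U, hUm, hU1, hU2⟩ := genU hbc hg (p := p) (Zs a k) I Q hQm hcov k
  refine ⟨U, hUm, ?_, ?_⟩
  · intro v hv P hP
    apply hU1 v hv P (fun j hj => (hP j hj).1)
    intro j hj i hi
    rw [hI, Finset.mem_filter]
    obtain ⟨t, ht, hNd⟩ := (hP j hj).2
    exact ⟨Finset.mem_univ _, v, ⟨hi, hv⟩, t, ht, hNd⟩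
  · refine hU2.trans ?_
    calc ∑ j ∈ Zs a k, ∑ i ∈ I j, ∫⁻ w in Q i ∩ closedBall 0 1,
          (∫⁻ t in Slab k j, g (b w + t • w, t)) ^ p
        ≤ ∑ j ∈ Zs a k, ENNReal.ofReal (C * ((1 / 2 ^ k) ^ (p - 1 - d) * ρ ^ (-θ))) *
            sint (1 / 2 ^ k / 8) ((j : ℝ) * (1 / 2 ^ k / 8)) (fun z => g z ^ p) := by
          apply Finset.sum_le_sum
          intro j _
          apply hgood (1 / 2 ^ k) ρ ((j : ℝ) * (1 / 2 ^ k / 8)) b D g N Q hs hs1 hρ hρ1 hAρ hHol hg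
            hQm hQd hdiam hvol (I j)
          intro i hi
          rw [hI, Finset.mem_filter] at hi
          exact hi.2
      _ = ENNReal.ofReal (C * ((1 / 2 ^ k) ^ (p - 1 - d) * ρ ^ (-θ))) *
            ∑ j ∈ Zs a k, sint (1 / 2 ^ k / 8) ((j : ℝ) * (1 / 2 ^ k / 8)) (fun z => g z ^ p) := by
          rw [Finset.mul_sum]
      _ ≤ _ := by
          gcongr
          exact slabs_sum a k (hg.pow_const p)

/-- The last level, all slabs. -/
theorem levelBad (Hbad : S_bad) (Hcells : S_cells) {d : ℕ} {p θ : ℝ} (hp : 1 ≤ p)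
    (hCE : CellEst d p θ) : ∃ C : ℝ, 0 < C ∧ ∀ (a k : ℕ) (δ ρ : ℝ) (b : V d → V d)
      (f : V d × ℝ → ℝ≥0∞), 0 < δ → 0 < ρ → ρ ≤ 1 / 32 → 2 * δ ≤ 1 / 2 ^ k / 8 * ρ →
      ContinuousOn b (closedBall 0 1) → Measurable f →
      ∃ U : V d → ℝ≥0∞, Measurable U ∧
        (∀ v ∈ closedBall (0 : V d) 1, ∀ P : Finset ℤ, P ⊆ Zs a k →
          ∑ j ∈ P, (∫⁻ t in Slab k j, moll (2 * δ) f (b v + t • v, t)) ^ p ≤ U v) ∧
        ∫⁻ v in closedBall (0 : V d) 1, U v ≤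
          ENNReal.ofReal (C * (δ ^ (-((d : ℝ) * p)) *
        ((1 / 2 ^ k / 8) ^ (((d : ℝ) + 1) * (p - 1)) * ρ ^ ((d : ℝ) * p - θ)))) *
            ∫⁻ z, f z ^ p := by
  classical
  obtain ⟨K, hK, hcells⟩ := Hcells d
  obtain ⟨C, hC, hbad⟩ := Hbad d p θ hp hCE
  refine ⟨C, hC, ?_⟩
  intro a k δ ρ b f hδ hρ hρ1 hδρ hbc hf
  obtain ⟨N, Q, hQm, hQd, hcov, hdiam, hvol⟩ := hcells ρ hρ (by linarith)
  have hs : (0 : ℝ) < 1 / 2 ^ k / 8 := by positivity
  obtain ⟨U, hUm, hU1, hU2⟩ := genU hbc (measurable_moll (r := 2 * δ) hf) (p := p) (Zs a k)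
    (fun _ => Finset.univ) Q hQm hcov k
  refine ⟨U, hUm, ?_, ?_⟩
  · intro v hv P hP
    exact hU1 v hv P hP (fun j _ i _ => Finset.mem_univ _)
  · refine hU2.trans ?_
    set R := ENNReal.ofReal (C * (δ ^ (-((d : ℝ) * p)) *
        ((1 / 2 ^ k / 8) ^ (((d : ℝ) + 1) * (p - 1)) * ρ ^ ((d : ℝ) * p - θ)))) with hR
    calc ∑ j ∈ Zs a k, ∑ i ∈ (Finset.univ : Finset (Fin N)), ∫⁻ w in Q i ∩ closedBall 0 1,
          (∫⁻ t in Slab k j, moll (2 * δ) f (b w + t • w, t)) ^ p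
        ≤ ∑ j ∈ Zs a k, R *
            sint (1 / 2 ^ k / 8) ((j : ℝ) * (1 / 2 ^ k / 8)) (fun z => f z ^ p) := by
          apply Finset.sum_le_sum
          intro j _
          exact hbad δ (1 / 2 ^ k / 8) ρ ((j : ℝ) * (1 / 2 ^ k / 8)) b f N Q hδ hs hρ hρ1 hδρ hf
            hQm hQd hdiam
      _ = R *
            ∑ j ∈ Zs a k, sint (1 / 2 ^ k / 8) ((j : ℝ) * (1 / 2 ^ k / 8)) (fun z => f z ^ p) := by
          rw [Finset.mul_sum]
      _ ≤ _ := by
          gcongr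
          exact slabs_sum a k (hf.pow_const p)

end Pool.Agent.NH42.HF
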