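import Pool.Agent.NH42.HF.Near

/-!
# Project HF: the bounded heights
-/

set_option autoImplicit false

open MeasureTheory Set Metric
open scoped ENNReal

namespace Pool.Agent.NH42.HF

open Pool.Agent.H803R2.Kak Pool.Agent.H803R2.KakFTO

theorem moll_rpow_le {d : ℕ} {p : ℝ} (hp : 1 < p) {r : ℝ} (hr : 0 < r)
    {f : (EuclideanSpace ℝ (Fin d)) × ℝ → ℝ≥0∞} (hf : Measurable f) (q : (EuclideanSpace ℝ (Fin d)) × ℝ) :
    moll r f q ^ p ≤ moll r (fun q => f q ^ p) q := by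
  have hp0 : 0 < p := by linarith
  have hV0 := (vol_pos (d := d) hr).ne'
  have hVt := (vol_lt_top (d := d) (r := r)).ne
  unfold moll
  set V := volume (closedBall (0:(EuclideanSpace ℝ (Fin d))) r) with hV
  have hfm : Measurable (fun w : EuclideanSpace ℝ (Fin d) => f (q.1 + w, q.2)) := by
    apply hf.comp; fun_prop
  have hh := ENNReal.lintegral_mul_le_Lp_mul_Lq (volume.restrict (closedBall (0:(EuclideanSpace ℝ (Fin d))) r))
    (p := p / (p - 1)) (q := p) (by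
      rw [Real.holderConjugate_iff]
      have hp1 : 0 < p - 1 := by linarith
      refine ⟨?_, ?_⟩
      · rw [lt_div_iff₀ hp1]; linarith
      · rw [inv_div]; field_simp; ring) (f := fun _ => 1) (g := fun w => f (q.1 + w, q.2))
      aemeasurable_const hfm.aemeasurable
  simp only [Pi.mul_apply, one_mul, ENNReal.one_rpow, lintegral_const, Measure.restrict_apply_univ] at hh
  rw [← hV] at hh
  have hp1 : 0 < p - 1 := by linarith
  rw [ENNReal.mul_rpow_of_nonneg _ _ hp0.le]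
  calc V⁻¹ ^ p * (∫⁻ w in closedBall (0:(EuclideanSpace ℝ (Fin d))) r, f (q.1 + w, q.2)) ^ p
      ≤ V⁻¹ ^ p * (V ^ (1 / (p / (p - 1))) *
          (∫⁻ w in closedBall (0:(EuclideanSpace ℝ (Fin d))) r, f (q.1 + w, q.2) ^ p) ^ (1 / p)) ^ p := by
        gcongr
    _ = V⁻¹ ^ p * (V ^ (p - 1) *
          (∫⁻ w in closedBall (0:(EuclideanSpace ℝ (Fin d))) r, f (q.1 + w, q.2) ^ p)) := by
        rw [ENNReal.mul_rpow_of_nonneg _ _ hp0.le, ← ENNReal.rpow_mul, ← ENNReal.rpow_mul]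
        congr 3
        · field_simp
        · rw [one_div, inv_mul_cancel₀ hp0.ne', ENNReal.rpow_one]
    _ = (V⁻¹ ^ p * V ^ (p - 1)) *
          (∫⁻ w in closedBall (0:(EuclideanSpace ℝ (Fin d))) r, f (q.1 + w, q.2) ^ p) := by ring
    _ = V⁻¹ * ∫⁻ w in closedBall (0:(EuclideanSpace ℝ (Fin d))) r, f (q.1 + w, q.2) ^ p := by
        congr 1
        rw [ENNReal.inv_rpow, ← ENNReal.rpow_neg, ← ENNReal.rpow_add _ _ hV0 hVt,
          ← ENNReal.rpow_neg_one]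
        congr 1
        ring

theorem lintegral_moll_rpow_le {d : ℕ} {p : ℝ} (hp : 1 < p) {r : ℝ} (hr : 0 < r)
    {f : (EuclideanSpace ℝ (Fin d)) × ℝ → ℝ≥0∞} (hf : Measurable f) :
    ∫⁻ q, moll r f q ^ p ≤ ∫⁻ q, f q ^ p := by
  have hfp : Measurable (fun q => f q ^ p) := hf.pow_const p
  have hmm := measurable_moll (r := r) hfp
  calc ∫⁻ q, moll r f q ^ p ≤ ∫⁻ q, moll r (fun q => f q ^ p) q :=
        lintegral_mono (fun q => moll_rpow_le hp hr hf q)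
    _ = ∫⁻ t : ℝ, ∫⁻ y : (EuclideanSpace ℝ (Fin d)), moll r (fun q => f q ^ p) (y, t) := by
        rw [Measure.volume_eq_prod, lintegral_prod_symm _ hmm.aemeasurable]
    _ = ∫⁻ t : ℝ, ∫⁻ y : (EuclideanSpace ℝ (Fin d)), f (y, t) ^ p := by
        congr 1
        ext t
        exact lintegral_moll hr hfp t
    _ = _ := by rw [Measure.volume_eq_prod, lintegral_prod_symm _ hfp.aemeasurable]

/-- A sum over few slabs. -/
theorem few {p M R : ℝ} (hp : 1 < p) (P : Finset ℤ) (x : ℤ → ℝ≥0∞) (u : ℝ≥0∞)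
    (hcard : (P.card : ℝ) ≤ R) (hu : ∑ j ∈ P, x j ^ p ≤ u) :
    ∑ j ∈ P, x j ≤ (ENNReal.ofReal (R ^ (p - 1)) * u) ^ (1 / p) := by
  have hp0 : 0 < p := by linarith
  have hR : 0 ≤ R := le_trans (Nat.cast_nonneg _) hcard
  have h1 := ENNReal.rpow_sum_le_const_mul_sum_rpow P x hp.le
  have h2 : ((P.card : ℕ) : ℝ≥0∞) ^ (p - 1) ≤ ENNReal.ofReal (R ^ (p - 1)) := by
    rw [← ENNReal.ofReal_rpow_of_nonneg hR (by linarith)]
    apply ENNReal.rpow_le_rpow _ (by linarith)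
    rw [← ENNReal.ofReal_natCast]
    exact ENNReal.ofReal_le_ofReal hcard
  have h3 : (∑ j ∈ P, x j) ^ p ≤ ENNReal.ofReal (R ^ (p - 1)) * u :=
    h1.trans (mul_le_mul' h2 hu)
  calc ∑ j ∈ P, x j = ((∑ j ∈ P, x j) ^ p) ^ (1 / p) := by
        rw [← ENNReal.rpow_mul, mul_one_div, div_self hp0.ne', ENNReal.rpow_one]
    _ ≤ _ := ENNReal.rpow_le_rpow h3 (by positivity)

theorem near (Hgood : S_good) (Hbad : S_bad) (Hcells : S_cells) (Hcover : S_cover)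
    (Hcount : S_count) (Hsum : S_sum) (hhav : S_hav) (htay : S_taylor)
    {d m a : ℕ} {p θ A α γ c c₁ Λ : ℝ} (hp : 1 < p) (hα : 0 < α)
    (hα1 : α ≤ 1) (hγ : 1 ≤ γ) (hc : 0 < c) (hc₁ : 0 < c₁) (hc₁1 : c₁ ≤ 1 / 32)
    (hc₁A : A * c₁ ^ α ≤ 1 / 16) (hΛ : 0 < Λ) (hσ : (p - 1) / γ - d - θ / α ≠ 0)
    (hA : 1 ≤ A) (hCE : CellEst d p θ) (hLE : LocalEst d p) :
    ∃ C : ℝ, 0 < C ∧ ∀ (K : ℕ) (δ : ℝ) (b : V d → V d) (D : V d → (V d →L[ℝ] V d))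
      (f : V d × ℝ → ℝ≥0∞), Hol A α b D → Spread γ m c D → 0 < δ →
      2 * δ ≤ 1 / 2 ^ K / 8 * (c₁ * (1 / 2 ^ K) ^ (1 / α)) →
      1 / 2 ^ K / 8 * (c₁ * (1 / 2 ^ K) ^ (1 / α)) ≤ Λ * δ → Measurable f →
      ∫⁻ v in closedBall (0 : V d) 1, (∫⁻ t in Icc (-(2 : ℝ) ^ a) (2 ^ a),
        moll (2 * δ) f (b v + t • v, t)) ^ p ≤
      ENNReal.ofReal (C * max 1 (((2 : ℝ) ^ K) ^ (-((p - 1) / γ - d - θ / α)))) *
        ∫⁻ z, f z ^ p := by
  classical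
  have hp0 : 0 < p := by linarith
  obtain ⟨M, hM, hcount⟩ := Hcount d m a γ c hγ hc
  obtain ⟨C1, hC1, hlevel⟩ := level Hgood Hcells hp hα hα1 hA hCE hLE hhav htay
  obtain ⟨C2, hC2, hlevelb⟩ := levelBad Hbad Hcells hp.le hCE
  set σ : ℝ := (p - 1) / γ - d - θ / α with hσdef
  obtain ⟨C3, hC3, hsum⟩ := Hsum p σ hp.le hσ
  set E1 : ℝ := M ^ (p - 1) * C1 * c₁ ^ (-θ) with hE1
  have hE1p : 0 < E1 := by positivity
  set C4 : ℝ := C2 * Λ ^ ((d : ℝ) * p) * 8 ^ (-(p - 1 - (d : ℝ))) with hC4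
  have hC4p : 0 < C4 := by positivity
  set E2 : ℝ := M ^ (p - 1) * C4 * c₁ ^ (-θ) with hE2
  have hE2p : 0 < E2 := by positivity
  refine ⟨2 ^ (p - 1) * (C3 * E1 + E2), by positivity, ?_⟩
  intro K δ b D f hHol hSp hδ hδK hδK2 hf
  set g := moll (2 * δ) f with hg
  have hgm : Measurable g := measurable_moll hf
  set J := ∫⁻ z, f z ^ p with hJ
  have hgJ : ∫⁻ z, g z ^ p ≤ J := lintegral_moll_rpow_le hp (by linarith) hf
  have hbc : ContinuousOn b (closedBall 0 1) := fun v hv => (hHol.der v hv).continuousWithinAt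
  set ρ : ℕ → ℝ := fun k => c₁ * (1 / 2 ^ k) ^ (1 / α) with hρ
  have hρ0 : ∀ k, 0 < ρ k := fun k => by
    simp only [hρ]; positivity
  have hx1 : ∀ k : ℕ, (1 : ℝ) / 2 ^ k ≤ 1 := by
    intro k
    rw [div_le_one (by positivity)]
    exact one_le_pow₀ (by norm_num)
  have hρ1 : ∀ k, ρ k ≤ 1 / 32 := by
    intro k
    have h1 : ((1 : ℝ) / 2 ^ k) ^ (1 / α) ≤ 1 :=
      Real.rpow_le_one (by positivity) (hx1 k) (by positivity)
    calc ρ k = c₁ * (1 / 2 ^ k) ^ (1 / α) := rfl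
      _ ≤ c₁ * 1 := by gcongr
      _ ≤ 1 / 32 := by linarith
  have hρA : ∀ k, A * ρ k ^ α ≤ 1 / 2 ^ k / 16 := by
    intro k
    have h1 : ρ k ^ α = c₁ ^ α * (1 / 2 ^ k) := by
      simp only [hρ]
      rw [Real.mul_rpow hc₁.le (by positivity), ← Real.rpow_mul (by positivity),
        one_div_mul_cancel hα.ne', Real.rpow_one]
    rw [h1, ← mul_assoc]
    calc A * c₁ ^ α * (1 / 2 ^ k) ≤ 1 / 16 * (1 / 2 ^ k) := by gcongr
      _ = 1 / 2 ^ k / 16 := by ring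
  choose U hUm hU1 hU2 using fun k => hlevel a k (ρ k) b D g (hρ0 k) ((hρ1 k).trans (by norm_num))
    (hρA k) hHol hgm
  obtain ⟨Ub, hUbm, hUb1, hUb2⟩ := hlevelb a K δ (ρ K) b f hδ (hρ0 K) (hρ1 K) hδK hbc hf
  set B : Set (V d) := closedBall 0 1 with hB
  set Y : ℕ → V d → ℝ≥0∞ := fun k v =>
    (ENNReal.ofReal ((M * ((2 : ℝ) ^ k) ^ (1 - 1 / γ)) ^ (p - 1)) * U k v) ^ (1 / p) with hY
  set Yb : V d → ℝ≥0∞ := fun v =>
    (ENNReal.ofReal ((M * ((2 : ℝ) ^ K) ^ (1 - 1 / γ)) ^ (p - 1)) * Ub v) ^ (1 / p) with hYb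
  have hYm : ∀ k, Measurable (Y k) := fun k => ((hUm k).const_mul _).pow_const _
  have hYbm : Measurable Yb := (hUbm.const_mul _).pow_const _
  -- pointwise estimate
  have hpt : ∀ v ∈ B, ∫⁻ t in Icc (-(2 : ℝ) ^ a) (2 ^ a), g (b v + t • v, t) ≤
      ∑ k ∈ Finset.range (K + 1), Y k v + Yb v := by
    intro v hv
    obtain ⟨Λs, hΛc, hΛs⟩ := hSp v hv
    obtain ⟨P, P', hP, hP', hle⟩ := Hcover d a K (D v) (fun t => g (b v + t • v, t))
    refine hle.trans (add_le_add (Finset.sum_le_sum ?_) ?_)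
    · intro k hk
      have hk' : k ≤ K := by
        rw [Finset.mem_range] at hk
        omega
      apply few (M := M) hp
      · exact hcount (D v) Λs hΛc hΛs k (P k) (fun j hj => ⟨(hP k hk' j hj).1, (hP k hk' j hj).2.2⟩)
      · exact hU1 k v hv (P k) (fun j hj => ⟨(hP k hk' j hj).1, (hP k hk' j hj).2.1⟩)
    · apply few (M := M) hp
      · exact hcount (D v) Λs hΛc hΛs K P' (fun j hj => ⟨(hP' j hj).1, fun _ => (hP' j hj).2⟩)
      · exact hUb1 v hv P' (fun j hj => (hP' j hj).1)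
  -- integrals of the levels
  have hYp : ∀ k v, Y k v ^ p =
      ENNReal.ofReal ((M * ((2 : ℝ) ^ k) ^ (1 - 1 / γ)) ^ (p - 1)) * U k v := by
    intro k v
    simp only [hY]
    rw [← ENNReal.rpow_mul, one_div_mul_cancel hp0.ne', ENNReal.rpow_one]
  have hYbp : ∀ v, Yb v ^ p =
      ENNReal.ofReal ((M * ((2 : ℝ) ^ K) ^ (1 - 1 / γ)) ^ (p - 1)) * Ub v := by
    intro v
    simp only [hYb]
    rw [← ENNReal.rpow_mul, one_div_mul_cancel hp0.ne', ENNReal.rpow_one]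
  have hlev : ∀ k ≤ K, ∫⁻ v in B, Y k v ^ p ≤
      ENNReal.ofReal (((2 : ℝ) ^ k) ^ (-σ)) * (ENNReal.ofReal E1 * J) := by
    intro k _
    simp only [hYp]
    rw [lintegral_const_mul _ (hUm k)]
    calc ENNReal.ofReal ((M * ((2 : ℝ) ^ k) ^ (1 - 1 / γ)) ^ (p - 1)) * ∫⁻ v in B, U k v
        ≤ ENNReal.ofReal ((M * ((2 : ℝ) ^ k) ^ (1 - 1 / γ)) ^ (p - 1)) *
          (ENNReal.ofReal (C1 * ((1 / 2 ^ k) ^ (p - 1 - d) * ρ k ^ (-θ))) * J) := by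
          gcongr
          exact (hU2 k).trans (by gcongr)
      _ = ENNReal.ofReal ((M * ((2 : ℝ) ^ k) ^ (1 - 1 / γ)) ^ (p - 1) *
          (C1 * ((1 / 2 ^ k) ^ (p - 1 - d) * (c₁ * (1 / 2 ^ k) ^ (1 / α)) ^ (-θ)))) * J := by
          rw [← mul_assoc, ← ENNReal.ofReal_mul (by positivity)]
      _ = ENNReal.ofReal (((2 : ℝ) ^ k) ^ (-σ)) * (ENNReal.ofReal E1 * J) := by
          rw [lvl_real (x := (2 : ℝ) ^ k) (e := (d : ℝ)) (by positivity) hM hc₁, ← mul_assoc,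
            ← ENNReal.ofReal_mul (by positivity), hE1, mul_comm (((2 : ℝ) ^ k) ^ (-σ))]
  have hmain := hsum (V d) (volume.restrict B) K Y (ENNReal.ofReal E1 * J) hYm hlev
  have hbadI : ∫⁻ v in B, Yb v ^ p ≤
      ENNReal.ofReal (E2 * ((2 : ℝ) ^ K) ^ (-σ)) * J := by
    simp only [hYbp]
    rw [lintegral_const_mul _ hUbm]
    have hreal : C2 * (δ ^ (-((d : ℝ) * p)) *
        ((1 / 2 ^ K / 8) ^ (((d : ℝ) + 1) * (p - 1)) * ρ K ^ ((d : ℝ) * p - θ))) ≤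
        C4 * ((1 / 2 ^ K) ^ (p - 1 - d) * ρ K ^ (-θ)) := by
      have hl0 : (0 : ℝ) < 1 / 2 ^ K / 8 := by positivity
      have hr0 := hρ0 K
      have h1 : δ ^ (-((d : ℝ) * p)) ≤
          Λ ^ ((d : ℝ) * p) * (1 / 2 ^ K / 8 * ρ K) ^ (-((d : ℝ) * p)) := by
        have h2 : (1 / 2 ^ K / 8 * ρ K) / Λ ≤ δ := by
          rw [div_le_iff₀ hΛ]
          linarith
        have h3 : δ ^ (-((d : ℝ) * p)) ≤ ((1 / 2 ^ K / 8 * ρ K) / Λ) ^ (-((d : ℝ) * p)) :=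
          Real.rpow_le_rpow_of_nonpos (by positivity) h2 (by
            have : 0 ≤ (d : ℝ) * p := by positivity
            linarith)
        refine h3.trans (le_of_eq ?_)
        rw [Real.div_rpow (by positivity) hΛ.le, Real.rpow_neg hΛ.le, div_inv_eq_mul, mul_comm]
      have h4 : C2 * (δ ^ (-((d : ℝ) * p)) *
        ((1 / 2 ^ K / 8) ^ (((d : ℝ) + 1) * (p - 1)) * ρ K ^ ((d : ℝ) * p - θ))) ≤
        C2 * ((Λ ^ ((d : ℝ) * p) * (1 / 2 ^ K / 8 * ρ K) ^ (-((d : ℝ) * p))) *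
        ((1 / 2 ^ K / 8) ^ (((d : ℝ) + 1) * (p - 1)) * ρ K ^ ((d : ℝ) * p - θ))) := by
        gcongr
      refine h4.trans (le_of_eq ?_)
      rw [Real.mul_rpow hl0.le hr0.le]
      have h5 : (1 / 2 ^ K / 8 : ℝ) ^ (-((d : ℝ) * p)) *
          (1 / 2 ^ K / 8 : ℝ) ^ (((d : ℝ) + 1) * (p - 1)) = (1 / 2 ^ K / 8 : ℝ) ^ (p - 1 - d) := by
        rw [← Real.rpow_add hl0]
        congr 1
        ring
      have h6 : ρ K ^ (-((d : ℝ) * p)) * ρ K ^ ((d : ℝ) * p - θ) = ρ K ^ (-θ) := by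
        rw [← Real.rpow_add hr0]
        congr 1
        ring
      have h7 : (1 / 2 ^ K / 8 : ℝ) ^ (p - 1 - d) =
          (1 / 2 ^ K : ℝ) ^ (p - 1 - d) * 8 ^ (-(p - 1 - (d : ℝ))) := by
        rw [Real.div_rpow (by positivity) (by norm_num), Real.rpow_neg (by norm_num)]
        rfl
      calc C2 * ((Λ ^ ((d : ℝ) * p) * ((1 / 2 ^ K / 8 : ℝ) ^ (-((d : ℝ) * p)) *
            ρ K ^ (-((d : ℝ) * p)))) *
            ((1 / 2 ^ K / 8 : ℝ) ^ (((d : ℝ) + 1) * (p - 1)) * ρ K ^ ((d : ℝ) * p - θ)))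
          = C2 * Λ ^ ((d : ℝ) * p) * ((1 / 2 ^ K / 8 : ℝ) ^ (-((d : ℝ) * p)) *
          (1 / 2 ^ K / 8 : ℝ) ^ (((d : ℝ) + 1) * (p - 1))) *
            (ρ K ^ (-((d : ℝ) * p)) * ρ K ^ ((d : ℝ) * p - θ)) := by ring
        _ = C4 * ((1 / 2 ^ K) ^ (p - 1 - d) * ρ K ^ (-θ)) := by
          rw [h5, h6, h7, hC4]
          ring
    calc ENNReal.ofReal ((M * ((2 : ℝ) ^ K) ^ (1 - 1 / γ)) ^ (p - 1)) * ∫⁻ v in B, Ub v
        ≤ ENNReal.ofReal ((M * ((2 : ℝ) ^ K) ^ (1 - 1 / γ)) ^ (p - 1)) *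
          (ENNReal.ofReal (C4 * ((1 / 2 ^ K) ^ (p - 1 - d) * ρ K ^ (-θ))) * J) := by
          gcongr
          exact hUb2.trans (by gcongr)
      _ = ENNReal.ofReal ((M * ((2 : ℝ) ^ K) ^ (1 - 1 / γ)) ^ (p - 1) *
          (C4 * ((1 / 2 ^ K) ^ (p - 1 - d) * (c₁ * (1 / 2 ^ K) ^ (1 / α)) ^ (-θ)))) * J := by
          rw [← mul_assoc, ← ENNReal.ofReal_mul (by positivity)]
      _ = ENNReal.ofReal (E2 * ((2 : ℝ) ^ K) ^ (-σ)) * J := by
          rw [lvl_real (x := (2 : ℝ) ^ K) (e := (d : ℝ)) (by positivity) hM hc₁]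
  have hSm : Measurable (fun v => ∑ k ∈ Finset.range (K + 1), Y k v) :=
    Finset.measurable_sum _ (fun k _ => hYm k)
  have hmx1 : (1 : ℝ) ≤ max 1 (((2 : ℝ) ^ K) ^ (-σ)) := le_max_left _ _
  have hmx2 : ((2 : ℝ) ^ K) ^ (-σ) ≤ max 1 (((2 : ℝ) ^ K) ^ (-σ)) := le_max_right _ _
  calc ∫⁻ v in B, (∫⁻ t in Icc (-(2 : ℝ) ^ a) (2 ^ a), g (b v + t • v, t)) ^ p
      ≤ ∫⁻ v in B, (2 : ℝ≥0∞) ^ (p - 1) * ((∑ k ∈ Finset.range (K + 1), Y k v) ^ p + Yb v ^ p) := by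
        apply setLIntegral_mono' measurableSet_closedBall
        intro v hv
        exact (ENNReal.rpow_le_rpow (hpt v hv) hp0.le).trans
          (ENNReal.rpow_add_le_mul_rpow_add_rpow _ _ hp.le)
    _ = (2 : ℝ≥0∞) ^ (p - 1) * ((∫⁻ v in B, (∑ k ∈ Finset.range (K + 1), Y k v) ^ p) +
          ∫⁻ v in B, Yb v ^ p) := by
        have hS2 : Measurable (fun v => (∑ k ∈ Finset.range (K + 1), Y k v) ^ p) :=
          hSm.pow_const p
        have hY2 : Measurable (fun v => Yb v ^ p) := hYbm.pow_const p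
        have hSY : Measurable (fun v => (∑ k ∈ Finset.range (K + 1), Y k v) ^ p + Yb v ^ p) :=
          hS2.add hY2
        rw [lintegral_const_mul _ hSY, lintegral_add_left hS2]
    _ ≤ (2 : ℝ≥0∞) ^ (p - 1) * (ENNReal.ofReal (C3 * max 1 (((2 : ℝ) ^ K) ^ (-σ))) *
          (ENNReal.ofReal E1 * J) + ENNReal.ofReal (E2 * ((2 : ℝ) ^ K) ^ (-σ)) * J) := by
        gcongr
    _ ≤ (2 : ℝ≥0∞) ^ (p - 1) * (ENNReal.ofReal (C3 * max 1 (((2 : ℝ) ^ K) ^ (-σ))) *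
          (ENNReal.ofReal E1 * J) + ENNReal.ofReal (E2 * max 1 (((2 : ℝ) ^ K) ^ (-σ))) * J) := by
        gcongr
    _ = ENNReal.ofReal (2 ^ (p - 1) * (C3 * E1 + E2) * max 1 (((2 : ℝ) ^ K) ^ (-σ))) * J := by
        have e1 : (2 : ℝ≥0∞) ^ (p - 1) = ENNReal.ofReal (2 ^ (p - 1)) := by
          rw [← ENNReal.ofReal_rpow_of_pos (by norm_num)]
          simp
        have e2 : (2 : ℝ) ^ (p - 1) * (C3 * E1 + E2) * max 1 (((2 : ℝ) ^ K) ^ (-σ)) =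
            2 ^ (p - 1) * (C3 * max 1 (((2 : ℝ) ^ K) ^ (-σ)) * E1 +
              E2 * max 1 (((2 : ℝ) ^ K) ^ (-σ))) := by ring
        rw [e1, e2, ENNReal.ofReal_mul (p := 2 ^ (p - 1)) (by positivity),
          ENNReal.ofReal_add (by positivity) (by positivity),
          ENNReal.ofReal_mul (p := C3 * max 1 (((2 : ℝ) ^ K) ^ (-σ))) (q := E1) (by positivity)]
        ring

end Pool.Agent.NH42.HF
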