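import Mathlib

/-!
# Project HF: Kakeya maximal estimates for families of lines of class `C^{1,α}`

Definitions and the statements of the pieces which need only Mathlib.
-/

set_option autoImplicit false

open MeasureTheory Set Metric
open scoped ENNReal

namespace Pool.Agent.NH42.HF

/-- Euclidean space `ℝ^d` (the same abbreviation as `KakFTO.Vec`). -/
abbrev V (d : ℕ) : Type := EuclideanSpace ℝ (Fin d)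

/-- Integral of `G` over the tube `{(y, t) : h ≤ t ≤ h + ℓ, |y - (u + t w)| ≤ r}`. -/
noncomputable def tint {d : ℕ} (ℓ r h : ℝ) (u w : V d) (G : V d × ℝ → ℝ≥0∞) : ℝ≥0∞ :=
  ∫⁻ t in Icc h (h + ℓ), ∫⁻ y in closedBall (u + t • w) r, G (y, t)

/-- Integral of `G` over the slab `{(y, t) : h ≤ t ≤ h + ℓ}`. -/
noncomputable def sint {d : ℕ} (ℓ h : ℝ) (G : V d × ℝ → ℝ≥0∞) : ℝ≥0∞ :=
  ∫⁻ t in Icc h (h + ℓ), ∫⁻ y : V d, G (y, t)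

/-- Horizontal `L^p` averages of `g` at the scale `5 r`, normalised by `r ^ d`. -/
noncomputable def hav {d : ℕ} (r p : ℝ) (g : V d × ℝ → ℝ≥0∞) (z : V d × ℝ) : ℝ≥0∞ :=
  ((ENNReal.ofReal (r ^ d))⁻¹ * ∫⁻ y in closedBall z.1 (5 * r), g (y, z.2) ^ p) ^ (1 / p)

/-- The Kakeya maximal estimate in `L^p` with the loss `r ^ (-θ)`, for tubes of height one whose
positions are given by an arbitrary measurable family `b`. -/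
def Fam (d : ℕ) (p θ : ℝ) : Prop := ∃ C : ℝ, 0 < C ∧ ∀ r : ℝ, 0 < r → r ≤ 1 / 8 →
  ∀ b : V d → V d, Measurable b → ∀ g : V d × ℝ → ℝ≥0∞, Measurable g →
    ∫⁻ v in closedBall (0 : V d) 1, tint 1 r 0 (b v) v g ^ p ≤
      ENNReal.ofReal (C * r ^ ((d : ℝ) * p - θ)) * ∫⁻ z, g z ^ p

/-- The discretised form: cells `Q i` of directions of diameter `ρ`, one tube of radius `ℓ ρ` and
height `ℓ` for each cell. -/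
def CellEst (d : ℕ) (p θ : ℝ) : Prop := ∃ C : ℝ, 0 < C ∧ ∀ ℓ ρ h : ℝ, 0 < ℓ → 0 < ρ → ρ ≤ 1 / 16 →
  ∀ (ι : Type) [Fintype ι] (Q : ι → Set (V d)) (w : ι → V d), (∀ i, MeasurableSet (Q i)) →
    Pairwise (Function.onFun Disjoint Q) → (∀ i, ∀ x ∈ Q i, ‖x - w i‖ ≤ ρ) → (∀ i, ‖w i‖ ≤ 1) →
    ∀ G : V d × ℝ → ℝ≥0∞, Measurable G →
    ∑ i, volume (Q i) * (⨆ u : V d, tint ℓ (ℓ * ρ) h u (w i) G) ^ p ≤
      ENNReal.ofReal (C * (ℓ ^ (((d : ℝ) + 1) * (p - 1)) * ρ ^ ((d : ℝ) * p - θ))) *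
        sint ℓ h (fun z => G z ^ p)

/-- The local estimate: near a point where the section maps `w ↦ b w + t w` are expanding by the
factor `s`, the integrals of `g` over the lines are controlled by tubes of height `s / 8`. -/
def LocalEst (d : ℕ) (p : ℝ) : Prop := ∃ C : ℝ, 0 < C ∧ ∀ (s ρ h t₁ : ℝ) (S : Set (V d))
  (b : V d → V d) (D : V d → (V d →L[ℝ] V d)) (D₁ : V d →L[ℝ] V d) (w₁ : V d)
  (g : V d × ℝ → ℝ≥0∞), 0 < s → 0 < ρ → t₁ ∈ Icc h (h + s / 8) → MeasurableSet S →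
  (∀ w ∈ S, ‖w - w₁‖ ≤ ρ) → (∀ w ∈ S, HasFDerivWithinAt b (D w) S w) →
  (∀ w ∈ S, ‖D w - D₁‖ ≤ s / 8) →
  (∀ w ∈ S, ∀ v ∈ S, ‖b w - b v - D₁ (w - v)‖ ≤ s / 4 * ‖w - v‖) →
  (∀ x : V d, s * ‖x‖ ≤ ‖D₁ x + t₁ • x‖) → Measurable g →
  ∫⁻ w in S, (∫⁻ t in Icc h (h + s / 8), g (b w + t • w, t)) ^ p ≤
    ENNReal.ofReal (C * ρ ^ d) * ((ENNReal.ofReal ((s / 8 * ρ) ^ d))⁻¹ *
      ⨆ u : V d, tint (s / 8) (s / 8 * ρ) h u w₁ (hav (s / 8 * ρ) p g)) ^ p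

/-- `b` is of class `C^{1,α}` on the closed unit ball: derivative `D`, constant `A`. -/
structure Hol {d : ℕ} (A α : ℝ) (b : V d → V d) (D : V d → (V d →L[ℝ] V d)) : Prop where
  der : ∀ v ∈ closedBall (0 : V d) 1, HasFDerivWithinAt b (D v) (closedBall 0 1) v
  bdd : ∀ v ∈ closedBall (0 : V d) 1, ‖D v‖ ≤ A
  hol : ∀ v ∈ closedBall (0 : V d) 1, ∀ w ∈ closedBall (0 : V d) 1, ‖D w - D v‖ ≤ A * ‖w - v‖ ^ α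

/-- The linear map `D v + t` is bounded below by `c min (1, dist (t, Λ)) ^ γ` with a set `Λ` of at
most `m` heights depending on `v`. -/
def Spread {d : ℕ} (γ : ℝ) (m : ℕ) (c : ℝ) (D : V d → (V d →L[ℝ] V d)) : Prop :=
  ∀ v ∈ closedBall (0 : V d) 1, ∃ Λ : Finset ℝ, Λ.card ≤ m ∧
    ∀ t : ℝ, ∃ l ∈ Λ, ∀ x : V d, c * min 1 |t - l| ^ γ * ‖x‖ ≤ ‖D v x + t • x‖

/-- `L + t` is bounded below by `s`. -/
def Nd {d : ℕ} (s t : ℝ) (L : V d →L[ℝ] V d) : Prop := ∀ x : V d, s * ‖x‖ ≤ ‖L x + t • x‖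

/-- The slab number `j` of level `k` (length `2 ^ (-k) / 8`). -/
def Slab (k : ℕ) (j : ℤ) : Set ℝ :=
  Icc ((j : ℝ) * (1 / 2 ^ k / 8)) ((j : ℝ) * (1 / 2 ^ k / 8) + 1 / 2 ^ k / 8)

/-- The slabs of level `k` between the heights `± 2 ^ a`. -/
noncomputable def Zs (a k : ℕ) : Finset ℤ := Finset.Ico (-(8 * 2 ^ (a + k) : ℤ)) (8 * 2 ^ (a + k))

/-- The slab contains a height at which `L + t` is bounded below by `2 ^ (-k)`. -/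
def Gd {d : ℕ} (L : V d →L[ℝ] V d) (k : ℕ) (j : ℤ) : Prop := ∃ t ∈ Slab k j, Nd (1 / 2 ^ k) t L

/-- The slab contains a height at which `L + t` is not bounded below by `2 ^ (1 - k)`. -/
def Nr {d : ℕ} (L : V d →L[ℝ] V d) (k : ℕ) (j : ℤ) : Prop := ∃ t ∈ Slab k j, ¬ Nd (2 / 2 ^ k) t L

/-! ### The pieces -/

/-- HF-3 -/
def S_famMono : Prop := ∀ (d : ℕ) (p₀ p θ : ℝ), 1 ≤ p₀ → p₀ ≤ p → Fam d p₀ θ → Fam d p θ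

/-- HF-4 -/
def S_cell : Prop := ∀ (d : ℕ) (p θ : ℝ), 1 ≤ p → Fam d p θ → CellEst d p θ

/-- HF-5 -/
def S_local : Prop := ∀ (d : ℕ) (p : ℝ), 1 < p → LocalEst d p

/-- HF-6 -/
def S_hav : Prop := ∀ (d : ℕ) (p : ℝ), 1 ≤ p → ∃ C : ℝ, 0 < C ∧ ∀ (r ℓ h : ℝ)
  (g : V d × ℝ → ℝ≥0∞), 0 < r → Measurable g → Measurable (hav r p g) ∧
    sint ℓ h (fun z => hav r p g z ^ p) ≤ ENNReal.ofReal C * sint ℓ h (fun z => g z ^ p)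

/-- HF-7: cells of diameter at most `ρ`. -/
def S_cells : Prop := ∀ d : ℕ, ∃ K : ℝ, 0 < K ∧ ∀ ρ : ℝ, 0 < ρ → ρ ≤ 1 →
  ∃ (N : ℕ) (Q : Fin N → Set (V d)), (∀ i, MeasurableSet (Q i)) ∧
    Pairwise (Function.onFun Disjoint Q) ∧ closedBall (0 : V d) 1 ⊆ ⋃ i, Q i ∧
    (∀ i, ∀ x ∈ Q i, ∀ y ∈ Q i, ‖x - y‖ ≤ ρ) ∧
    ∀ i, ENNReal.ofReal (ρ ^ d) ≤ ENNReal.ofReal K * volume (Q i)

/-- HF-12a: Taylor. -/
def S_taylor : Prop := ∀ (d : ℕ) (A α : ℝ) (b : V d → V d) (D : V d → (V d →L[ℝ] V d)),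
  0 < α → 0 ≤ A → Hol A α b D → ∀ v ∈ closedBall (0 : V d) 1, ∀ w ∈ closedBall (0 : V d) 1,
    ‖b w - b v - D v (w - v)‖ ≤ A * ‖w - v‖ ^ α * ‖w - v‖

/-- HF-8: the estimate for one slab of the level `s`, good cells. -/
def S_good : Prop := ∀ (d : ℕ) (p θ A α K : ℝ), 1 < p → 0 < α → α ≤ 1 → 1 ≤ A → 0 < K →
  CellEst d p θ → LocalEst d p → S_hav → S_taylor → ∃ C : ℝ, 0 < C ∧
  ∀ (s ρ h : ℝ) (b : V d → V d) (D : V d → (V d →L[ℝ] V d)) (g : V d × ℝ → ℝ≥0∞)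
    (N : ℕ) (Q : Fin N → Set (V d)), 0 < s → s ≤ 1 → 0 < ρ → ρ ≤ 1 / 16 → A * ρ ^ α ≤ s / 16 →
    Hol A α b D → Measurable g → (∀ i, MeasurableSet (Q i)) →
    Pairwise (Function.onFun Disjoint Q) → (∀ i, ∀ x ∈ Q i, ∀ y ∈ Q i, ‖x - y‖ ≤ ρ) →
    (∀ i, ENNReal.ofReal (ρ ^ d) ≤ ENNReal.ofReal K * volume (Q i)) →
    ∀ I : Finset (Fin N), (∀ i ∈ I, ∃ w ∈ Q i ∩ closedBall 0 1, ∃ t ∈ Icc h (h + s / 8),
      Nd s t (D w)) →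
    ∑ i ∈ I, ∫⁻ w in Q i ∩ closedBall 0 1, (∫⁻ t in Icc h (h + s / 8), g (b w + t • w, t)) ^ p ≤
      ENNReal.ofReal (C * (s ^ (p - 1 - d) * ρ ^ (-θ))) * sint (s / 8) h (fun z => g z ^ p)

/-- HF-10a: the slabs cover. -/
def S_cover : Prop := ∀ (d a K : ℕ) (L : V d →L[ℝ] V d) (φ : ℝ → ℝ≥0∞),
  ∃ (P : ℕ → Finset ℤ) (P' : Finset ℤ),
    (∀ k ≤ K, ∀ j ∈ P k, j ∈ Zs a k ∧ Gd L k j ∧ (k ≠ 0 → Nr L k j)) ∧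
    (∀ j ∈ P', j ∈ Zs a K ∧ Nr L K j) ∧
    ∫⁻ t in Icc (-(2 : ℝ) ^ a) (2 ^ a), φ t ≤
      (∑ k ∈ Finset.range (K + 1), ∑ j ∈ P k, ∫⁻ t in Slab k j, φ t) +
        ∑ j ∈ P', ∫⁻ t in Slab K j, φ t

/-- HF-10b: the number of slabs near the degenerate heights. -/
def S_count : Prop := ∀ (d m a : ℕ) (γ c : ℝ), 1 ≤ γ → 0 < c → ∃ M : ℝ, 0 < M ∧
  ∀ (L : V d →L[ℝ] V d) (Λ : Finset ℝ), Λ.card ≤ m →
    (∀ t : ℝ, ∃ l ∈ Λ, ∀ x : V d, c * min 1 |t - l| ^ γ * ‖x‖ ≤ ‖L x + t • x‖) →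
    ∀ (k : ℕ) (P : Finset ℤ), (∀ j ∈ P, j ∈ Zs a k ∧ (k ≠ 0 → Nr L k j)) →
      (P.card : ℝ) ≤ M * ((2 : ℝ) ^ k) ^ (1 - 1 / γ)

/-- HF-11: large heights. -/
def S_far : Prop := ∀ (d : ℕ) (A α p : ℝ), 0 < α → α ≤ 1 → 1 ≤ A → 1 ≤ p →
  ∀ (b : V d → V d) (D : V d → (V d →L[ℝ] V d)) (g : V d × ℝ → ℝ≥0∞) (T : Set ℝ),
    Hol A α b D → Measurable g → MeasurableSet T → (∀ t ∈ T, 4 * A + 1 ≤ |t|) →
    ∫⁻ w in closedBall (0 : V d) 1, ∫⁻ t in T, g (b w + t • w, t) ^ p ≤ ∫⁻ z, g z ^ p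

/-- HF-12b: symmetric derivatives. -/
def S_symm : Prop := ∀ (d : ℕ) (D : V d → (V d →L[ℝ] V d)), 1 ≤ d →
  (∀ v ∈ closedBall (0 : V d) 1, ∀ x y : V d, inner ℝ (D v x) y = inner ℝ x (D v y)) →
  Spread 1 d 1 D

/-- HF-12c: arbitrary derivatives. -/
def S_all : Prop := ∀ (d : ℕ) (A : ℝ), 1 ≤ d → 1 ≤ A → ∃ c : ℝ, 0 < c ∧
  ∀ D : V d → (V d →L[ℝ] V d), (∀ v ∈ closedBall (0 : V d) 1, ‖D v‖ ≤ A) → Spread d d c D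

/-- HF-14: Minkowski and a geometric sum. -/
def S_sum : Prop := ∀ (p σ : ℝ), 1 ≤ p → σ ≠ 0 → ∃ C : ℝ, 0 < C ∧ ∀ (X : Type) [MeasurableSpace X]
  (μ : Measure X) (K : ℕ) (Y : ℕ → X → ℝ≥0∞) (M : ℝ≥0∞), (∀ k, Measurable (Y k)) →
  (∀ k ≤ K, ∫⁻ x, Y k x ^ p ∂μ ≤ ENNReal.ofReal (((2 : ℝ) ^ k) ^ (-σ)) * M) →
  ∫⁻ x, (∑ k ∈ Finset.range (K + 1), Y k x) ^ p ∂μ ≤
    ENNReal.ofReal (C * max 1 (((2 : ℝ) ^ K) ^ (-σ))) * M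

end Pool.Agent.NH42.HF
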