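import Pool.Agent.NH42.HF.Stm
import Pool.Agent.H803R2.KakFTO

/-!
# Project HF: statements of the pieces which use the mollifier and the maximal function of `H803R2`
-/

set_option autoImplicit false

open MeasureTheory Set Metric
open scoped ENNReal

namespace Pool.Agent.NH42.HF

open Pool.Agent.H803R2.Kak Pool.Agent.H803R2.KakFTO

/-- HF-9: the estimate for one slab, all cells, at the scale of the mollification. -/
def S_bad : Prop := ∀ (d : ℕ) (p θ : ℝ), 1 ≤ p → CellEst d p θ → ∃ C : ℝ, 0 < C ∧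
  ∀ (δ ℓ ρ h : ℝ) (b : V d → V d) (f : V d × ℝ → ℝ≥0∞) (N : ℕ) (Q : Fin N → Set (V d)),
    0 < δ → 0 < ℓ → 0 < ρ → ρ ≤ 1 / 32 → 2 * δ ≤ ℓ * ρ → Measurable f →
    (∀ i, MeasurableSet (Q i)) → Pairwise (Function.onFun Disjoint Q) →
    (∀ i, ∀ x ∈ Q i, ∀ y ∈ Q i, ‖x - y‖ ≤ ρ) →
    ∑ i, ∫⁻ w in Q i ∩ closedBall 0 1,
        (∫⁻ t in Icc h (h + ℓ), moll (2 * δ) f (b w + t • w, t)) ^ p ≤
      ENNReal.ofReal (C * (δ ^ (-((d : ℝ) * p)) *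
        (ℓ ^ (((d : ℝ) + 1) * (p - 1)) * ρ ^ ((d : ℝ) * p - θ)))) * sint ℓ h (fun z => f z ^ p)

/-- HF-13: the trivial estimate. -/
def S_triv : Prop := ∀ (d : ℕ) (p : ℝ), 1 ≤ p → ∃ C : ℝ, 0 < C ∧
  ∀ (δ : ℝ) (b : V d → V d) (v : V d) (f : Space d → ℝ), 0 < δ → δ < 1 → ‖v‖ ≤ 1 →
    Measurable f → lineMax δ b f v ^ p ≤ ENNReal.ofReal (C * δ ^ (-(d : ℝ))) * ∫⁻ y, ‖f y‖ₑ ^ p

/-- The closed cylinder of length `1` and radius `δ` with centre `a` and axis direction `e`. -/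
def cyl {n : ℕ} (δ : ℝ) (a e : V n) : Set (V n) :=
  {y | |inner ℝ (y - a) e| ≤ 1 / 2 ∧ ‖(y - a) - (inner ℝ (y - a) e) • e‖ ≤ δ}

/-- The Kakeya maximal estimate in `L^p(ℝ^{d+1})` with the loss `δ ^ (-θ)`. -/
def KM (d : ℕ) (p θ : ℝ) : Prop := ∃ C : ℝ, 0 < C ∧ ∀ δ : ℝ, 0 < δ → δ < 1 →
  ∀ f : V (d + 1) → ℝ≥0∞, AEMeasurable f volume →
    ∫⁻ e : sphere (0 : V (d + 1)) 1,
        (⨆ a : V (d + 1), (volume (cyl δ a (e : V (d + 1))))⁻¹ *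
          ∫⁻ y in cyl δ a (e : V (d + 1)), f y) ^ p
        ∂(volume : Measure (V (d + 1))).toSphere ≤
      ENNReal.ofReal (C * δ ^ (-θ)) * ∫⁻ y, f y ^ p

/-- HF-1: from the sphere to families. -/
def S_famKM : Prop := ∀ (d : ℕ) (p θ : ℝ), 1 ≤ d → 1 ≤ p → KM d p θ → Fam d p θ

/-- HF-2: the planar case. -/
def S_famPlanar : Prop := ∀ θ : ℝ, 0 < θ → Fam 1 2 θ

/-- The final estimate for one class of families. -/
def Est (d : ℕ) (p θ α γ : ℝ) : Prop := ∀ (A c : ℝ) (m : ℕ), 1 ≤ A → 0 < c → ∃ C : ℝ, 0 < C ∧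
  ∀ (b : Vec d → Vec d) (D : Vec d → (Vec d →L[ℝ] Vec d)) (δ : ℝ) (f : Space d → ℝ),
    Hol A α b D → Spread γ m c D → 0 < δ → δ < 1 → AEMeasurable f volume →
    ∫⁻ v in closedBall (0 : Vec d) 1, lineMax δ b f v ^ p ≤
      ENNReal.ofReal (C * δ ^ (-max 0 ((α * (d - (p - 1) / γ) + θ) / (1 + α)))) *
        ∫⁻ y, ‖f y‖ₑ ^ p

end Pool.Agent.NH42.HF
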